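import Pool.Agent.J4H31.V.V12

/-!
Mean squares over characters of a given level: differencing and orthogonality.
-/

set_option autoImplicit false
set_option linter.unusedSectionVars false

open MeasureTheory Matrix Complex
open Pool.Agent.Y766.R3 (eu)
open Pool.Agent.J4H31.V
open scoped ENNReal

namespace Pool.Agent.J4H31.W

variable {ι : Type} [Fintype ι] [DecidableEq ι]

/-- the class sums and the correlations -/
lemma q_onev {D : ι → ℕ} (hD : ∀ i, 0 < D i) {M : Matrix ι ι ℝ} (h : M.det ≠ 0) {lam : ℝ}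
    (hl : 0 < lam) (c : ι → ℝ) {u : (ι → ℤ) → ℂ} (hu : ∀ x, ‖u x‖ ≤ 1) :
    ENNReal.ofReal (∑ b ∈ box D,
      ‖∑' z, u (b + cz D * z) * ((gw M lam c (b + cz D * z) : ℝ) : ℂ)‖ ^ 2) ≤
      ENNReal.ofReal (th0 M (2 * lam)) + ∑' z : ι → ℤ, wv M (lam / 2) D z *
          ‖ES M (2 * lam) (c - (1 / 2 : ℝ) • (M *ᵥ rc (cz D * z))) (Df (cz D * z) u)‖ₑ := by
  set f : (ι → ℤ) → ℂ := fun x => u x * ((gw M lam c x : ℝ) : ℂ) with hf
  have hfb : ∀ x, ‖f x‖ ≤ gw M lam c x := fun x => by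
    simp only [hf]
    rw [norm_mul, Complex.norm_real, Real.norm_of_nonneg (gw_pos _ _ _ _).le]
    exact mul_le_of_le_one_left (gw_pos _ _ _ _).le (hu x)
  have h1 := sq_clsv hD (summable_gw h hl c) (fun x => (gw_pos _ _ _ _).le) hfb
  set Q : ℝ := ∑ b ∈ box D, ‖∑' z, f (b + cz D * z)‖ ^ 2 with hQ
  have hQ0 : 0 ≤ Q := Finset.sum_nonneg fun _ _ => sq_nonneg _
  have h2 : ∀ z : ι → ℤ, ‖∑' x, f (x + cz D * z) * (starRingEnd ℂ) (f x)‖ₑ =
      ENNReal.ofReal (gw M (lam / 2) 0 (cz D * z)) *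
        ‖ES M (2 * lam) (c - (1 / 2 : ℝ) • (M *ᵥ rc (cz D * z))) (Df (cz D * z) u)‖ₑ := by
    intro z
    have e1 : ∑' x, f (x + cz D * z) * (starRingEnd ℂ) (f x) =
        ((gw M (lam / 2) 0 (cz D * z) : ℝ) : ℂ) *
        ES M (2 * lam) (c - (1 / 2 : ℝ) • (M *ᵥ rc (cz D * z))) (Df (cz D * z) u) := by
      unfold ES Df
      rw [← tsum_mul_left]
      refine tsum_congr fun x => ?_
      simp only [hf]
      rw [map_mul, Complex.conj_ofReal]
      have e2 := gw_mul_gw M lam c x (cz D * z)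
      have e3 : ((gw M lam c (x + cz D * z) : ℝ) : ℂ) * ((gw M lam c x : ℝ) : ℂ) =
          ((gw M (lam / 2) 0 (cz D * z) : ℝ) : ℂ) *
          ((gw M (2 * lam) (c - (1 / 2 : ℝ) • (M *ᵥ rc (cz D * z))) x : ℝ) : ℂ) := by
        rw [← Complex.ofReal_mul, ← Complex.ofReal_mul, e2]
      linear_combination (u (x + cz D * z) * (starRingEnd ℂ) (u x)) * e3
    rw [e1, enorm_mul, ← ofReal_norm, Complex.norm_real, Real.norm_of_nonneg (gw_pos _ _ _ _).le]
  have h3 : ENNReal.ofReal Q = ‖((Q : ℝ) : ℂ)‖ₑ := by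
    rw [← ofReal_norm, Complex.norm_real, Real.norm_of_nonneg hQ0]
  rw [h3, h1]
  refine (enorm_tsum_le_tsum_enorm).trans ?_
  simp_rw [h2]
  rw [ENNReal.tsum_eq_add_tsum_ite 0]
  refine add_le_add ?_ (ENNReal.tsum_le_tsum fun z => ?_)
  · have e0 : cz D * (0 : ι → ℤ) = 0 := mul_zero _
    have e1 : gw M (lam / 2) 0 (0 : ι → ℤ) = 1 := by
      unfold gw gz
      have : rc (0 : ι → ℤ) = 0 := by funext i; simp [rc]
      rw [this, Matrix.mulVec_zero, sub_zero, nsq_zero]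
      simp
    rw [e0, e1, ENNReal.ofReal_one, one_mul, ← ofReal_norm]
    exact ENNReal.ofReal_le_ofReal (norm_ES_le h (by positivity) _ (Df_norm hu))
  · unfold wv
    split_ifs
    · exact zero_le
    · exact le_rfl

/-- the mean square over a family with a Bessel inequality -/
lemma es_onems {J : Type} [Fintype J] {D : ι → ℕ} (hD : ∀ i, 0 < D i) {M : Matrix ι ι ℝ}
    (h : M.det ≠ 0) {lam : ℝ} (hl : 0 < lam) (c : ι → ℝ) {u : (ι → ℤ) → ℂ} (hu : ∀ x, ‖u x‖ ≤ 1)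
    {ξ : J → (ι → ℤ) → ℂ} (hξ : ∀ j x, ‖ξ j x‖ ≤ 1)
    (hper : ∀ j x z, ξ j (x + cz D * z) = ξ j x)
    (hbes : ∀ A : (ι → ℤ) → ℂ, ∑ j, ‖∑ b ∈ box D, ξ j b * A b‖ ^ 2 ≤
      ((∏ i, D i : ℕ) : ℝ) * ∑ b ∈ box D, ‖A b‖ ^ 2) :
    ENNReal.ofReal (∑ j, ‖ES M lam c (fun x => ξ j x * u x)‖ ^ 2) ≤
      ((∏ i, D i : ℕ) : ℝ≥0∞) * (ENNReal.ofReal (th0 M (2 * lam)) +
        ∑' z : ι → ℤ, wv M (lam / 2) D z *
          ‖ES M (2 * lam) (c - (1 / 2 : ℝ) • (M *ᵥ rc (cz D * z))) (Df (cz D * z) u)‖ₑ) := by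
  have h1 : ∀ j, ES M lam c (fun x => ξ j x * u x) = ∑ b ∈ box D, ξ j b *
      ∑' z, u (b + cz D * z) * ((gw M lam c (b + cz D * z) : ℝ) : ℂ) := by
    intro j
    have hs : Summable fun x : ι → ℤ => (ξ j x * u x) * ((gw M lam c x : ℝ) : ℂ) := by
      refine Summable.of_norm_bounded (summable_gw h hl c) fun x => ?_
      rw [norm_mul, Complex.norm_real, Real.norm_of_nonneg (gw_pos _ _ _ _).le, norm_mul]
      exact mul_le_of_le_one_left (gw_pos _ _ _ _).le
        (mul_le_one₀ (hξ _ _) (norm_nonneg _) (hu x))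
    unfold ES
    rw [tsum_clsv hD hs]
    refine Finset.sum_congr rfl fun b _ => ?_
    rw [← tsum_mul_left]
    refine tsum_congr fun z => ?_
    rw [hper]
    ring
  simp_rw [h1]
  have h2 := hbes fun b => ∑' z, u (b + cz D * z) * ((gw M lam c (b + cz D * z) : ℝ) : ℂ)
  refine (ENNReal.ofReal_le_ofReal h2).trans ?_
  rw [ENNReal.ofReal_mul (Nat.cast_nonneg _), ENNReal.ofReal_natCast]
  gcongr
  exact q_onev hD h hl c hu

/-! ### characters of given levels -/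

/-- the product of characters of the coordinates -/
noncomputable def tch {p : ℕ} {a : ι → ℕ} (τ : (i : ι) → DirichletCharacter ℂ (p ^ a i))
    (x : ι → ℤ) : ℂ := ∏ i, τ i ((x i : ℤ) : ZMod (p ^ a i))

lemma tch_norm {p : ℕ} {a : ι → ℕ} (τ : (i : ι) → DirichletCharacter ℂ (p ^ a i)) (x : ι → ℤ) :
    ‖tch τ x‖ ≤ 1 := by
  unfold tch
  rw [norm_prod]
  exact Finset.prod_le_one (fun _ _ => norm_nonneg _) fun i _ => (τ i).norm_le_one _

lemma tch_per {p : ℕ} {a : ι → ℕ} (τ : (i : ι) → DirichletCharacter ℂ (p ^ a i)) (x z : ι → ℤ) :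
    tch τ (x + cz (pw p a) * z) = tch τ x := by
  unfold tch
  refine Finset.prod_congr rfl fun i _ => ?_
  congr 1
  rw [Pi.add_apply, Pi.mul_apply, cz_pw_apply, ← sub_eq_zero, ← Int.cast_sub,
    ZMod.intCast_zmod_eq_zero_iff_dvd]
  push_cast
  rw [add_sub_cancel_left]
  exact dvd_mul_right _ _

/-- orthogonality in one coordinate -/
lemma orth_one {n : ℕ} [NeZero n] (x y : ZMod n) :
    ∑ χ : DirichletCharacter ℂ n, χ x * (starRingEnd ℂ) (χ y) =
      if x = y ∧ IsUnit x then (n.totient : ℂ) else 0 := by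
  by_cases hy : IsUnit y
  · have h1 : ∀ χ : DirichletCharacter ℂ n, (starRingEnd ℂ) (χ y) = χ y⁻¹ := by
      intro χ
      have h2 : ‖χ y‖ = 1 := by
        have := DirichletCharacter.unit_norm_eq_one χ hy.unit
        rwa [IsUnit.unit_spec] at this
      rw [← Complex.inv_eq_conj h2]
      have h3 : χ y⁻¹ * χ y = 1 := by
        rw [← map_mul, ZMod.inv_mul_of_unit y hy, map_one]
      exact (eq_inv_of_mul_eq_one_left h3).symm
    simp_rw [h1]
    have h4 := DirichletCharacter.sum_char_inv_mul_char_eq ℂ hy x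
    have h5 : ∑ χ : DirichletCharacter ℂ n, χ x * χ y⁻¹ =
        ∑ χ : DirichletCharacter ℂ n, χ y⁻¹ * χ x :=
      Finset.sum_congr rfl fun χ _ => mul_comm _ _
    rw [h5, h4]
    by_cases hxy : x = y
    · rw [if_pos hxy.symm, if_pos ⟨hxy, hxy ▸ hy⟩]
    · rw [if_neg (fun h => hxy h.symm), if_neg (fun h => hxy h.1)]
  · rw [if_neg (fun h : x = y ∧ IsUnit x => hy (h.1 ▸ h.2))]
    refine Finset.sum_eq_zero fun χ _ => ?_
    rw [χ.map_nonunit hy, map_zero, mul_zero]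

/-- the Bessel inequality -/
theorem bessel {p : ℕ} (hp : 0 < p) (a : ι → ℕ) (A : (ι → ℤ) → ℂ) :
    ∑ τ : (i : ι) → DirichletCharacter ℂ (p ^ a i), ‖∑ b ∈ box (pw p a), tch τ b * A b‖ ^ 2 ≤
      ((∏ i, pw p a i : ℕ) : ℝ) * ∑ b ∈ box (pw p a), ‖A b‖ ^ 2 := by
  classical
  have hne : ∀ i, NeZero (p ^ a i) := fun i => ⟨pow_ne_zero _ hp.ne'⟩
  -- orthogonality
  have horth : ∀ b ∈ box (pw p a), ∀ b' ∈ box (pw p a),
      ∑ τ : (i : ι) → DirichletCharacter ℂ (p ^ a i), tch τ b * (starRingEnd ℂ) (tch τ b') =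
        if b = b' then ((∏ i, if IsUnit ((b i : ℤ) : ZMod (p ^ a i)) then (p ^ a i).totient else 0 : ℕ) : ℂ)
        else 0 := by
    intro b hb b' hb'
    rw [mem_box] at hb hb'
    have e1 : ∀ τ : (i : ι) → DirichletCharacter ℂ (p ^ a i), tch τ b * (starRingEnd ℂ) (tch τ b') =
        ∏ i, (τ i ((b i : ℤ) : ZMod (p ^ a i)) *
          (starRingEnd ℂ) (τ i ((b' i : ℤ) : ZMod (p ^ a i)))) := by
      intro τ
      unfold tch
      rw [map_prod, ← Finset.prod_mul_distrib]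
    simp_rw [e1]
    have e2 := Finset.prod_univ_sum (fun i => (Finset.univ : Finset (DirichletCharacter ℂ (p ^ a i))))
      (fun i (χ : DirichletCharacter ℂ (p ^ a i)) => χ ((b i : ℤ) : ZMod (p ^ a i)) *
          (starRingEnd ℂ) (χ ((b' i : ℤ) : ZMod (p ^ a i))))
    rw [Fintype.piFinset_univ] at e2
    rw [← e2]
    simp_rw [orth_one]
    by_cases hbb : b = b'
    · subst hbb
      rw [if_pos rfl]
      push_cast
      refine Finset.prod_congr rfl fun i _ => ?_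
      simp only [true_and]
    · rw [if_neg hbb]
      obtain ⟨i, hi⟩ := Function.ne_iff.1 hbb
      refine Finset.prod_eq_zero (Finset.mem_univ i) ?_
      rw [if_neg]
      rintro ⟨h1, -⟩
      apply hi
      rw [← sub_eq_zero, ← Int.cast_sub, ZMod.intCast_zmod_eq_zero_iff_dvd] at h1
      have h2 := hb i
      have h3 := hb' i
      have h4 : |b i - b' i| < ((p ^ a i : ℕ) : ℤ) := by
        unfold pw at h2 h3
        rw [abs_lt]
        constructor <;> omega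
      have := Int.eq_zero_of_abs_lt_dvd h1 h4
      omega
  have h1 : ((∑ τ : (i : ι) → DirichletCharacter ℂ (p ^ a i),
      ‖∑ b ∈ box (pw p a), tch τ b * A b‖ ^ 2 : ℝ) : ℂ) =
      ∑ b ∈ box (pw p a), ((∏ i, if IsUnit ((b i : ℤ) : ZMod (p ^ a i)) then
        (p ^ a i).totient else 0 : ℕ) : ℂ) * (‖A b‖ ^ 2 : ℝ) := by
    push_cast
    have e1 : ∀ τ : (i : ι) → DirichletCharacter ℂ (p ^ a i),
        ((‖∑ b ∈ box (pw p a), tch τ b * A b‖ : ℝ) : ℂ) ^ 2 =
        ∑ b ∈ box (pw p a), ∑ b' ∈ box (pw p a), (tch τ b * (starRingEnd ℂ) (tch τ b')) *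
          (A b * (starRingEnd ℂ) (A b')) := by
      intro τ
      rw [← Complex.mul_conj', map_sum, Finset.sum_mul_sum]
      refine Finset.sum_congr rfl fun b _ => Finset.sum_congr rfl fun b' _ => ?_
      rw [map_mul]
      ring
    simp_rw [e1]
    rw [Finset.sum_comm]
    refine Finset.sum_congr rfl fun b hb => ?_
    rw [Finset.sum_comm]
    calc _ = ∑ b' ∈ box (pw p a), (if b = b' then ((∏ i, if IsUnit ((b i : ℤ) : ZMod (p ^ a i)) then
          (p ^ a i).totient else 0 : ℕ) : ℂ) else 0) * (A b * (starRingEnd ℂ) (A b')) := by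
          refine Finset.sum_congr rfl fun b' hb' => ?_
          rw [← Finset.sum_mul, horth b hb b' hb']
      _ = _ := by
          simp only [ite_mul, zero_mul]
          rw [Finset.sum_ite_eq, if_pos hb, Complex.mul_conj']
          push_cast
          rfl
  have h2 : ∑ τ : (i : ι) → DirichletCharacter ℂ (p ^ a i),
      ‖∑ b ∈ box (pw p a), tch τ b * A b‖ ^ 2 =
      ∑ b ∈ box (pw p a), ((∏ i, if IsUnit ((b i : ℤ) : ZMod (p ^ a i)) then
        (p ^ a i).totient else 0 : ℕ) : ℝ) * ‖A b‖ ^ 2 := by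
    apply Complex.ofReal_injective
    rw [h1, Complex.ofReal_sum]
    refine Finset.sum_congr rfl fun b _ => ?_
    rw [Complex.ofReal_mul, Complex.ofReal_natCast]
  rw [h2, Finset.mul_sum]
  refine Finset.sum_le_sum fun b _ => ?_
  refine mul_le_mul_of_nonneg_right ?_ (sq_nonneg _)
  have h3 : (∏ i, if IsUnit ((b i : ℤ) : ZMod (p ^ a i)) then (p ^ a i).totient else 0 : ℕ) ≤
      ∏ i, pw p a i := by
    refine Finset.prod_le_prod (fun _ _ => Nat.zero_le _) fun i _ => ?_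
    split_ifs
    · exact Nat.totient_le _
    · exact Nat.zero_le _
  exact_mod_cast h3

end Pool.Agent.J4H31.W
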