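import Pool.Agent.J4H31.W.W9
import Pool.Agent.J4H31.U.U15

/-!
Central values of Hecke L-functions and theta functions: uniform representatives; mean squares.
-/

set_option autoImplicit false
set_option linter.unusedSectionVars false

open NumberField Complex Filter Topology MeasureTheory Set
open NumberField.Units NumberField.Units.dirichletUnitTheorem
open Pool.Agent.Y773 (PP LI Reps FT cube el rp reps_rp rp_ne_bot Dd Dd_pos Dd_mem mm mm_pos mm_mem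
  mellin_conj entire_eq absNorm_span_nat volume_cube)
open Pool.Agent.Y773.G (exists_compl reps_compl absNorm_pos' span_m_ne_bot sum_el card_emb)

open Pool.Agent.Y767 (ph norm_ph)
open Pool.Agent.J4H31.U

namespace Pool.Agent.J4H31.W

section fe

variable {K : Type} [Field K] [NumberField K]

lemma mellin_int {f : ℝ → ℂ} (hf : MellinConvergent f (1 / 2 : ℂ)) :
    IntegrableOn (fun t => ‖f t‖ * t ^ (-(1 / 2) : ℝ)) (Ioi 0) := by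
  have h1 : IntegrableOn (fun t : ℝ => ‖(t : ℂ) ^ ((1 / 2 : ℂ) - 1) • f t‖) (Ioi 0) := hf.norm
  refine h1.congr_fun (fun t ht => ?_) measurableSet_Ioi
  simp only
  rw [norm_smul, Complex.norm_cpow_eq_rpow_re_of_pos ht]
  have : ((1 / 2 : ℂ) - 1).re = -(1 / 2) := by norm_num
  rw [this, mul_comm]

/-- **The central values of the Hecke L-functions, in terms of the theta functions** -/
theorem fe_boundW (K : Type) [Field K] [NumberField K] : ∃ C : ℝ, 0 < C ∧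
    ∀ {𝔣 : Ideal (𝓞 K)}, 𝔣 ≠ ⊥ → ∃ (𝔟 𝔟' : ClassGroup (𝓞 K) → Ideal (𝓞 K)),
    (∀ c, 𝔟 c ≠ ⊥) ∧ (∀ c, 𝔟' c ≠ ⊥) ∧
    ∀ {ψ : Ideal (𝓞 K) →*₀ ℂ} {σ : InfinitePlace K → (K →+* ℂ)}
    {e : InfinitePlace K → ℕ} {ν : InfinitePlace K → ℝ} (_ : Sel σ) (_ : Ex e)
    (_ : ∑ w, ν w = 0) (_ : PrimK 𝔣 (kp σ e ν) ψ) (_ : IsModK 𝔣 (kp σ e ν) ψ),
    IntegrableOn (fun t => ‖Ftx ψ σ e ν 𝔟 t‖ * t ^ (-(1 / 2) : ℝ)) (Ioi 0) ∧
    IntegrableOn (fun t => ‖Ftx ψ σ e ν 𝔟' t‖ * t ^ (-(1 / 2) : ℝ)) (Ioi 0) ∧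
    ∃ F : ℂ → ℂ, Differentiable ℂ F ∧ (∀ s : ℂ, 1 < s.re → F s = LI ψ s) ∧
      ∀ (R : ℝ), R = (((Ideal.absNorm 𝔣 * Ideal.absNorm (differentIdeal ℤ (𝓞 K)) : ℕ) : ℝ)) →
      ∀ s : ℂ, s.re = 1 / 2 → ‖F s‖ ≤ C * ‖(GKi e ν s : ℂ)‖ *
        ((∫ t in Ioi (R ^ (-(1 / 2) : ℝ)), ‖Ftx ψ σ e ν 𝔟 t‖ * t ^ (-(1 / 2) : ℝ)) +
          ∫ t in Ioi (R ^ (-(1 / 2) : ℝ)), ‖Ftx ψ σ e ν 𝔟' t‖ * t ^ (-(1 / 2) : ℝ)) := by
  classical
  have h𝔡 : differentIdeal ℤ (𝓞 K) ≠ ⊥ := differentIdeal_ne_bot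
  obtain ⟨V, hV, hfe⟩ := fam_fex K
  obtain ⟨C, hC, hmel⟩ := mellin_Ftx K
  refine ⟨C⁻¹, inv_pos.2 hC, ?_⟩
  intro 𝔣 h𝔣
  have hD0 : 0 < Dd K := Dd_pos
  set m := mm (rp K) 𝔣 with hm
  set D := Dd K with hD
  have hm0 : 0 < m := mm_pos rp_ne_bot h𝔣
  choose 𝔟' h𝔟' using fun c => exists_compl (𝔣 := 𝔣) (𝔟 := rp K c) (m := m) (D := D)
    (mm_mem _ _ c) Dd_mem
  have hR' : Reps 𝔟' := reps_compl h𝔣 reps_rp (Nat.mul_pos hm0 hD0) h𝔟'
  refine ⟨rp K, 𝔟', rp_ne_bot, hR'.ne_bot, ?_⟩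
  intro ψ σ e ν hσ he hν hp h
  obtain ⟨τ, hτ⟩ := gauss_maink 𝔣 ψ (kp σ e ν) hp h
  -- the constant term
  have hz : ∀ 𝔟 : ClassGroup (𝓞 K) → Ideal (𝓞 K), Reps 𝔟 →
      ∀ c, FT (Dd K) (mm 𝔟 𝔣) (Pk ψ (kp σ e ν) (𝔟 c)) 0 = 0 := by
    intro 𝔟 h𝔟 c
    obtain ⟨𝔟'', h𝔟''⟩ := exists_compl (𝔣 := 𝔣) (𝔟 := 𝔟 c) (m := mm 𝔟 𝔣) (D := Dd K)
      (mm_mem _ _ c) Dd_mem
    rw [← hD, hτ (𝔟 c) 𝔟'' (mm 𝔟 𝔣) D (mm_pos h𝔟.ne_bot h.ne_bot) hD0 h𝔟'' (mm_mem _ _ c) Dd_mem]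
    have h5 : 𝔟'' ≠ ⊥ := by
      rintro rfl
      rw [Ideal.bot_mul] at h𝔟''
      exact span_m_ne_bot (Nat.mul_pos (mm_pos h𝔟.ne_bot h.ne_bot) hD0) h𝔟''.symm
    rw [Pk_zero h5, map_zero, mul_zero]
  have hN : ∀ c, NiceX σ e ν (Pk ψ (kp σ e ν) (rp K c)) := fun c => h.nice hσ he hν (rp_ne_bot c)
  obtain ⟨h1, h2, h3, h3'⟩ := hfe (rp K) reps_rp σ e ν ψ hN m D hm0
    hD0 Dd_mem (fun c => h.per_m (rp_ne_bot c) (mm_mem _ _ c)) (hz _ reps_rp)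
  have hN' : ∀ c, NiceX σ e ν (Pk ψ (kp σ e ν) (𝔟' c)) := fun c => h.nice hσ he hν (hR'.ne_bot c)
  set R : ℝ := ((Ideal.absNorm 𝔣 * Ideal.absNorm (differentIdeal ℤ (𝓞 K)) : ℕ) : ℝ) with hRdef
  have hR1 : 1 ≤ R := by
    rw [hRdef]
    have h4 : Ideal.absNorm 𝔣 * Ideal.absNorm (differentIdeal ℤ (𝓞 K)) ≠ 0 :=
      mul_ne_zero (fun h1 => h.ne_bot (Ideal.absNorm_eq_zero_iff.mp h1))
        (fun h1 => h𝔡 (Ideal.absNorm_eq_zero_iff.mp h1))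
    exact_mod_cast Nat.one_le_iff_ne_zero.mpr h4
  have hR0 : 0 < R := by linarith
  have hRc : (R : ℂ) ≠ 0 := by exact_mod_cast hR0.ne'
  set M := mellin (Ftx ψ σ e ν (rp K)) with hM
  -- the mellin transform for the complementary representatives
  obtain ⟨h1', hdM', -⟩ := hfe 𝔟' hR' σ e ν ψ hN' (mm 𝔟' 𝔣) D (mm_pos hR'.ne_bot h.ne_bot) hD0
    Dd_mem (fun c => h.per_m (hR'.ne_bot c) (mm_mem _ _ c)) (hz _ hR')
  have hMM : mellin (Ftx ψ σ e ν 𝔟') = M := by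
    refine entire_eq hdM' h2 fun s hs => ?_
    rw [hM, (hmel 𝔟' hR' σ e ν ψ h.norm_le_one hN' s hs).2,
      (hmel (rp K) reps_rp σ e ν ψ h.norm_le_one hN s hs).2]
  -- the functional equation
  set κ : ℂ := ((V⁻¹ : ℝ) : ℂ) * ((m : ℂ) ^ (Module.finrank ℚ K))⁻¹ * (-I) ^ (∑ w, e w) with hκ
  set A : ℂ := τ * ((m : ℂ) ^ (Module.finrank ℚ K) / (Ideal.absNorm 𝔣 : ℂ)) with hA
  have hGt : ∀ t : ℝ, Gtx ψ σ e ν (rp K) m D t = A * (starRingEnd ℂ) (Ftx ψ σ e ν 𝔟' (R⁻¹ * t)) :=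
    fun t => Gtx_eq hσ h.ne_bot reps_rp hR' h𝔟' (fun c x => hτ (rp K c) (𝔟' c) m D hm0 hD0 (h𝔟' c)
        (mm_mem _ _ c) Dd_mem x) t
  have hG : ∀ s, mellin (Gtx ψ σ e ν (rp K) m D) s =
      A * ((R : ℂ) ^ s * (starRingEnd ℂ) (M ((starRingEnd ℂ) s))) := by
    intro s
    have h5 : Gtx ψ σ e ν (rp K) m D = fun t => A • (starRingEnd ℂ) (Ftx ψ σ e ν 𝔟' (R⁻¹ * t)) := by
      funext t
      rw [smul_eq_mul]
      exact hGt t
    rw [h5, mellin_const_smul, smul_eq_mul, mellin_conj (fun t => Ftx ψ σ e ν 𝔟' (R⁻¹ * t)),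
      mellin_comp_mul_left _ _ (inv_pos.mpr hR0), hMM, smul_eq_mul, map_mul]
    congr 2
    have h6 : (((R⁻¹ : ℝ) : ℂ)) ^ (-(starRingEnd ℂ) s) = (R : ℂ) ^ ((starRingEnd ℂ) s) := by
      rw [Complex.cpow_def_of_ne_zero (by exact_mod_cast (inv_pos.mpr hR0).ne'),
        ← Complex.ofReal_log (inv_pos.mpr hR0).le, Real.log_inv,
        Complex.cpow_def_of_ne_zero hRc, ← Complex.ofReal_log hR0.le]
      congr 1
      push_cast
      ring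
    rw [h6]
    have h7 : ((R : ℝ) : ℂ).arg ≠ Real.pi := by
      rw [Complex.arg_ofReal_of_nonneg hR0.le]
      exact Real.pi_ne_zero.symm
    have h8 := Complex.conj_cpow (R : ℂ) s h7
    rw [Complex.conj_ofReal] at h8
    exact h8.symm
  set L : ℂ → ℂ := fun s => (R : ℂ) ^ (s / 2) * M s with hL
  set w : ℂ := κ * A * (R : ℂ) ^ (1 / 2 : ℂ) with hw
  have hconjR : ∀ z : ℂ, (starRingEnd ℂ) ((R : ℂ) ^ z) = (R : ℂ) ^ ((starRingEnd ℂ) z) := by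
    intro z
    have h7 : ((R : ℝ) : ℂ).arg ≠ Real.pi := by
      rw [Complex.arg_ofReal_of_nonneg hR0.le]
      exact Real.pi_ne_zero.symm
    have h8 := Complex.conj_cpow (R : ℂ) ((starRingEnd ℂ) z) h7
    rw [Complex.conj_ofReal, Complex.conj_conj] at h8
    exact h8.symm
  have hLfe : ∀ s, L s = w * (starRingEnd ℂ) (L (1 - (starRingEnd ℂ) s)) := by
    intro s
    have h5 := h3 (1 - s)
    rw [sub_sub_cancel, hG, map_sub, map_one] at h5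
    rw [hL]
    simp only
    rw [h5, map_mul, hconjR, hw]
    have h6 : (starRingEnd ℂ) ((1 - (starRingEnd ℂ) s) / 2) = (1 - s) / 2 := by
      have h20 : (starRingEnd ℂ) (2 : ℂ) = 2 := map_ofNat (starRingEnd ℂ) 2
      rw [map_div₀, map_sub, map_one, Complex.conj_conj, h20]
    rw [h6]
    have h7 : (R : ℂ) ^ (s / 2) * (R : ℂ) ^ (1 - s) = (R : ℂ) ^ (1 / 2 : ℂ) * (R : ℂ) ^ ((1 - s) / 2) := by
      rw [← Complex.cpow_add _ _ hRc, ← Complex.cpow_add _ _ hRc]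
      congr 1
      ring
    linear_combination (κ * A * (starRingEnd ℂ) (M (1 - (starRingEnd ℂ) s))) * h7
  have hL2 : L 2 ≠ 0 := by
    rw [hL]
    simp only
    have h5 : (1 : ℝ) < (2 : ℂ).re := by norm_num
    rw [hM, (hmel (rp K) reps_rp σ e ν ψ h.norm_le_one hN 2 h5).2]
    obtain ⟨A', -, hd⟩ := Pool.Agent.Y772.DK.t_dirK K
    have h6 := (hd ψ h.norm_le_one).2.2.1 2 h5
    refine mul_ne_zero ?_ (mul_ne_zero (by exact_mod_cast hC.ne')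
      (mul_ne_zero (GK_ne_zero e ν (by norm_num)) h6))
    rw [Ne, Complex.cpow_eq_zero_iff]
    exact fun h => hRc h.1
  have hw1 : ‖w‖ = 1 := by
    have h5 := hLfe 2
    have h6 := hLfe (1 - (starRingEnd ℂ) 2)
    rw [h6, map_mul] at h5
    have h7 : 1 - (starRingEnd ℂ) (1 - (starRingEnd ℂ) (2 : ℂ)) = 2 := by
      rw [map_sub, map_one, Complex.conj_conj]
      ring
    rw [h7, Complex.conj_conj] at h5
    have h8 : w * (starRingEnd ℂ) w = 1 := by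
      have : (w * (starRingEnd ℂ) w) * L 2 = 1 * L 2 := by linear_combination -h5
      exact mul_right_cancel₀ hL2 this
    rw [Complex.mul_conj, Complex.normSq_eq_norm_sq] at h8
    have h9 : ‖w‖ ^ 2 = 1 := by exact_mod_cast h8
    have := norm_nonneg w
    nlinarith
  have hC' : (C : ℂ) ≠ 0 := by exact_mod_cast hC.ne'
  refine ⟨mellin_int (h1 _), mellin_int (h1' _), fun s => (C : ℂ)⁻¹ * (M s * GKi e ν s),
    (h2.mul (differentiable_GKi e ν)).const_mul _, ?_, ?_⟩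
  · intro s hs
    simp only
    rw [hM, (hmel (rp K) reps_rp σ e ν ψ h.norm_le_one hN s hs).2]
    have h3 := GK_mul_GKi e ν (K := K) (s := s) (by linarith)
    calc (C : ℂ)⁻¹ * (C * (GK e ν s * LI ψ s) * GKi e ν s) =
          ((C : ℂ)⁻¹ * C) * ((GK e ν s * GKi e ν s) * LI ψ s) := by ring
      _ = LI ψ s := by rw [h3, inv_mul_cancel₀ hC', one_mul, one_mul]
  · intro R' hR'' s hs
    have hRR : R' = R := hR''
    rw [hRR]
    have hκA : ‖κ‖ * ‖A‖ = R ^ (-(1 / 2) : ℝ) := by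
      rw [hw, norm_mul, norm_mul, Complex.norm_cpow_eq_rpow_re_of_pos hR0] at hw1
      have e1 : ((1 / 2 : ℂ)).re = 1 / 2 := by norm_num
      rw [e1] at hw1
      have e2 : R ^ (1 / 2 : ℝ) * R ^ (-(1 / 2) : ℝ) = 1 := by
        rw [← Real.rpow_add hR0]; norm_num
      calc ‖κ‖ * ‖A‖ = ‖κ‖ * ‖A‖ * (R ^ (1 / 2 : ℝ) * R ^ (-(1 / 2) : ℝ)) := by rw [e2, mul_one]
        _ = (‖κ‖ * ‖A‖ * R ^ (1 / 2 : ℝ)) * R ^ (-(1 / 2) : ℝ) := by ring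
        _ = _ := by rw [hw1, one_mul]
    have hfold : ∀ t : ℝ, 0 < t → ‖Ftx ψ σ e ν (rp K) (1 / t)‖ =
        R ^ (-(1 / 2) : ℝ) * t * ‖Ftx ψ σ e ν 𝔟' (R⁻¹ * t)‖ := by
      intro t ht
      have h9 : Ftx ψ σ e ν (rp K) (1 / t) = κ * t * Gtx ψ σ e ν (rp K) m D t := h3' t ht
      rw [h9, norm_mul, norm_mul, hGt, norm_mul A, Complex.norm_conj,
        Complex.norm_real, Real.norm_of_nonneg ht.le, ← hκA]
      ring
    have h5 := half_bound hR0 hs (h1 s) hfold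
    rw [norm_mul, norm_mul, norm_inv, Complex.norm_real, Real.norm_of_nonneg hC.le]
    calc C⁻¹ * (‖M s‖ * ‖(GKi e ν s : ℂ)‖) =
          C⁻¹ * ‖(GKi e ν s : ℂ)‖ * ‖M s‖ := by ring
      _ ≤ _ := by
          refine mul_le_mul_of_nonneg_left h5 ?_
          have := inv_pos.2 hC
          positivity

end fe

/-! ### duality -/

lemma dual_le {D Z : ℝ} (hD : 0 ≤ D) (_hZ : 0 ≤ Z) (h : D ≤ Real.sqrt D * Z) : D ≤ Z ^ 2 := by
  rcases hD.eq_or_lt with h0 | h0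
  · rw [← h0]; positivity
  · have hs0 : 0 < Real.sqrt D := Real.sqrt_pos.2 h0
    have h5 : Real.sqrt D ≤ Z := by
      refine le_of_mul_le_mul_left ?_ hs0
      rw [Real.mul_self_sqrt hD]
      exact h
    calc D = Real.sqrt D ^ 2 := (Real.sq_sqrt hD).symm
      _ ≤ _ := pow_le_pow_left₀ hs0.le h5 2

/-- mean squares of integrals over the cube -/
lemma cube_ms {r : ℕ} {J : Type} [Fintype J] {f : J → (Fin r → ℝ) → ℂ} (hf : ∀ j, Continuous (f j))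
    {X : ℝ} (hX : ∀ θ, ∑ j, ‖f j θ‖ ^ 2 ≤ X) :
    ∑ j, ‖∫ θ in Icc (0 : Fin r → ℝ) 1, f j θ‖ ^ 2 ≤ X := by
  have hX0 : 0 ≤ X := (Finset.sum_nonneg fun _ _ => sq_nonneg _).trans (hX 0)
  set Y : J → ℂ := fun j => ∫ θ in Icc (0 : Fin r → ℝ) 1, f j θ with hY
  have hD0 : 0 ≤ ∑ j, ‖Y j‖ ^ 2 := Finset.sum_nonneg fun _ _ => sq_nonneg _
  have h0 : ∑ j, ‖Y j‖ ^ 2 ≤ Real.sqrt X ^ 2 := by
    refine dual_le hD0 (Real.sqrt_nonneg X) ?_
    have e1 : ((∑ j, ‖Y j‖ ^ 2 : ℝ) : ℂ) =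
        ∫ θ in Icc (0 : Fin r → ℝ) 1, ∑ j, (starRingEnd ℂ) (Y j) * f j θ := by
      rw [integral_finsetSum _ fun j _ => ?_]
      · push_cast
        refine Finset.sum_congr rfl fun j _ => ?_
        rw [integral_const_mul, ← Complex.conj_mul']
      · exact ((hf j).continuousOn.integrableOn_compact isCompact_Icc).const_mul _
    have h1 : ‖((∑ j, ‖Y j‖ ^ 2 : ℝ) : ℂ)‖ ≤ Real.sqrt (∑ j, ‖Y j‖ ^ 2) * Real.sqrt X := by
      rw [e1]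
      have h6 := norm_setIntegral_le_of_norm_le_const (μ := volume)
        (s := Icc (0 : Fin r → ℝ) 1) (f := fun θ => ∑ j, (starRingEnd ℂ) (Y j) * f j θ)
        (C := Real.sqrt (∑ j, ‖Y j‖ ^ 2) * Real.sqrt X)
        (by rw [volume_cube]; exact ENNReal.one_lt_top) (fun θ _ => by
          refine le_of_sq_le_sq ?_ (by positivity)
          refine (norm_sum_mul_sq_le _ _).trans ?_
          rw [mul_pow, Real.sq_sqrt hD0, Real.sq_sqrt hX0]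
          simp_rw [Complex.norm_conj]
          exact mul_le_mul_of_nonneg_left (hX θ) hD0)
      refine h6.trans (le_of_eq ?_)
      rw [Measure.real, volume_cube]
      simp
    rwa [Complex.norm_real, Real.norm_of_nonneg hD0] at h1
  rwa [Real.sq_sqrt hX0] at h0

/-- mean squares of the folded integrals -/
lemma int_ms {J : Type} [Fintype J] {f : J → ℝ → ℂ} {R A B : ℝ} (hR : 1 ≤ R) (hA : 0 ≤ A)
    (_hB : 0 ≤ B)
    (hi : ∀ j, IntegrableOn (fun t => ‖f j t‖ * t ^ (-(1 / 2) : ℝ)) (Ioi 0))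
    (h1 : ∀ t : ℝ, 0 < t → ∑ j, ‖f j t‖ ^ 2 ≤ (A / t) ^ 2)
    (h2 : ∀ t : ℝ, R ^ (-(1 / 2) : ℝ) < t → ∑ j, ‖f j t‖ ^ 2 ≤ B / t) :
    ∑ j, (∫ t in Ioi (R ^ (-(1 / 2) : ℝ)), ‖f j t‖ * t ^ (-(1 / 2) : ℝ)) ^ 2 ≤
      (2 * A + Real.sqrt B * Real.log R) ^ 2 := by
  have hR0 : 0 < R := by linarith
  set t0 : ℝ := R ^ (-(1 / 2) : ℝ) with ht0
  have ht00 : 0 < t0 := Real.rpow_pos_of_pos hR0 _
  set Y : J → ℝ := fun j => ∫ t in Ioi t0, ‖f j t‖ * t ^ (-(1 / 2) : ℝ) with hY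
  have hY0 : ∀ j, 0 ≤ Y j := fun j => setIntegral_nonneg measurableSet_Ioi fun t ht => by
    have : 0 < t := lt_trans ht00 ht
    positivity
  set D : ℝ := ∑ j, Y j ^ 2 with hD
  have hD0 : 0 ≤ D := Finset.sum_nonneg fun _ _ => sq_nonneg _
  set Z : ℝ := 2 * A + Real.sqrt B * Real.log R with hZ
  have hZ0 : 0 ≤ Z := by
    have := Real.log_nonneg hR
    positivity
  refine dual_le hD0 hZ0 ?_
  rcases hD0.eq_or_lt with hD1 | hD1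
  · rw [← hD1, Real.sqrt_zero, zero_mul]
  have hs0 : 0 < Real.sqrt D := Real.sqrt_pos.2 hD1
  set g : ℝ → ℂ := fun t => ((∑ j, Y j / Real.sqrt D * ‖f j t‖ : ℝ) : ℂ) with hg
  have hgn : ∀ t, ‖g t‖ = ∑ j, Y j / Real.sqrt D * ‖f j t‖ := by
    intro t
    simp only [hg]
    rw [Complex.norm_real, Real.norm_of_nonneg]
    exact Finset.sum_nonneg fun j _ => mul_nonneg (div_nonneg (hY0 j) hs0.le) (norm_nonneg _)
  have hgs : ∀ t, ‖g t‖ ^ 2 ≤ ∑ j, ‖f j t‖ ^ 2 := by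
    intro t
    rw [hgn]
    refine (Finset.sum_mul_sq_le_sq_mul_sq _ _ _).trans (le_of_eq ?_)
    have e1 : ∑ j, (Y j / Real.sqrt D) ^ 2 = 1 := by
      simp_rw [div_pow, Real.sq_sqrt hD0]
      rw [← Finset.sum_div, ← hD, div_self hD1.ne']
    rw [e1, one_mul]
  have h3 : ∫ t in Ioi t0, ‖g t‖ * t ^ (-(1 / 2) : ℝ) ≤ Z := by
    refine int_bound hR (fun t ht => ?_) (fun t ht => (hgs t).trans (h2 t ht))
    exact le_of_sq_le_sq ((hgs t).trans (h1 t ht)) (by positivity)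
  have hi' : ∀ j, IntegrableOn (fun t => ‖f j t‖ * t ^ (-(1 / 2) : ℝ)) (Ioi t0) := fun j =>
    (hi j).mono_set (Ioi_subset_Ioi ht00.le)
  have h4 : ∫ t in Ioi t0, ‖g t‖ * t ^ (-(1 / 2) : ℝ) = D / Real.sqrt D := by
    have e1 : ∀ t, ‖g t‖ * t ^ (-(1 / 2) : ℝ) =
        ∑ j, Y j / Real.sqrt D * (‖f j t‖ * t ^ (-(1 / 2) : ℝ)) := by
      intro t
      rw [hgn, Finset.sum_mul]
      exact Finset.sum_congr rfl fun j _ => by ring
    simp_rw [e1]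
    rw [integral_finsetSum _ fun j _ => (hi' j).const_mul _]
    simp_rw [integral_const_mul]
    rw [hD, Finset.sum_div]
    refine Finset.sum_congr rfl fun j _ => ?_
    simp only [hY]
    ring
  rw [h4] at h3
  rw [div_le_iff₀ hs0] at h3
  linarith

end Pool.Agent.J4H31.W
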