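import Pool.Agent.J4H31.W.W10

/-!
The mean square of the central values over a coset of Hecke characters.
-/

set_option autoImplicit false
set_option linter.unusedSectionVars false

open NumberField Complex Filter Topology MeasureTheory Set
open NumberField.Units NumberField.Units.dirichletUnitTheorem
open Pool.Agent.Y773 (PP el LI entire_eq)
open Pool.Agent.Y773.G (sum_el card_emb)
open Pool.Agent.Y767 (ph norm_ph)
open Pool.Agent.J4H31.U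

namespace Pool.Agent.J4H31.W

/-- the number of members of a coset -/
lemma card_cosW {K : Type} [Field K] [NumberField K] {ι : Type} [Fintype ι] [DecidableEq ι]
    {p : ℕ} {𝔭 : ι → Ideal (𝓞 K)} {κ : ι → ℕ} (h : Sup p 𝔭 κ) {𝔠 : Ideal (𝓞 K)}
    (hcop : IsCoprime 𝔠 (∏ j, 𝔭 j ^ κ j)) {a : ι → ℕ} (ha : ∀ i, a i ≤ κ i)
    {J : Type} [Fintype J] {α : J → K → ℂ} {η : J → Ideal (𝓞 K) →*₀ ℂ}
    (hC : Cos (𝔠 * ∏ j, 𝔭 j ^ κ j) (∏ j, 𝔭 j ^ a j) α η) {m : ℕ} (hm : Mult α η m) :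
    (Fintype.card J : ℝ) ≤ m * (p : ℝ) ^ (∑ i, a i) := by
  classical
  have hm0 : (0 : ℝ) ≤ m := Nat.cast_nonneg _
  rcases isEmpty_or_nonempty J with hJ | ⟨⟨j0⟩⟩
  · rw [Fintype.card_eq_zero]
    push_cast
    positivity
  obtain ⟨u, v, hs⟩ := exists_splW h hcop
  obtain ⟨χ, T, -, -, hTf⟩ := cos_tau h hcop ha hs hC j0
  have hne : ∀ i, NeZero (p ^ a i) := fun i => ⟨pow_ne_zero _ h.hp.ne_zero⟩
  have h1 := sum_fib_le T (m := m) (fun τ => hm _ fun j hj j' hj' x => hTf j j' (by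
    rw [(Finset.mem_filter.1 hj).2, (Finset.mem_filter.1 hj').2]) x)
    (f := fun _ => (1 : ℝ)) fun _ => zero_le_one
  rw [Finset.sum_const, Finset.card_univ, nsmul_eq_mul, mul_one, Finset.sum_const,
    Finset.card_univ, nsmul_eq_mul, mul_one] at h1
  refine h1.trans ?_
  refine mul_le_mul_of_nonneg_left ?_ hm0
  rw [Fintype.card_pi]
  push_cast
  rw [← Finset.prod_pow_eq_pow_sum]
  refine Finset.prod_le_prod (fun _ _ => Nat.cast_nonneg _) fun i _ => ?_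
  exact_mod_cast card_char_le (pow_pos h.hp.pos (a i))

/-- Cauchy's inequality for a finite sum -/
lemma norm_sum_sq_le {I : Type} [Fintype I] (a : I → ℂ) :
    ‖∑ i, a i‖ ^ 2 ≤ Fintype.card I * ∑ i, ‖a i‖ ^ 2 := by
  have h1 := norm_sum_mul_sq_le (fun _ : I => (1 : ℂ)) a
  simp only [one_mul, norm_one, one_pow, Finset.sum_const, Finset.card_univ, nsmul_eq_mul,
    mul_one] at h1
  exact h1

/-- the mean square of the total functions -/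
lemma Ftx_ms {K : Type} [Field K] [NumberField K] {J : Type} [Fintype J]
    {σ : InfinitePlace K → (K →+* ℂ)} {e : InfinitePlace K → ℕ} {ν : J → InfinitePlace K → ℝ}
    {ψ : J → Ideal (𝓞 K) →*₀ ℂ} {𝔪 : Ideal (𝓞 K)} (hM : ∀ j, IsModK 𝔪 (kp σ e (ν j)) (ψ j))
    {𝔞 : ClassGroup (𝓞 K) → Ideal (𝓞 K)} {v X : ℝ}
    (hbX : ∀ c, ∀ θ : Fin (rank K) → ℝ, ∑ j, ‖tt σ e (Pk (ψ j) (kp σ e (ν j)) (𝔞 c))
      (el K ((2 / Module.finrank ℚ K) *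
        Real.log ((Ideal.absNorm (𝔞 c) : ℝ)⁻¹ * v), θ))‖ ^ 2 ≤ X) :
    ∑ j, ‖Ftx (ψ j) σ e (ν j) 𝔞 v‖ ^ 2 ≤ (Fintype.card (ClassGroup (𝓞 K)) : ℝ) ^ 2 * X := by
  have h1 : ∀ c, ∑ j, ‖hX σ e (ν j) (Pk (ψ j) (kp σ e (ν j)) (𝔞 c))
      ((Ideal.absNorm (𝔞 c) : ℝ)⁻¹ * v)‖ ^ 2 ≤ X := by
    intro c
    simp_rw [hX_eq]
    refine cube_ms (fun j => ?_) fun θ => ?_
    · have h3 : Continuous (el K) := (el K).continuous_of_finiteDimensional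
      exact (continuous_tq σ e (ν j) (norm_Pk_le (hM j).kap (hM j).norm_le_one (𝔞 c))).comp
        (h3.comp (by fun_prop))
    · refine le_trans (le_of_eq ?_) (hbX c θ)
      refine Finset.sum_congr rfl fun j _ => ?_
      unfold tq
      rw [norm_mul, norm_ph, mul_one]
  calc _ ≤ ∑ j, (Fintype.card (ClassGroup (𝓞 K)) : ℝ) *
        ∑ c, ‖hX σ e (ν j) (Pk (ψ j) (kp σ e (ν j)) (𝔞 c))
          ((Ideal.absNorm (𝔞 c) : ℝ)⁻¹ * v)‖ ^ 2 := Finset.sum_le_sum fun j _ => norm_sum_sq_le _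
    _ = (Fintype.card (ClassGroup (𝓞 K)) : ℝ) *
        ∑ c, ∑ j, ‖hX σ e (ν j) (Pk (ψ j) (kp σ e (ν j)) (𝔞 c))
          ((Ideal.absNorm (𝔞 c) : ℝ)⁻¹ * v)‖ ^ 2 := by
        rw [← Finset.mul_sum, Finset.sum_comm]
    _ ≤ (Fintype.card (ClassGroup (𝓞 K)) : ℝ) * ∑ _c : ClassGroup (𝓞 K), X := by
        refine mul_le_mul_of_nonneg_left (Finset.sum_le_sum fun c _ => h1 c) (Nat.cast_nonneg _)
    _ = _ := by
        rw [Finset.sum_const, Finset.card_univ, nsmul_eq_mul]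
        ring

/-- the mean square, with conditions on the exponents -/
theorem mean0 (K : Type) [Field K] [NumberField K] (M : ℕ) (V T : ℝ) :
    ∃ C : ℝ, 0 < C ∧ ∀ (p : ℕ) (𝔭 : (K →+* ℂ) → Ideal (𝓞 K)) (κ : (K →+* ℂ) → ℕ),
      Sup p 𝔭 κ → 7 ≤ p → ∀ (𝔠 : Ideal (𝓞 K)), 𝔠 ≠ ⊥ → IsCoprime 𝔠 (∏ j, 𝔭 j ^ κ j) →
      ∀ k : ℕ, 1 ≤ k → (∀ i, κ i ≤ k) → ∀ a : (K →+* ℂ) → ℕ,
      (∀ i, a i ≤ κ i ∧ (κ i ≤ 2 * a i ∨ 30 ≤ κ i ∧ 19 * κ i ≤ 58 * a i)) →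
      ∀ (σ : InfinitePlace K → (K →+* ℂ)), Sel σ → ∀ (e : InfinitePlace K → ℕ), Ex e →
      (∀ w, e w ≤ M) → ∀ (J : Type) [Fintype J] (ν : J → InfinitePlace K → ℝ)
      (ψ : J → Ideal (𝓞 K) →*₀ ℂ) (m : ℕ), (∀ j w, |ν j w| ≤ V) → (∀ j, ∑ w, ν j w = 0) →
      Cos (𝔠 * ∏ j, 𝔭 j ^ κ j) (∏ j, 𝔭 j ^ a j) (fun j => kp σ e (ν j)) ψ →
      Mult (fun j => kp σ e (ν j)) ψ m →
      ∀ F : J → ℂ → ℂ, (∀ j, Differentiable ℂ (F j)) →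
      (∀ j, ∀ s : ℂ, 1 < s.re → F j s = LI (ψ j) s) →
      ∀ t : ℝ, |t| ≤ T → ∑ j, ‖F j (1 / 2 + t * I)‖ ^ 2 ≤
        C * m * (Ideal.absNorm 𝔠 : ℝ) ^ 4 * ((p : ℝ) * k) ^ (77 * Module.finrank ℚ K) *
          (p : ℝ) ^ (∑ i, a i) := by
  classical
  have h𝔡 : differentIdeal ℤ (𝓞 K) ≠ ⊥ := differentIdeal_ne_bot
  set Δ : ℝ := (Ideal.absNorm (differentIdeal ℤ (𝓞 K)) : ℝ) with hΔ
  have hΔ1 : 1 ≤ Δ := by
    have h0 : Ideal.absNorm (differentIdeal ℤ (𝓞 K)) ≠ 0 := fun h => h𝔡 (Ideal.absNorm_eq_zero_iff.1 h)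
    have h1 : 1 ≤ Ideal.absNorm (differentIdeal ℤ (𝓞 K)) := Nat.one_le_iff_ne_zero.2 h0
    rw [hΔ]
    exact_mod_cast h1
  obtain ⟨H, hH1, hH⟩ := ls_bound K M
  obtain ⟨C1, hC1, hth⟩ := tt_msbound K hΔ1 hH1
  obtain ⟨C2, hC2, hfe⟩ := fe_boundW K
  obtain ⟨G, hG1, hG⟩ := gam_boundX M (2 * T + V)
  set r : ℕ := Fintype.card (InfinitePlace K) with hr
  set n := Fintype.card (K →+* ℂ) with hn
  have hn1 : 1 ≤ n := Fintype.card_pos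
  set h : ℝ := (Fintype.card (ClassGroup (𝓞 K)) : ℝ) with hh
  have hh0 : 0 ≤ h := Nat.cast_nonneg _
  have hdK := dKX_pos (K := K)
  have hCB := CBX_nonneg (K := K)
  set A : ℝ := h * (H * (CBX K * 2 ^ n) / dKX K) with hA
  have hA0 : 0 ≤ A := by positivity
  refine ⟨(C2 * (2 * G) ^ r) ^ 2 * (4 * (8 * A ^ 2 + 2 * h ^ 2 * C1 * ((2 + n) * Δ) ^ 2)) + 1,
    by positivity, ?_⟩
  intro p 𝔭 κ hd hp7 𝔠 h𝔠 hcop k hk hκk a ha σ hσ e he heM J _ ν ψ m hνV hν hC hmult F hF hFL t ht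
  obtain ⟨hCH, hCW⟩ := hH σ e heM
  have hnf : Module.finrank ℚ K = n := hd.card.symm
  rw [hnf]
  have hp0 : (0 : ℝ) < p := by exact_mod_cast hd.hp.pos
  have hp1 : (1 : ℝ) ≤ p := by exact_mod_cast hd.hp.one_le
  have hk1 : (1 : ℝ) ≤ k := by exact_mod_cast hk
  have hpk1 : (1 : ℝ) ≤ (p : ℝ) * k := by nlinarith
  have hm0 : (0 : ℝ) ≤ m := Nat.cast_nonneg _
  have hN𝔠' : 1 ≤ Ideal.absNorm 𝔠 := Nat.one_le_iff_ne_zero.2
    fun h => h𝔠 (Ideal.absNorm_eq_zero_iff.1 h)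
  have hN𝔠 : (1 : ℝ) ≤ Ideal.absNorm 𝔠 := by exact_mod_cast hN𝔠'
  set Nc : ℝ := (Ideal.absNorm 𝔠 : ℝ) with hNc
  have hnp : Ideal.absNorm (∏ j, 𝔭 j ^ κ j) = p ^ (∑ i, κ i) := by
    rw [map_prod, Finset.prod_congr rfl fun i _ => hd.norm_pow (i := i) le_rfl,
      Finset.prod_pow_eq_pow_sum]
  have h𝔣 : 𝔠 * ∏ j, 𝔭 j ^ κ j ≠ ⊥ := mul_ne_zero h𝔠 hd.prod_ne_bot
  obtain ⟨𝔟, 𝔟', h𝔟, h𝔟', hfeψ⟩ := hfe h𝔣
  have hfej := fun j => hfeψ hσ he (hν j) (hC.prim j) (hC.mod j)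
  choose hi hi' F' hF' hF'L hbd using hfej
  have hFF : ∀ j, F j = F' j := fun j =>
    entire_eq (hF j) (hF' j) fun s hs => by rw [hFL j s hs, hF'L j s hs]
  set R : ℝ := Δ * Nc * (p : ℝ) ^ (∑ i, κ i) with hR
  have hRe : R = (((Ideal.absNorm (𝔠 * ∏ j, 𝔭 j ^ κ j) *
      Ideal.absNorm (differentIdeal ℤ (𝓞 K)) : ℕ) : ℝ)) := by
    rw [map_mul, hnp]
    push_cast
    rw [hR, hΔ, hNc]
    ring
  have hpk : (1 : ℝ) ≤ (p : ℝ) ^ (∑ i, κ i) := one_le_pow₀ hp1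
  have hR1 : 1 ≤ R := by
    rw [hR]
    calc (1 : ℝ) = 1 * 1 * 1 := by norm_num
      _ ≤ _ := by gcongr
  have hR0 : 0 < R := by linarith
  set P : ℝ := (p : ℝ) ^ (∑ i, a i) with hP
  have hP1 : 1 ≤ P := one_le_pow₀ hp1
  set Z : ℝ := C1 * m * Nc ^ 2 * ((p : ℝ) * k) ^ (75 * n) * P with hZ
  have hZ0 : 0 ≤ Z := by positivity
  have hJ : (Fintype.card J : ℝ) ≤ m * P := card_cosW hd hcop (fun i => (ha i).1) hC hmult
  -- bounds for the theta functions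
  have hb1 : ∀ 𝔞 : ClassGroup (𝓞 K) → Ideal (𝓞 K), (∀ c, 𝔞 c ≠ ⊥) → ∀ v : ℝ, 0 < v →
      ∑ j, ‖Ftx (ψ j) σ e (ν j) 𝔞 v‖ ^ 2 ≤ (A * Real.sqrt (m * P) / v) ^ 2 := by
    intro 𝔞 h𝔞 v hv
    have hone : ∀ j, ‖Ftx (ψ j) σ e (ν j) 𝔞 v‖ ≤ A / v := by
      intro j
      unfold Ftx
      refine (norm_sum_le _ _).trans ?_
      calc _ ≤ ∑ c : ClassGroup (𝓞 K), H * (CBX K * 2 ^ n) / dKX K / v := by
            refine Finset.sum_le_sum fun c _ => hX_le fun θ => ?_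
            have h1 := tt_trivW hd.card (hC.mod j) (h𝔞 c) σ e
              (el K ((2 / Module.finrank ℚ K) *
              Real.log ((Ideal.absNorm (𝔞 c) : ℝ)⁻¹ * v), θ))
            have h2 := exp_elX (h𝔞 c) hv θ
            rw [mul_right_comm, ← h2, ← hn] at h1
            have h9 : 0 ≤ CBX K * 2 ^ n / (v * dKX K) := by positivity
            calc _ ≤ CW (ls σ e) * (CBX K * 2 ^ n / (v * dKX K)) := h1
              _ ≤ H * (CBX K * 2 ^ n / (v * dKX K)) := mul_le_mul_of_nonneg_right hCW h9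
              _ = _ := by
                  rw [div_div, mul_comm v]
                  exact (mul_div_assoc _ _ _).symm
        _ = _ := by
            rw [Finset.sum_const, Finset.card_univ, nsmul_eq_mul, hA]
            ring
    calc _ ≤ ∑ _j : J, (A / v) ^ 2 :=
          Finset.sum_le_sum fun j _ => pow_le_pow_left₀ (norm_nonneg _) (hone j) 2
      _ = (Fintype.card J : ℝ) * (A / v) ^ 2 := by
          rw [Finset.sum_const, Finset.card_univ, nsmul_eq_mul]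
      _ ≤ (m * P) * (A / v) ^ 2 := by gcongr
      _ = A ^ 2 * Real.sqrt (m * P) ^ 2 / v ^ 2 := by
          rw [Real.sq_sqrt (by positivity)]
          ring
      _ = _ := by ring
  have hb2 : ∀ 𝔞 : ClassGroup (𝓞 K) → Ideal (𝓞 K), (∀ c, 𝔞 c ≠ ⊥) → ∀ v : ℝ,
      R ^ (-(1 / 2) : ℝ) < v → ∑ j, ‖Ftx (ψ j) σ e (ν j) 𝔞 v‖ ^ 2 ≤ h ^ 2 * Z / v := by
    intro 𝔞 h𝔞 v hv
    have hv0 : 0 < v := lt_trans (Real.rpow_pos_of_pos hR0 _) hv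
    have hRv : 1 ≤ Δ * Ideal.absNorm 𝔠 * (p : ℝ) ^ (∑ i, κ i) * v ^ 2 := by
      have h1 : (R ^ (-(1 / 2) : ℝ)) ^ 2 ≤ v ^ 2 := by
        have := Real.rpow_pos_of_pos hR0 (-(1 / 2) : ℝ)
        gcongr
      have h2 : R * (R ^ (-(1 / 2) : ℝ)) ^ 2 = 1 := by
        rw [← Real.rpow_natCast, ← Real.rpow_mul hR0.le]
        nth_rewrite 1 [← Real.rpow_one R]
        rw [← Real.rpow_add hR0]
        norm_num
      rw [← h2]
      exact mul_le_mul_of_nonneg_left h1 hR0.le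
    rw [mul_div_assoc]
    exact Ftx_ms hC.mod fun c θ =>
      hth p 𝔭 κ hd hp7 𝔠 h𝔠 hcop k hk hκk a ha J _ ψ m hC hmult (𝔞 c) (h𝔞 c) σ hσ e he
        hCH hCW _ v (exp_elX (h𝔞 c) hv0 θ) hRv
  set A' : ℝ := A * Real.sqrt (m * P) with hA'
  have hA'0 : 0 ≤ A' := by positivity
  have hI1 := int_ms (f := fun j => Ftx (ψ j) σ e (ν j) 𝔟) hR1 hA'0
    (B := h ^ 2 * Z) (by positivity) hi (hb1 𝔟 h𝔟) (hb2 𝔟 h𝔟)
  have hI2 := int_ms (f := fun j => Ftx (ψ j) σ e (ν j) 𝔟') hR1 hA'0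
    (B := h ^ 2 * Z) (by positivity) hi' (hb1 𝔟' h𝔟') (hb2 𝔟' h𝔟')
  -- the size of the bound
  have hnR : (1 : ℝ) ≤ n := by exact_mod_cast hn1
  have hlog : Real.log R ≤ (2 + n) * Δ * Nc * ((p : ℝ) * k) := by
    have h1 : Real.log R = Real.log Δ + Real.log Nc + ((∑ i, κ i : ℕ) : ℝ) * Real.log p := by
      rw [hR, Real.log_mul (by positivity) (by positivity), Real.log_mul (by positivity) (by positivity),
        Real.log_pow]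
    have h2 : Real.log Δ ≤ Δ := (Real.log_le_sub_one_of_pos (by linarith)).trans (by linarith)
    have h3 : Real.log Nc ≤ Nc := (Real.log_le_sub_one_of_pos (by linarith)).trans (by linarith)
    have h4 : Real.log p ≤ p := (Real.log_le_sub_one_of_pos hp0).trans (by linarith)
    have h4' : 0 ≤ Real.log p := Real.log_nonneg hp1
    have h7 : ((∑ i, κ i : ℕ) : ℝ) ≤ n * k := by
      have : ∑ i, κ i ≤ n * k := by
        calc ∑ i, κ i ≤ ∑ _i : K →+* ℂ, k := Finset.sum_le_sum fun i _ => hκk i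
          _ = _ := by rw [Finset.sum_const, Finset.card_univ, smul_eq_mul]
      exact_mod_cast this
    have h5 : (k : ℝ) * Real.log p ≤ p * k := by
      rw [mul_comm (p : ℝ)]
      gcongr
    have g1 : Δ ≤ Δ * Nc * ((p : ℝ) * k) := by
      calc Δ = Δ * 1 * 1 := by ring
        _ ≤ _ := by gcongr
    have g2 : Nc ≤ Δ * Nc * ((p : ℝ) * k) := by
      calc Nc = 1 * Nc * 1 := by ring
        _ ≤ _ := by gcongr
    have g3 : (p : ℝ) * k ≤ Δ * Nc * ((p : ℝ) * k) := by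
      calc (p : ℝ) * k = 1 * 1 * (p * k) := by ring
        _ ≤ _ := by gcongr
    have g4 : ((∑ i, κ i : ℕ) : ℝ) * Real.log p ≤ n * (Δ * Nc * ((p : ℝ) * k)) := by
      calc _ ≤ (n * k : ℝ) * Real.log p := mul_le_mul_of_nonneg_right h7 h4'
        _ = n * (k * Real.log p) := by ring
        _ ≤ _ := by
            have := h5.trans g3
            gcongr
    rw [h1]
    linarith
  have hlog0 : 0 ≤ Real.log R := Real.log_nonneg hR1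
  set W : ℝ := m * Nc ^ 4 * ((p : ℝ) * k) ^ (77 * n) * P with hW
  have hmPW : m * P ≤ W := by
    have h1 : (1 : ℝ) ≤ Nc ^ 4 := one_le_pow₀ hN𝔠
    have h2 : (1 : ℝ) ≤ ((p : ℝ) * k) ^ (77 * n) := one_le_pow₀ hpk1
    calc m * P = m * 1 * 1 * P := by ring
      _ ≤ m * Nc ^ 4 * ((p : ℝ) * k) ^ (77 * n) * P := by gcongr
  have hWm : 0 ≤ W := le_trans (by positivity) hmPW
  have hI : (2 * A' + Real.sqrt (h ^ 2 * Z) * Real.log R) ^ 2 ≤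
      (8 * A ^ 2 + 2 * h ^ 2 * C1 * ((2 + n) * Δ) ^ 2) * W := by
    have h1 : (2 * A' + Real.sqrt (h ^ 2 * Z) * Real.log R) ^ 2 ≤
        2 * (2 * A') ^ 2 + 2 * (Real.sqrt (h ^ 2 * Z) * Real.log R) ^ 2 := by
      nlinarith [sq_nonneg (2 * A' - Real.sqrt (h ^ 2 * Z) * Real.log R)]
    have h2 : (2 * A') ^ 2 = 4 * A ^ 2 * (m * P) := by
      rw [hA', mul_pow, mul_pow, Real.sq_sqrt (by positivity)]
      ring
    have h3 : (Real.sqrt (h ^ 2 * Z) * Real.log R) ^ 2 = h ^ 2 * Z * Real.log R ^ 2 := by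
      rw [mul_pow, Real.sq_sqrt (by positivity)]
    have h4 : Real.log R ^ 2 ≤ ((2 + n) * Δ * Nc * ((p : ℝ) * k)) ^ 2 :=
      pow_le_pow_left₀ hlog0 hlog 2
    have h5 : ((p : ℝ) * k) ^ (75 * n) * ((p : ℝ) * k) ^ 2 ≤ ((p : ℝ) * k) ^ (77 * n) := by
      rw [← pow_add]
      exact pow_le_pow_right₀ hpk1 (by omega)
    have h6 : h ^ 2 * Z * Real.log R ^ 2 ≤ h ^ 2 * C1 * ((2 + n) * Δ) ^ 2 * W := by
      calc _ ≤ h ^ 2 * Z * ((2 + n) * Δ * Nc * ((p : ℝ) * k)) ^ 2 := by gcongr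
        _ = h ^ 2 * C1 * ((2 + n) * Δ) ^ 2 * (m * Nc ^ 4 *
            (((p : ℝ) * k) ^ (75 * n) * ((p : ℝ) * k) ^ 2) * P) := by rw [hZ]; ring
        _ ≤ h ^ 2 * C1 * ((2 + n) * Δ) ^ 2 * (m * Nc ^ 4 * ((p : ℝ) * k) ^ (77 * n) * P) := by
            gcongr
    have h7 : 4 * A ^ 2 * (m * P) ≤ 4 * A ^ 2 * W := by gcongr
    rw [h2, h3] at h1
    calc _ ≤ _ := h1
      _ ≤ 2 * (4 * A ^ 2 * W) + 2 * (h ^ 2 * C1 * ((2 + n) * Δ) ^ 2 * W) := by gcongr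
      _ = _ := by ring
  -- the gamma factors
  have hs : (1 / 2 + t * I : ℂ).re = 1 / 2 := by simp
  have hgam : ∀ j, ‖(GKi e (ν j) (1 / 2 + t * I) : ℂ)‖ ≤ (2 * G) ^ r := fun j =>
    norm_GKi_le hG heM ht (hνV j) le_rfl
  set I1 : J → ℝ := fun j => ∫ t in Ioi (R ^ (-(1 / 2) : ℝ)),
    ‖Ftx (ψ j) σ e (ν j) 𝔟 t‖ * t ^ (-(1 / 2) : ℝ) with hI1d
  set I2 : J → ℝ := fun j => ∫ t in Ioi (R ^ (-(1 / 2) : ℝ)),
    ‖Ftx (ψ j) σ e (ν j) 𝔟' t‖ * t ^ (-(1 / 2) : ℝ) with hI2d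
  have hI10 : ∀ j, 0 ≤ I1 j := fun j => setIntegral_nonneg measurableSet_Ioi fun v hv => by
    have : (0 : ℝ) < v := lt_trans (Real.rpow_pos_of_pos hR0 _) hv
    positivity
  have hI20 : ∀ j, 0 ≤ I2 j := fun j => setIntegral_nonneg measurableSet_Ioi fun v hv => by
    have : (0 : ℝ) < v := lt_trans (Real.rpow_pos_of_pos hR0 _) hv
    positivity
  have hone : ∀ j, ‖F j (1 / 2 + t * I)‖ ^ 2 ≤
      (C2 * (2 * G) ^ r) ^ 2 * (2 * I1 j ^ 2 + 2 * I2 j ^ 2) := by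
    intro j
    have hfin := hbd j R hRe (1 / 2 + t * I) hs
    rw [hFF j]
    have h1 : ‖F' j (1 / 2 + t * I)‖ ≤ C2 * (2 * G) ^ r * (I1 j + I2 j) := by
      refine hfin.trans ?_
      exact mul_le_mul_of_nonneg_right (mul_le_mul_of_nonneg_left (hgam j) hC2.le)
        (add_nonneg (hI10 j) (hI20 j))
    calc _ ≤ (C2 * (2 * G) ^ r * (I1 j + I2 j)) ^ 2 := pow_le_pow_left₀ (norm_nonneg _) h1 2
      _ = (C2 * (2 * G) ^ r) ^ 2 * (I1 j + I2 j) ^ 2 := by rw [mul_pow]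
      _ ≤ _ := by
          refine mul_le_mul_of_nonneg_left ?_ (sq_nonneg _)
          nlinarith [sq_nonneg (I1 j - I2 j)]
  calc _ ≤ ∑ j, (C2 * (2 * G) ^ r) ^ 2 * (2 * I1 j ^ 2 + 2 * I2 j ^ 2) :=
        Finset.sum_le_sum fun j _ => hone j
    _ = (C2 * (2 * G) ^ r) ^ 2 * (2 * ∑ j, I1 j ^ 2 + 2 * ∑ j, I2 j ^ 2) := by
        rw [← Finset.mul_sum, Finset.sum_add_distrib, Finset.mul_sum, Finset.mul_sum]
    _ ≤ (C2 * (2 * G) ^ r) ^ 2 * (2 * ((8 * A ^ 2 + 2 * h ^ 2 * C1 * ((2 + n) * Δ) ^ 2) * W) +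
        2 * ((8 * A ^ 2 + 2 * h ^ 2 * C1 * ((2 + n) * Δ) ^ 2) * W)) := by
        have h1 := hI1.trans hI
        have h2 := hI2.trans hI
        gcongr
    _ = ((C2 * (2 * G) ^ r) ^ 2 * (4 * (8 * A ^ 2 + 2 * h ^ 2 * C1 * ((2 + n) * Δ) ^ 2))) * W := by
        ring
    _ ≤ ((C2 * (2 * G) ^ r) ^ 2 * (4 * (8 * A ^ 2 + 2 * h ^ 2 * C1 * ((2 + n) * Δ) ^ 2)) + 1) *
        W := by nlinarith
    _ = _ := by rw [hW]; ring

/-- the exponents in the small coordinates -/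
def ax' (κ a : ℕ) : ℕ := if κ ≤ 2 * a ∨ 30 ≤ κ then a else (κ + 1) / 2

lemma ax'_ok {κ a : ℕ} (h1 : a ≤ κ) (h2 : 19 * κ ≤ 58 * a) :
    (ax' κ a ≤ κ ∧ (κ ≤ 2 * ax' κ a ∨ 30 ≤ κ ∧ 19 * κ ≤ 58 * ax' κ a)) ∧ a ≤ ax' κ a ∧
      ax' κ a ≤ a + 5 := by
  unfold ax'
  split_ifs with h
  · omega
  · omega

/-- **the mean square** -/
theorem meanW (K : Type) [Field K] [NumberField K] (M : ℕ) (V T : ℝ) :
    ∃ C : ℝ, 0 < C ∧ ∀ (p : ℕ) (𝔭 : (K →+* ℂ) → Ideal (𝓞 K)) (κ : (K →+* ℂ) → ℕ),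
      Sup p 𝔭 κ → 7 ≤ p → ∀ (𝔠 : Ideal (𝓞 K)), 𝔠 ≠ ⊥ → IsCoprime 𝔠 (∏ j, 𝔭 j ^ κ j) →
      ∀ k : ℕ, 1 ≤ k → (∀ i, κ i ≤ k) → ∀ a : (K →+* ℂ) → ℕ,
      (∀ i, a i ≤ κ i) → (∀ i, 19 * κ i ≤ 58 * a i) →
      ∀ (σ : InfinitePlace K → (K →+* ℂ)), Sel σ → ∀ (e : InfinitePlace K → ℕ), Ex e →
      (∀ w, e w ≤ M) → ∀ (J : Type) [Fintype J] (ν : J → InfinitePlace K → ℝ)
      (ψ : J → Ideal (𝓞 K) →*₀ ℂ) (m : ℕ), (∀ j w, |ν j w| ≤ V) → (∀ j, ∑ w, ν j w = 0) →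
      Cos (𝔠 * ∏ j, 𝔭 j ^ κ j) (∏ j, 𝔭 j ^ a j) (fun j => kp σ e (ν j)) ψ →
      Mult (fun j => kp σ e (ν j)) ψ m →
      ∀ F : J → ℂ → ℂ, (∀ j, Differentiable ℂ (F j)) →
      (∀ j, ∀ s : ℂ, 1 < s.re → F j s = LI (ψ j) s) →
      ∀ t : ℝ, |t| ≤ T → ∑ j, ‖F j (1 / 2 + t * I)‖ ^ 2 ≤
        C * m * (Ideal.absNorm 𝔠 : ℝ) ^ 4 * ((p : ℝ) * k) ^ (82 * Module.finrank ℚ K) *
          (p : ℝ) ^ (∑ i, a i) := by
  obtain ⟨C, hC, H⟩ := mean0 K M V T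
  refine ⟨C, hC, ?_⟩
  intro p 𝔭 κ hd hp7 𝔠 h𝔠 hcop k hk hκk a ha1 ha2 σ hσ e he heM J _ ν ψ m hνV hν hC' hmult F hF
    hFL t ht
  have hok := fun i => ax'_ok (ha1 i) (ha2 i)
  have hp0 : (0 : ℝ) < p := by exact_mod_cast hd.hp.pos
  have hp1 : (1 : ℝ) ≤ p := by exact_mod_cast hd.hp.one_le
  have hk1 : (1 : ℝ) ≤ k := by exact_mod_cast hk
  have hpk1 : (1 : ℝ) ≤ (p : ℝ) * k := by nlinarith
  have hCos : Cos (𝔠 * ∏ j, 𝔭 j ^ κ j) (∏ j, 𝔭 j ^ ax' (κ j) (a j)) (fun j => kp σ e (ν j)) ψ := by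
    refine ⟨hC'.mod, hC'.prim, fun j j' x hx => hC'.cos j j' x ?_⟩
    refine (Ideal.dvd_iff_le.1 (Finset.prod_dvd_prod_of_dvd _ _ fun j _ => ?_)) hx
    exact pow_dvd_pow _ (hok j).2.1
  have h1 := H p 𝔭 κ hd hp7 𝔠 h𝔠 hcop k hk hκk (fun i => ax' (κ i) (a i)) (fun i => (hok i).1)
    σ hσ e he heM J ν ψ m hνV hν hCos hmult F hF hFL t ht
  refine h1.trans ?_
  have h2 : (p : ℝ) ^ (∑ i, ax' (κ i) (a i)) ≤
      ((p : ℝ) * k) ^ (5 * Module.finrank ℚ K) * (p : ℝ) ^ (∑ i, a i) := by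
    have h3 : ∑ i, ax' (κ i) (a i) ≤ 5 * Module.finrank ℚ K + ∑ i, a i := by
      calc _ ≤ ∑ i, (5 + a i) := Finset.sum_le_sum fun i _ => by
            have := (hok i).2.2
            omega
        _ = _ := by
            rw [Finset.sum_add_distrib, Finset.sum_const, Finset.card_univ, hd.card, smul_eq_mul,
              mul_comm]
    calc _ ≤ (p : ℝ) ^ (5 * Module.finrank ℚ K + ∑ i, a i) := pow_le_pow_right₀ hp1 h3
      _ = (p : ℝ) ^ (5 * Module.finrank ℚ K) * (p : ℝ) ^ (∑ i, a i) := pow_add _ _ _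
      _ ≤ _ := by
          have h5 : (p : ℝ) ≤ p * k := le_mul_of_one_le_right hp0.le hk1
          have h6 : (p : ℝ) ^ (5 * Module.finrank ℚ K) ≤ ((p : ℝ) * k) ^ (5 * Module.finrank ℚ K) :=
            pow_le_pow_left₀ hp0.le h5 _
          gcongr
  have hm0 : (0 : ℝ) ≤ m := Nat.cast_nonneg _
  calc _ ≤ C * m * (Ideal.absNorm 𝔠 : ℝ) ^ 4 * ((p : ℝ) * k) ^ (77 * Module.finrank ℚ K) *
        (((p : ℝ) * k) ^ (5 * Module.finrank ℚ K) * (p : ℝ) ^ (∑ i, a i)) := by gcongr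
    _ = C * m * (Ideal.absNorm 𝔠 : ℝ) ^ 4 * (((p : ℝ) * k) ^ (77 * Module.finrank ℚ K) *
        ((p : ℝ) * k) ^ (5 * Module.finrank ℚ K)) * (p : ℝ) ^ (∑ i, a i) := by ring
    _ = _ := by
        rw [← pow_add]
        congr 3
        ring

end Pool.Agent.J4H31.W
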