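import Pool.Agent.J4H31.W.W11

/-!
The number of Hecke characters with a given finite part.
-/

set_option autoImplicit false
set_option linter.unusedSectionVars false

open NumberField Complex
open NumberField.Units NumberField.Units.dirichletUnitTheorem
open Pool.Agent.Y773 (el)
open Pool.Agent.Y773.G (elE elE_apply)
open Pool.Agent.Y767 (ax norm_ax ax_neg_mul ax_ne)
open Pool.Agent.J4H31.U
open scoped nonZeroDivisors

namespace Pool.Agent.J4H31.W

section nu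

variable {K : Type} [Field K] [NumberField K]

/-- the logarithms of the units span -/
lemma nu_zero {δ : InfinitePlace K → ℝ} (h0 : ∑ w, δ w = 0)
    (h1 : ∀ i : Fin (rank K), ∑ w, δ w * Real.log (w ((fundSystem K i : (𝓞 K)ˣ) : K)) = 0) :
    δ = 0 := by
  obtain ⟨p, hp⟩ := (elE K).surjective δ
  rw [elE_apply] at hp
  have h2 : ∑ w, δ w * el K p w = 0 := by
    simp only [el, LinearMap.coe_mk, AddHom.coe_mk, mul_add, Finset.sum_add_distrib]
    rw [← Finset.sum_mul, h0, zero_mul, zero_add]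
    simp_rw [Finset.mul_sum]
    rw [Finset.sum_comm]
    refine Finset.sum_eq_zero fun i _ => ?_
    calc ∑ w, δ w * (p.2 i * (2 * Real.log (w ((fundSystem K i : (𝓞 K)ˣ) : K)))) =
        (2 * p.2 i) * ∑ w, δ w * Real.log (w ((fundSystem K i : (𝓞 K)ˣ) : K)) := by
          rw [Finset.mul_sum]
          exact Finset.sum_congr rfl fun w _ => by ring
      _ = 0 := by rw [h1 i, mul_zero]
  rw [hp] at h2
  funext w
  have h3 := (Finset.sum_eq_zero_iff_of_nonneg fun w _ => mul_self_nonneg (δ w)).1 h2 w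
    (Finset.mem_univ w)
  exact mul_self_eq_zero.1 h3

/-- infinity types which are close to each other and agree on the units -/
theorem exists_delta (K : Type) [Field K] [NumberField K] : ∃ δ₀ : ℝ, 0 < δ₀ ∧
    ∀ ν ν' : InfinitePlace K → ℝ, ∑ w, ν w = 0 → ∑ w, ν' w = 0 → (∀ w, |ν w - ν' w| ≤ δ₀) →
      (∀ u : (𝓞 K)ˣ, ax (fun w => -ν w) ((u : 𝓞 K) : K) = ax (fun w => -ν' w) ((u : 𝓞 K) : K)) →
      ν = ν' := by
  set L : ℝ := 1 + ∑ i : Fin (rank K), ∑ w : InfinitePlace K,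
    |Real.log (w ((fundSystem K i : (𝓞 K)ˣ) : K))| with hL
  have hL0 : 0 < L := by
    have : 0 ≤ ∑ i : Fin (rank K), ∑ w : InfinitePlace K,
        |Real.log (w ((fundSystem K i : (𝓞 K)ˣ) : K))| :=
      Finset.sum_nonneg fun i _ => Finset.sum_nonneg fun w _ => abs_nonneg _
    linarith
  refine ⟨L⁻¹, inv_pos.2 hL0, ?_⟩
  intro ν ν' h1 h2 h3 h4
  have h5 : (fun w => ν w - ν' w) = (0 : InfinitePlace K → ℝ) := by
    refine nu_zero (by rw [Finset.sum_sub_distrib, h1, h2, sub_zero]) fun i => ?_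
    set x : ℝ := ∑ w, (ν w - ν' w) * Real.log (w ((fundSystem K i : (𝓞 K)ˣ) : K)) with hx
    have hx1 : |x| ≤ 1 := by
      calc |x| ≤ ∑ w : InfinitePlace K, |(ν w - ν' w) * Real.log (w ((fundSystem K i : (𝓞 K)ˣ) : K))| :=
            Finset.abs_sum_le_sum_abs _ _
        _ ≤ ∑ w : InfinitePlace K, L⁻¹ * |Real.log (w ((fundSystem K i : (𝓞 K)ˣ) : K))| := by
            refine Finset.sum_le_sum fun w _ => ?_
            rw [abs_mul]
            exact mul_le_mul_of_nonneg_right (h3 w) (abs_nonneg _)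
        _ = L⁻¹ * ∑ w : InfinitePlace K, |Real.log (w ((fundSystem K i : (𝓞 K)ˣ) : K))| := by rw [Finset.mul_sum]
        _ ≤ L⁻¹ * L := by
            refine mul_le_mul_of_nonneg_left ?_ (inv_pos.2 hL0).le
            have h6 : ∑ w : InfinitePlace K, |Real.log (w ((fundSystem K i : (𝓞 K)ˣ) : K))| ≤
                ∑ i : Fin (rank K), ∑ w : InfinitePlace K,
                  |Real.log (w ((fundSystem K i : (𝓞 K)ˣ) : K))| :=
              Finset.single_le_sum (f := fun i => ∑ w : InfinitePlace K,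
                |Real.log (w ((fundSystem K i : (𝓞 K)ˣ) : K))|)
                (fun i _ => Finset.sum_nonneg fun w _ => abs_nonneg _) (Finset.mem_univ i)
            linarith
        _ = 1 := inv_mul_cancel₀ hL0.ne'
    have h6 := h4 (fundSystem K i)
    unfold Pool.Agent.Y767.ax at h6
    have h7 : cexp (I * ((x : ℝ) : ℂ)) = 1 := by
      have e1 : I * ((x : ℝ) : ℂ) =
          I * ((∑ w, -ν' w * Real.log (w (((fundSystem K i : (𝓞 K)ˣ) : 𝓞 K) : K)) : ℝ) : ℂ) -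
          I * ((∑ w, -ν w * Real.log (w (((fundSystem K i : (𝓞 K)ˣ) : 𝓞 K) : K)) : ℝ) : ℂ) := by
        rw [← mul_sub, ← Complex.ofReal_sub, ← Finset.sum_sub_distrib]
        congr 2
        rw [hx]
        exact Finset.sum_congr rfl fun w _ => by ring
      rw [e1, Complex.exp_sub, h6, div_self (Complex.exp_ne_zero _)]
    rw [Complex.exp_eq_one_iff] at h7
    obtain ⟨n, hn⟩ := h7
    have h8 : x = n * (2 * Real.pi) := by
      have h9 : I * ((x : ℝ) : ℂ) = I * (((n * (2 * Real.pi) : ℝ)) : ℂ) := by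
        rw [hn]
        push_cast
        ring
      exact_mod_cast mul_left_cancel₀ Complex.I_ne_zero h9
    have hn0 : n = 0 := by
      by_contra hne
      have h10 : (1 : ℝ) ≤ |(n : ℝ)| := by
        rw [← Int.cast_abs]
        exact_mod_cast Int.one_le_abs hne
      rw [h8, abs_mul, abs_of_pos (by positivity : (0 : ℝ) < 2 * Real.pi)] at hx1
      have := Real.pi_gt_three
      nlinarith
    rw [h8, hn0]
    simp
  funext w
  have := congrFun h5 w
  simp only [Pi.zero_apply] at this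
  linarith

end nu

section rep

variable {K : Type} [Field K] [NumberField K]

/-- every class contains an ideal prime to `𝔪` -/
lemma cop_rep {𝔪 : Ideal (𝓞 K)} (h𝔪0 : 𝔪 ≠ ⊥) (h𝔪 : 𝔪 ≠ ⊤) (c : ClassGroup (𝓞 K)) :
    ∃ 𝔟 : (Ideal (𝓞 K))⁰, IsCoprime (𝔟 : Ideal (𝓞 K)) 𝔪 ∧ ClassGroup.mk0 𝔟 = c := by
  obtain ⟨𝔞, h𝔞⟩ := ClassGroup.mk0_surjective c⁻¹
  have h0 : (𝔞 : Ideal (𝓞 K)) ≠ 0 := nonZeroDivisors.coe_ne_zero 𝔞
  have h1 : (𝔞 : Ideal (𝓞 K)) * 𝔪 ≠ 0 := mul_ne_zero h0 h𝔪0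
  obtain ⟨y, h2⟩ := IsDedekindDomain.exists_sup_span_eq (I := (𝔞 : Ideal (𝓞 K)) * 𝔪)
    (J := (𝔞 : Ideal (𝓞 K))) Ideal.mul_le_left h1
  have h3 : Ideal.span {y} ≤ (𝔞 : Ideal (𝓞 K)) := by
    conv_rhs => rw [← h2]
    exact le_sup_right
  obtain ⟨𝔟, h𝔟⟩ := Ideal.dvd_iff_le.mpr h3
  have h4 : IsCoprime 𝔟 𝔪 := by
    rw [Ideal.isCoprime_iff_sup_eq, sup_comm]
    rw [h𝔟, ← Ideal.mul_sup] at h2
    have h5 : (𝔞 : Ideal (𝓞 K)) * (𝔪 ⊔ 𝔟) = (𝔞 : Ideal (𝓞 K)) * 1 := by rw [h2, mul_one]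
    have h6 := mul_left_cancel₀ h0 h5
    rw [h6, Ideal.one_eq_top]
  have h𝔟0 : 𝔟 ≠ 0 := by
    rintro rfl
    rw [Ideal.isCoprime_iff_sup_eq, Ideal.zero_eq_bot, bot_sup_eq] at h4
    exact h𝔪 h4
  refine ⟨⟨𝔟, mem_nonZeroDivisors_of_ne_zero h𝔟0⟩, h4, ?_⟩
  have h7 : ClassGroup.mk0 (𝔞 * ⟨𝔟, mem_nonZeroDivisors_of_ne_zero h𝔟0⟩) = 1 := by
    rw [ClassGroup.mk0_eq_one_iff]
    exact ⟨y, h𝔟.symm⟩
  rw [map_mul, h𝔞] at h7
  exact (inv_mul_eq_one.1 h7).symm

/-- **characters of bounded infinity type with the same finite part** -/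
theorem mult_bound (K : Type) [Field K] [NumberField K] (V : ℝ) : ∃ m : ℕ,
    ∀ {𝔣 : Ideal (𝓞 K)} {σ : InfinitePlace K → (K →+* ℂ)}, Sel σ →
    ∀ {e : InfinitePlace K → ℕ} {J : Type} {ν : J → InfinitePlace K → ℝ}
    {ψ : J → Ideal (𝓞 K) →*₀ ℂ}, (∀ j, IsModK 𝔣 (kp σ e (ν j)) (ψ j)) →
    (∀ j w, |ν j w| ≤ V) → (∀ j, ∑ w, ν j w = 0) → Function.Injective ψ →
    Mult (fun j => kp σ e (ν j)) ψ m := by
  classical
  obtain ⟨δ₀, hδ₀, hδ⟩ := exists_delta K
  set h : ℕ := Fintype.card (ClassGroup (𝓞 K)) with hh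
  have hh0 : 0 < h := Fintype.card_pos
  set N : ℤ := (⌈V / δ₀⌉₊ : ℤ) + 1 with hN
  refine ⟨h ^ h * (Fintype.piFinset fun _ : InfinitePlace K => Finset.Icc (-N) N).card, ?_⟩
  intro 𝔣 σ hσ e J ν ψ hM hV hν hinj J' hJ'
  rcases J'.eq_empty_or_nonempty with rfl | ⟨j0, -⟩
  · simp
  have h0 := fun c => cop_rep (hM j0).ne_bot (hM j0).ne_top c
  choose 𝔟 h𝔟1 h𝔟2 using h0
  have ht : (⊤ : Ideal (𝓞 K)) ≠ ⊥ := top_ne_bot
  have hPk : ∀ j x, Pk (ψ j) (kp σ e (ν j)) ⊤ x = ψ j (Ideal.span {x}) * kp σ e (ν j) (x : K) :=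
    fun j x => Pk_of_eq ht (Ideal.mul_top _)
  -- the units
  have hun : ∀ j ∈ J', ∀ j' ∈ J', ∀ u : (𝓞 K)ˣ, ax (fun w => -ν j w) ((u : 𝓞 K) : K) =
      ax (fun w => -ν j' w) ((u : 𝓞 K) : K) := by
    intro j hj j' hj' u
    have h1 := hJ' j hj j' hj' (u : 𝓞 K)
    rw [hPk, hPk, Ideal.span_singleton_eq_top.mpr u.isUnit, ← Ideal.one_eq_top, map_one, map_one,
      one_mul, one_mul] at h1
    unfold kp at h1
    refine mul_left_cancel₀ ?_ h1.symm
    rw [Ne, map_eq_zero, ← norm_eq_zero, norm_us hσ e (by simp)]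
    exact one_ne_zero
  refine Finset.card_le_mul_card_image_of_maps_to (f := fun j w => ⌊ν j w / δ₀⌋) ?_ _ ?_
  · intro j _
    rw [Fintype.mem_piFinset]
    intro w
    rw [Finset.mem_Icc]
    have h1 := abs_le.1 (hV j w)
    have h2 : V / δ₀ ≤ ⌈V / δ₀⌉₊ := Nat.le_ceil _
    have h3 : -(V / δ₀) ≤ ν j w / δ₀ := by
      rw [← neg_div]
      exact div_le_div_of_nonneg_right h1.1 hδ₀.le
    have h4 : ν j w / δ₀ ≤ V / δ₀ := div_le_div_of_nonneg_right h1.2 hδ₀.le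
    constructor
    · rw [Int.le_floor, hN]
      push_cast
      linarith
    · have h5 := Int.floor_le (ν j w / δ₀)
      have h6 : ((⌊ν j w / δ₀⌋ : ℤ) : ℝ) ≤ (N : ℝ) := by
        rw [hN]
        push_cast
        linarith
      exact_mod_cast h6
  intro b _
  rcases (J'.filter fun j => (fun j w => ⌊ν j w / δ₀⌋) j = b).eq_empty_or_nonempty with h1 | ⟨j1, hj1⟩
  · rw [h1, Finset.card_empty]
    exact Nat.zero_le _
  obtain ⟨hj1a, hj1b⟩ := Finset.mem_filter.1 hj1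
  set s := J'.filter fun j => (fun j w => ⌊ν j w / δ₀⌋) j = b with hs
  have hνe : ∀ j ∈ s, ν j = ν j1 := by
    intro j hj
    obtain ⟨hja, hjb⟩ := Finset.mem_filter.1 hj
    refine hδ _ _ (hν j) (hν j1) (fun w => ?_) (hun j hja j1 hj1a)
    have h2 : ⌊ν j w / δ₀⌋ = ⌊ν j1 w / δ₀⌋ := by
      have h3 := congrFun (hjb.trans hj1b.symm) w
      exact h3
    have h3 := Int.abs_sub_lt_one_of_floor_eq_floor h2
    rw [← sub_div, abs_div, abs_of_pos hδ₀, div_lt_one hδ₀] at h3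
    exact h3.le
  have hpr : ∀ j ∈ s, ∀ x : 𝓞 K, x ≠ 0 → ψ j (Ideal.span {x}) = ψ j1 (Ideal.span {x}) := by
    intro j hj x hx
    have h2 := hJ' j1 hj1a j (Finset.mem_filter.1 hj).1 x
    rw [hPk, hPk, hνe j hj] at h2
    exact mul_right_cancel₀ ((hM j1).kap.ne_zero (by simpa using hx)) h2
  have hcard : s.card ≤ (Fintype.piFinset fun c : ClassGroup (𝓞 K) =>
      (Polynomial.nthRoots h (ψ j1 (𝔟 c : Ideal (𝓞 K)) ^ h)).toFinset).card := by
    refine Finset.card_le_card_of_injOn (fun j c => ψ j (𝔟 c : Ideal (𝓞 K))) ?_ ?_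
    · intro j hj
      simp only [Finset.mem_coe] at hj
      rw [Finset.mem_coe, Fintype.mem_piFinset]
      intro c
      rw [Multiset.mem_toFinset, Polynomial.mem_nthRoots hh0]
      have h2 : ClassGroup.mk0 (𝔟 c ^ h) = 1 := by
        rw [map_pow, hh]
        exact pow_card_eq_one
      rw [ClassGroup.mk0_eq_one_iff] at h2
      obtain ⟨β, hβ⟩ := h2
      have h3 : ((𝔟 c : Ideal (𝓞 K)) ^ h) = Ideal.span {β} := by
        rw [← SubmonoidClass.coe_pow]
        exact hβ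
      have hβ0 : β ≠ 0 := by
        rintro rfl
        rw [Ideal.span_singleton_eq_bot.mpr rfl] at h3
        exact pow_ne_zero h (nonZeroDivisors.coe_ne_zero (𝔟 c)) h3
      rw [← map_pow, ← map_pow, h3]
      exact hpr j hj β hβ0
    · intro j hj j' hj' hjj
      simp only [Finset.mem_coe] at hj hj'
      apply hinj
      refine MonoidWithZeroHom.ext fun 𝔞 => ?_
      by_cases hc : IsCoprime 𝔞 𝔣
      · have h𝔞 : 𝔞 ≠ 0 := (hM j).ne_bot_of_coprime hc
        set 𝔞' : (Ideal (𝓞 K))⁰ := ⟨𝔞, mem_nonZeroDivisors_of_ne_zero h𝔞⟩ with h𝔞'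
        set c := (ClassGroup.mk0 𝔞')⁻¹ with hcd
        have h2 : ClassGroup.mk0 (𝔞' * 𝔟 c) = 1 := by
          rw [map_mul, h𝔟2, hcd, mul_inv_cancel]
        rw [ClassGroup.mk0_eq_one_iff] at h2
        obtain ⟨x, hx⟩ := h2
        have h3 : 𝔞 * (𝔟 c : Ideal (𝓞 K)) = Ideal.span {x} := hx
        have hx0 : x ≠ 0 := by
          rintro rfl
          rw [Ideal.span_singleton_eq_bot.mpr rfl] at h3
          exact mul_ne_zero h𝔞 (nonZeroDivisors.coe_ne_zero (𝔟 c)) h3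
        have h4 : ψ j (Ideal.span {x}) = ψ j' (Ideal.span {x}) := by
          rw [hpr j hj x hx0, hpr j' hj' x hx0]
        rw [← h3, map_mul, map_mul] at h4
        have h5 : ψ j (𝔟 c : Ideal (𝓞 K)) = ψ j' (𝔟 c : Ideal (𝓞 K)) := congrFun hjj c
        rw [h5] at h4
        exact mul_right_cancel₀ (((hM j').supp _).2 (h𝔟1 c)) h4
      · have h2 : ∀ j, ψ j 𝔞 = 0 := fun j => by
          by_contra h3
          exact hc (((hM j).supp 𝔞).1 h3)
        rw [h2, h2]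
  refine hcard.trans ?_
  rw [Fintype.card_piFinset]
  calc _ ≤ ∏ _c : ClassGroup (𝓞 K), h := by
        refine Finset.prod_le_prod (fun _ _ => Nat.zero_le _) fun c _ => ?_
        exact (Multiset.toFinset_card_le _).trans (Polynomial.card_nthRoots _ _)
    _ = _ := by rw [Finset.prod_const, Finset.card_univ]

end rep

end Pool.Agent.J4H31.W
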