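import Pool.Agent.J4H31.W.W12
import Pool.Agent.J4H31.U.U17

/-!
The mean square over cosets of Hecke characters with arbitrary infinity types.
-/

set_option autoImplicit false
set_option linter.unusedSectionVars false

open NumberField Complex
open Pool.Agent.Y773 (TPos LI)
open Pool.Agent.Y773.G (cj cj_apply mk_cj rl sg rl_pos_of_TPos rl_cast abs_rl)
open Pool.Agent.Y767 (ax norm_ax ax_mul ax_one ax_ne)
open Pool.Agent.J4H31.U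

namespace Pool.Agent.J4H31.W

variable {K : Type} [Field K] [NumberField K]

/-- **Hecke characters of arbitrary infinity type** -/
theorem toKW {𝔣 : Ideal (𝓞 K)} {ν : InfinitePlace K → ℝ} {l : InfinitePlace K → ℤ}
    {ψ : Ideal (𝓞 K) →*₀ ℂ} (h : IsHA 𝔣 (fun x => ax ν x * ang l x) ψ) (hν : ∑ w, ν w = 0)
    (ht : 𝔣 ≠ ⊤) {M : ℕ} (hM : 1 ≤ M) (hl : ∀ w, (l w).natAbs ≤ M) :
    ∃ (σ : InfinitePlace K → (K →+* ℂ)) (e : InfinitePlace K → ℕ), Sel σ ∧ Ex e ∧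
      (∀ w, e w ≤ M) ∧ IsModK 𝔣 (kp σ e ν) ψ ∧ PrimK 𝔣 (kp σ e ν) ψ ∧
      ∀ x : 𝓞 K, x ≠ 0 → TPos K x → kp σ e ν (x : K) * (ax ν (x : K) * ang l (x : K)) = 1 := by
  classical
  have hinj : ∀ {x : 𝓞 K}, x ≠ 0 → (x : K) ≠ 0 := fun {x} hx => by simpa using hx
  -- the signs
  obtain ⟨e, he1, he2, he3⟩ := sig_genX (𝔣 := 𝔣) h.ne_bot
    (f := fun x => ψ (Ideal.span {x}) * (ax ν (x : K) * ang (lc l) (x : K))⁻¹) (by
      have h1 : ((1 : 𝓞 K) : K) = 1 := map_one (algebraMap (𝓞 K) K)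
      rw [h1, ax_one, ang_one, Ideal.span_singleton_one, ← Ideal.one_eq_top, map_one]
      norm_num) (by
      intro x y hx hy
      rw [span_mul_val, (mul0_type ν (lc l)).coe hx hy, mul_inv]
      ring) (by
      intro x hx hx1 hx2
      rw [h.ray x hx hx1 hx2]
      rw [ang_lc l hx hx2]
      exact mul_inv_cancel₀ (mul_ne_zero (ax_ne _ _) (ang_ne _ (hinj hx))))
  have hS := sel_sl l
  refine ⟨sl l, el' l e, hS, ?_, ?_, ?_, ?_, fun x hx hp => by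
    rw [← type_tpos ν l he2 hx hp]
    exact kp_mul_inv hS _ ν (hinj hx)⟩
  · intro w hw
    unfold el'
    rw [if_pos hw]
    exact he1 w
  · intro w
    unfold el'
    split_ifs
    · exact (he1 w).trans hM
    · exact hl w
  · refine ⟨kap_kp hS _ hν, h.ne_bot, ht, ?_, ?_⟩
    · intro 𝔞
      by_cases h𝔞 : 𝔞 = ⊥
      · have h0 : 𝔞 = 0 := h𝔞
        rw [h𝔞, Ideal.isCoprime_iff_sup_eq, bot_sup_eq]
        rw [← h𝔞, h0, map_zero]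
        exact ⟨fun h1 => absurd rfl h1, fun h1 => absurd h1 ht⟩
      · exact h.supp 𝔞 h𝔞
    · intro x hx hx1
      have h1 := he3 x hx hx1
      have h2 : ax ν (x : K) * ang (lc l) (x : K) ≠ 0 :=
        mul_ne_zero (ax_ne _ _) (ang_ne _ (hinj hx))
      have h3 : ψ (Ideal.span {x}) = us (sl l) (el' l e) (x : K) * ax ν (x : K) := by
        rw [us_eq l he2 (hinj hx), ← h1, mul_assoc, mul_comm (ang (lc l) (x : K)), mul_assoc,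
          inv_mul_cancel₀ h2, mul_one]
      rw [h3, mul_comm]
      exact kp_mul_inv hS _ ν (hinj hx)
  · intro 𝔤 hg hne
    obtain ⟨x, a0, a1, a2, a3, a4⟩ := h.prim 𝔤 hg hne
    refine ⟨x, a1, a3, fun h1 => a4 ?_⟩
    have h2 := kp_mul_inv hS (el' l e) ν (hinj a0)
    have h3 : kp (sl l) (el' l e) ν (x : K) ≠ 0 := left_ne_zero_of_mul_eq_one h2
    have h4 := type_tpos ν l he2 a0 a2
    rw [← h4]
    refine mul_right_cancel₀ h3 ?_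
    rw [h1, mul_comm, h2]

/-- the relation for all integers -/
lemma cos_all {𝔣 𝔞 : Ideal (𝓞 K)} (h𝔞 : 𝔣 ≤ 𝔞) {α α' τ τ' : K → ℂ} {ψ ψ' : Ideal (𝓞 K) →*₀ ℂ}
    (hM : IsModK 𝔣 α ψ) (hM' : IsModK 𝔣 α' ψ')
    (h1 : ∀ x : 𝓞 K, x ≠ 0 → TPos K x → α (x : K) * τ (x : K) = 1)
    (h1' : ∀ x : 𝓞 K, x ≠ 0 → TPos K x → α' (x : K) * τ' (x : K) = 1)
    (h : ∀ x : 𝓞 K, x ≠ 0 → x - 1 ∈ 𝔞 → TPos K x →
      ψ' (Ideal.span {x}) * τ (x : K) = ψ (Ideal.span {x}) * τ' (x : K)) (x : 𝓞 K)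
    (hx : x - 1 ∈ 𝔞) : Pk ψ' α' ⊤ x = Pk ψ α ⊤ x := by
  have ht : (⊤ : Ideal (𝓞 K)) ≠ ⊥ := top_ne_bot
  have hN : 0 < Ideal.absNorm 𝔣 :=
    Nat.pos_of_ne_zero (by rw [Ne, Ideal.absNorm_eq_zero_iff]; exact hM.ne_bot)
  obtain ⟨k, hk1, hk2⟩ := Pool.Agent.Y772.TW.exists_tpos x hN
  set z : 𝓞 K := x + (k : 𝓞 K) * (Ideal.absNorm 𝔣 : 𝓞 K) with hz
  have hzx : z - x ∈ 𝔣 := by
    have : z - x = (k : 𝓞 K) * (Ideal.absNorm 𝔣 : 𝓞 K) := by rw [hz]; ring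
    rw [this]
    exact 𝔣.mul_mem_left _ (Ideal.absNorm_mem 𝔣)
  have hz1 : z - 1 ∈ 𝔞 := by
    have : z - 1 = (z - x) + (x - 1) := by ring
    rw [this]
    exact 𝔞.add_mem (h𝔞 hzx) hx
  have hzx' : z - x ∈ (⊤ : Ideal (𝓞 K)) * 𝔣 := by rw [Ideal.top_mul]; exact hzx
  rw [← hM.per ht hzx', ← hM'.per ht hzx', Pk_of_eq ht (Ideal.mul_top _),
    Pk_of_eq ht (Ideal.mul_top _)]
  have h2 := h z hk2 hz1 hk1
  have h3 := h1 z hk2 hk1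
  have h4 := h1' z hk2 hk1
  have h5 : α' (z : K) * (ψ' (Ideal.span {z}) * τ (z : K)) * α (z : K) =
      α' (z : K) * (ψ (Ideal.span {z}) * τ' (z : K)) * α (z : K) := by rw [h2]
  calc ψ' (Ideal.span {z}) * α' (z : K) =
      (ψ' (Ideal.span {z}) * α' (z : K)) * (α (z : K) * τ (z : K)) := by rw [h3, mul_one]
    _ = α' (z : K) * (ψ' (Ideal.span {z}) * τ (z : K)) * α (z : K) := by ring
    _ = α' (z : K) * (ψ (Ideal.span {z}) * τ' (z : K)) * α (z : K) := h5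
    _ = (α' (z : K) * τ' (z : K)) * (ψ (Ideal.span {z}) * α (z : K)) := by ring
    _ = ψ (Ideal.span {z}) * α (z : K) := by rw [h4, one_mul]

/-- **the mean square over a coset** -/
theorem meanT (K : Type) [Field K] [NumberField K] {M : ℕ} (hM1 : 1 ≤ M) (V T : ℝ) :
    ∃ C : ℝ, 0 < C ∧ ∀ (p : ℕ) (𝔭 : (K →+* ℂ) → Ideal (𝓞 K)) (κ : (K →+* ℂ) → ℕ),
      Sup p 𝔭 κ → 7 ≤ p → (∃ i, κ i ≠ 0) → ∀ (𝔠 : Ideal (𝓞 K)), 𝔠 ≠ ⊥ →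
      IsCoprime 𝔠 (∏ j, 𝔭 j ^ κ j) →
      ∀ k : ℕ, 1 ≤ k → (∀ i, κ i ≤ k) → ∀ a : (K →+* ℂ) → ℕ,
      (∀ i, a i ≤ κ i) → (∀ i, 19 * κ i ≤ 58 * a i) →
      ∀ (S : Finset (Ideal (𝓞 K) →*₀ ℂ)) (ν : (Ideal (𝓞 K) →*₀ ℂ) → InfinitePlace K → ℝ)
      (l : (Ideal (𝓞 K) →*₀ ℂ) → InfinitePlace K → ℤ),
      (∀ ψ ∈ S, (∀ w, |ν ψ w| ≤ V) ∧ (∀ w, (l ψ w).natAbs ≤ M) ∧ (∑ w, ν ψ w = 0) ∧
        IsHA (𝔠 * ∏ j, 𝔭 j ^ κ j) (fun x => ax (ν ψ) x * ang (l ψ) x) ψ) →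
      (∀ ψ ∈ S, ∀ ψ' ∈ S, ∀ x : 𝓞 K, x ≠ 0 → x - 1 ∈ ∏ j, 𝔭 j ^ a j → TPos K x →
        ψ' (Ideal.span {x}) * (ax (ν ψ) (x : K) * ang (l ψ) (x : K)) =
          ψ (Ideal.span {x}) * (ax (ν ψ') (x : K) * ang (l ψ') (x : K))) →
      ∀ F : (Ideal (𝓞 K) →*₀ ℂ) → ℂ → ℂ, (∀ ψ ∈ S, Differentiable ℂ (F ψ)) →
      (∀ ψ ∈ S, ∀ s : ℂ, 1 < s.re → F ψ s = LI ψ s) →
      ∀ t : ℝ, |t| ≤ T → ∑ ψ ∈ S, ‖F ψ (1 / 2 + t * I)‖ ^ 2 ≤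
        C * (Ideal.absNorm 𝔠 : ℝ) ^ 4 * ((p : ℝ) * k) ^ (82 * Module.finrank ℚ K) *
          (p : ℝ) ^ (∑ i, a i) := by
  classical
  obtain ⟨C, hC, H⟩ := meanW K M V T
  obtain ⟨m, hm⟩ := mult_bound K V
  set Θ : Finset ((InfinitePlace K → (K →+* ℂ)) × (InfinitePlace K → ℕ)) :=
    Finset.univ ×ˢ Fintype.piFinset fun _ => Finset.range (M + 1) with hΘ
  refine ⟨(Θ.card : ℝ) * (C * m) + 1, by positivity, ?_⟩
  intro p 𝔭 κ hd hp7 hne 𝔠 h𝔠 hcop k hk hκk a ha1 ha2 S ν l hS hrel F hF hFL t ht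
  set 𝔣 : Ideal (𝓞 K) := 𝔠 * ∏ j, 𝔭 j ^ κ j with h𝔣
  have htop : 𝔣 ≠ ⊤ := by
    obtain ⟨i, hi⟩ := hne
    intro h0
    refine (hd.deg1 i hi).isPrime.ne_top (top_le_iff.1 ?_)
    rw [← h0, h𝔣]
    refine Ideal.mul_le_right.trans ?_
    refine (Ideal.dvd_iff_le.1 (Finset.dvd_prod_of_mem (fun j => 𝔭 j ^ κ j) (Finset.mem_univ i))).trans ?_
    exact Ideal.pow_le_self hi
  have h0 : ∀ ψ, ψ ∈ S → ∃ (σ : InfinitePlace K → (K →+* ℂ)) (e : InfinitePlace K → ℕ),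
      Sel σ ∧ Ex e ∧ (∀ w, e w ≤ M) ∧ IsModK 𝔣 (kp σ e (ν ψ)) ψ ∧ PrimK 𝔣 (kp σ e (ν ψ)) ψ ∧
      ∀ x : 𝓞 K, x ≠ 0 → TPos K x →
        kp σ e (ν ψ) (x : K) * (ax (ν ψ) (x : K) * ang (l ψ) (x : K)) = 1 := by
    intro ψ hψ
    obtain ⟨-, b2, b3, b4⟩ := hS ψ hψ
    exact toKW b4 b3 htop hM1 b2
  choose! σ e hσ he heM hmod hprim hkp using h0
  have hmaps : ∀ ψ ∈ S, (σ ψ, e ψ) ∈ Θ := by
    intro ψ hψ
    rw [hΘ, Finset.mem_product, Fintype.mem_piFinset]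
    refine ⟨Finset.mem_univ _, fun w => ?_⟩
    rw [Finset.mem_range]
    have := heM ψ hψ w
    simp only
    omega
  rw [← Finset.sum_fiberwise_of_maps_to hmaps]
  set Bd : ℝ := (Ideal.absNorm 𝔠 : ℝ) ^ 4 * ((p : ℝ) * k) ^ (82 * Module.finrank ℚ K) *
          (p : ℝ) ^ (∑ i, a i) with hBd
  have hBd0 : 0 ≤ Bd := by positivity
  have hone : ∀ θ ∈ Θ, ∑ ψ ∈ S.filter (fun ψ => (σ ψ, e ψ) = θ), ‖F ψ (1 / 2 + t * I)‖ ^ 2 ≤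
      C * m * Bd := by
    rintro ⟨σ0, e0⟩ -
    rcases (S.filter fun ψ => (σ ψ, e ψ) = (σ0, e0)).eq_empty_or_nonempty with h1 | ⟨ψ0, hψ0⟩
    · rw [h1, Finset.sum_empty]
      positivity
    set S' := S.filter fun ψ => (σ ψ, e ψ) = (σ0, e0) with hS'
    have hmem : ∀ ψ ∈ S', ψ ∈ S ∧ σ ψ = σ0 ∧ e ψ = e0 := by
      intro ψ hψ
      obtain ⟨h2, h3⟩ := Finset.mem_filter.1 hψ
      exact ⟨h2, congrArg Prod.fst h3, congrArg Prod.snd h3⟩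
    obtain ⟨hψ0S, hσ0, he0⟩ := hmem ψ0 hψ0
    have hsel : Sel σ0 := hσ0 ▸ hσ ψ0 hψ0S
    have hex : Ex e0 := he0 ▸ he ψ0 hψ0S
    have he0M : ∀ w, e0 w ≤ M := he0 ▸ heM ψ0 hψ0S
    have hmod' : ∀ ψ ∈ S', IsModK 𝔣 (kp σ0 e0 (ν ψ)) ψ := by
      intro ψ hψ
      obtain ⟨h2, h3, h4⟩ := hmem ψ hψ
      have := hmod ψ h2
      rwa [h3, h4] at this
    have hprim' : ∀ ψ ∈ S', PrimK 𝔣 (kp σ0 e0 (ν ψ)) ψ := by
      intro ψ hψ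
      obtain ⟨h2, h3, h4⟩ := hmem ψ hψ
      have := hprim ψ h2
      rwa [h3, h4] at this
    have hkp' : ∀ ψ ∈ S', ∀ x : 𝓞 K, x ≠ 0 → TPos K x →
        kp σ0 e0 (ν ψ) (x : K) * (ax (ν ψ) (x : K) * ang (l ψ) (x : K)) = 1 := by
      intro ψ hψ
      obtain ⟨h2, h3, h4⟩ := hmem ψ hψ
      have := hkp ψ h2
      rwa [h3, h4] at this
    have hle : 𝔣 ≤ ∏ j, 𝔭 j ^ a j := by
      rw [h𝔣]
      refine Ideal.mul_le_right.trans ?_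
      refine Ideal.dvd_iff_le.1 (Finset.prod_dvd_prod_of_dvd _ _ fun j _ => ?_)
      exact pow_dvd_pow _ (ha1 j)
    have hCos : Cos 𝔣 (∏ j, 𝔭 j ^ a j) (fun j : S' => kp σ0 e0 (ν j.1)) (fun j : S' => j.1) := by
      refine ⟨fun j => hmod' _ j.2, fun j => hprim' _ j.2, fun j j' x hx => ?_⟩
      exact cos_all hle (hmod' _ j.2) (hmod' _ j'.2) (hkp' _ j.2) (hkp' _ j'.2)
        (τ := fun x => ax (ν j.1) x * ang (l j.1) x) (τ' := fun x => ax (ν j'.1) x * ang (l j'.1) x)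
        (fun x hx0 hx1 hx2 => hrel _ (hmem _ j.2).1 _ (hmem _ j'.2).1 x hx0 hx1 hx2) x hx
    have hmult := hm hsel (fun j : S' => hmod' _ j.2)
      (fun j w => (hS _ (hmem _ j.2).1).1 w) (fun j => (hS _ (hmem _ j.2).1).2.2.1)
      Subtype.val_injective
    have h5 := H p 𝔭 κ hd hp7 𝔠 h𝔠 hcop k hk hκk a ha1 ha2 σ0 hsel e0 hex he0M S'
      (fun j => ν j.1) (fun j => j.1) m (fun j w => (hS _ (hmem _ j.2).1).1 w)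
      (fun j => (hS _ (hmem _ j.2).1).2.2.1) hCos hmult (fun j => F j.1)
      (fun j => hF _ (hmem _ j.2).1) (fun j => hFL _ (hmem _ j.2).1) t ht
    rw [← Finset.sum_coe_sort S' (fun ψ => ‖F ψ (1 / 2 + t * I)‖ ^ 2)]
    refine h5.trans (le_of_eq ?_)
    rw [hBd]
    ring
  calc _ ≤ ∑ _θ ∈ Θ, C * m * Bd := Finset.sum_le_sum hone
    _ = (Θ.card : ℝ) * (C * m) * Bd := by
        rw [Finset.sum_const, nsmul_eq_mul]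
        ring
    _ ≤ ((Θ.card : ℝ) * (C * m) + 1) * Bd := by nlinarith
    _ = _ := by rw [hBd]; ring

end Pool.Agent.J4H31.W
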