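import Pool.Agent.J4H31.W.W13

/-!
Ideals all of whose prime factors are unramified of degree one over `p`: enumeration.
-/

set_option autoImplicit false
set_option linter.unusedSectionVars false

open NumberField UniqueFactorizationMonoid

namespace Pool.Agent.J4H31.W

variable {K : Type} [Field K] [NumberField K]

lemma span_p_ne {p : ℕ} (hp : p.Prime) : Ideal.span {(p : 𝓞 K)} ≠ 0 := by
  rw [Ne, Ideal.zero_eq_bot, Ideal.span_singleton_eq_bot]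
  exact_mod_cast hp.ne_zero

open Classical in
/-- the product over the prime factors -/
lemma prod_count {𝔮 : Ideal (𝓞 K)} (h : 𝔮 ≠ 0) {P : Finset (Ideal (𝓞 K))}
    (hP : (normalizedFactors 𝔮).toFinset ⊆ P) :
    ∏ 𝔯 ∈ P, 𝔯 ^ (normalizedFactors 𝔮).count 𝔯 = 𝔮 := by
  have h1 : (normalizedFactors 𝔮).prod = 𝔮 := Ideal.prod_normalizedFactors_eq_self h
  conv_rhs => rw [← h1, Finset.prod_multiset_count]
  refine (Finset.prod_subset hP fun 𝔯 _ h2 => ?_).symm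
  rw [Multiset.mem_toFinset] at h2
  rw [Multiset.count_eq_zero_of_notMem h2, pow_zero]

open Classical in
/-- **enumeration of the prime factors** -/
theorem exists_idx {p k : ℕ} (hp : p.Prime) {𝔮 : Ideal (𝓞 K)} (hne : 𝔮 ≠ ⊤)
    (hd : 𝔮 ∣ Ideal.span {(p : 𝓞 K)} ^ k)
    (hdeg : ∀ 𝔭 : Ideal (𝓞 K), 𝔭.IsPrime → 𝔭 ∣ 𝔮 → Ideal.absNorm 𝔭 = p ∧ (p : 𝓞 K) ∉ 𝔭 ^ 2) :
    ∃ (𝔭 : (K →+* ℂ) → Ideal (𝓞 K)) (κ : (K →+* ℂ) → ℕ), Sup p 𝔭 κ ∧ (∃ i, κ i ≠ 0) ∧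
      (∀ i, κ i ≤ k) ∧ ∏ i, 𝔭 i ^ κ i = 𝔮 ∧ ∀ 𝔞 : Ideal (𝓞 K), 𝔞 ∣ 𝔮 → 𝔮 ^ 19 ∣ 𝔞 ^ 58 →
        ∃ a : (K →+* ℂ) → ℕ, (∀ i, a i ≤ κ i) ∧ (∀ i, 19 * κ i ≤ 58 * a i) ∧
          ∏ i, 𝔭 i ^ a i = 𝔞 := by
  have hspan := span_p_ne (K := K) hp
  have h𝔮0 : 𝔮 ≠ 0 := by
    rintro rfl
    exact pow_ne_zero k hspan (zero_dvd_iff.1 hd)
  set P : Finset (Ideal (𝓞 K)) := (normalizedFactors 𝔮).toFinset with hP
  have hPp : ∀ 𝔯 ∈ P, Prime 𝔯 ∧ 𝔯 ∣ 𝔮 := by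
    intro 𝔯 h𝔯
    rw [hP, Multiset.mem_toFinset] at h𝔯
    exact ⟨prime_of_normalized_factor 𝔯 h𝔯, dvd_of_mem_normalizedFactors h𝔯⟩
  have hdeg1 : ∀ 𝔯 ∈ P, Deg1 p 𝔯 := by
    intro 𝔯 h𝔯
    obtain ⟨h1, h2⟩ := hPp 𝔯 h𝔯
    obtain ⟨h3, h4⟩ := hdeg 𝔯 (Ideal.isPrime_of_prime h1) h2
    exact ⟨hp, h3, h4⟩
  have hcop : ∀ 𝔯 ∈ P, ∀ 𝔰 ∈ P, 𝔯 ≠ 𝔰 → IsCoprime 𝔯 𝔰 := by
    intro 𝔯 h𝔯 𝔰 h𝔰 hne
    have h1 := (hdeg1 𝔯 h𝔯).isMaximal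
    have h2 := (hdeg1 𝔰 h𝔰).isMaximal
    exact Ideal.isCoprime_of_isMaximal hne
  -- the number of prime factors
  have hcard : P.card ≤ Module.finrank ℚ K := by
    have h1 : ∏ 𝔯 ∈ P, 𝔯 ∣ Ideal.span {(p : 𝓞 K)} := by
      refine Finset.prod_dvd_of_coprime (fun 𝔯 h𝔯 𝔰 h𝔰 hne => hcop 𝔯 h𝔯 𝔰 h𝔰 hne) fun 𝔯 h𝔯 => ?_
      exact (hPp 𝔯 h𝔯).1.dvd_of_dvd_pow ((hPp 𝔯 h𝔯).2.trans hd)
    have h2 := map_dvd Ideal.absNorm h1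
    rw [map_prod, Finset.prod_congr rfl fun 𝔯 h𝔯 => (hdeg1 𝔯 h𝔯).norm, Finset.prod_const,
      Pool.Agent.Y773.absNorm_span_nat] at h2
    exact (Nat.pow_dvd_pow_iff_le_right hp.one_lt).1 h2
  have hcard' : Fintype.card P ≤ Fintype.card (K →+* ℂ) := by
    rw [Fintype.card_coe, Pool.Agent.Y773.G.card_emb]
    exact hcard
  obtain ⟨f⟩ := Function.Embedding.nonempty_of_card_le hcard'
  have hf := f.injective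
  set 𝔭 : (K →+* ℂ) → Ideal (𝓞 K) := Function.extend f (fun 𝔯 : P => 𝔯.1) (fun _ => ⊤) with h𝔭
  -- exponents
  set ex : Ideal (𝓞 K) → (K →+* ℂ) → ℕ := fun 𝔞 =>
    Function.extend f (fun 𝔯 : P => (normalizedFactors 𝔞).count 𝔯.1) (fun _ => 0) with hex
  have hex1 : ∀ 𝔞 (𝔯 : P), ex 𝔞 (f 𝔯) = (normalizedFactors 𝔞).count 𝔯.1 := fun 𝔞 𝔯 => by
    simp only [hex]
    rw [hf.extend_apply]
  have hex2 : ∀ 𝔞 i, (∀ 𝔯, f 𝔯 ≠ i) → ex 𝔞 i = 0 := fun 𝔞 i hi => by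
    simp only [hex]
    rw [Function.extend_apply']
    rintro ⟨𝔯, h𝔯⟩
    exact hi 𝔯 h𝔯
  have h𝔭1 : ∀ 𝔯 : P, 𝔭 (f 𝔯) = 𝔯.1 := fun 𝔯 => by
    rw [h𝔭, hf.extend_apply]
  have hprod : ∀ 𝔞 : Ideal (𝓞 K), 𝔞 ≠ 0 → 𝔞 ∣ 𝔮 → ∏ i, 𝔭 i ^ ex 𝔞 i = 𝔞 := by
    intro 𝔞 h𝔞0 h𝔞
    have h1 : ∏ i, 𝔭 i ^ ex 𝔞 i = ∏ 𝔯 : P, 𝔯.1 ^ (normalizedFactors 𝔞).count 𝔯.1 := by
      refine (Fintype.prod_of_injective f hf _ _ (fun i hi => ?_) (fun 𝔯 => ?_)).symm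
      · rw [hex2 𝔞 i fun 𝔯 h => hi ⟨𝔯, h⟩, pow_zero]
      · rw [hex1, h𝔭1]
    rw [h1, Finset.prod_coe_sort P (fun 𝔯 => 𝔯 ^ (normalizedFactors 𝔞).count 𝔯)]
    refine prod_count h𝔞0 ?_
    intro 𝔯 h𝔯
    rw [Multiset.mem_toFinset] at h𝔯
    rw [hP, Multiset.mem_toFinset]
    exact Multiset.mem_of_le ((dvd_iff_normalizedFactors_le_normalizedFactors h𝔞0 h𝔮0).1 h𝔞) h𝔯
  have hcases : ∀ i, (∃ 𝔯, f 𝔯 = i) ∨ ∀ 𝔯, f 𝔯 ≠ i := by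
    intro i
    by_cases h : ∃ 𝔯, f 𝔯 = i
    · exact Or.inl h
    · push Not at h
      exact Or.inr h
  refine ⟨𝔭, ex 𝔮, ⟨hp, ?_, ?_, Pool.Agent.Y773.G.card_emb⟩, ?_, ?_, hprod 𝔮 h𝔮0 dvd_rfl, ?_⟩
  · intro i hi
    rcases hcases i with ⟨𝔯, rfl⟩ | h
    · rw [h𝔭1]
      exact hdeg1 𝔯.1 𝔯.2
    · exact absurd (hex2 𝔮 i h) hi
  · intro i j hi hj hij
    rcases hcases i with ⟨𝔯, rfl⟩ | h
    · rcases hcases j with ⟨𝔰, rfl⟩ | h'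
      · rw [h𝔭1, h𝔭1] at hij
        rw [Subtype.ext hij]
      · exact absurd (hex2 𝔮 j h') hj
    · exact absurd (hex2 𝔮 i h) hi
  · have h1 : ∃ 𝔯, 𝔯 ∈ P := by
      by_contra h
      push Not at h
      have h2 := prod_count h𝔮0 (P := P) (by rw [hP])
      rw [Finset.eq_empty_of_forall_notMem h, Finset.prod_empty, Ideal.one_eq_top] at h2
      exact hne h2.symm
    obtain ⟨𝔯, h𝔯⟩ := h1
    refine ⟨f ⟨𝔯, h𝔯⟩, ?_⟩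
    rw [hex1]
    rw [hP, Multiset.mem_toFinset] at h𝔯
    exact (Multiset.count_pos.2 h𝔯).ne'
  · intro i
    rcases hcases i with ⟨𝔯, rfl⟩ | h
    · rw [hex1]
      have hd1 := hdeg1 𝔯.1 𝔯.2
      obtain ⟨𝔟, h𝔟, hc⟩ := hd1.factor
      have h1 : 𝔯.1 ^ (normalizedFactors 𝔮).count 𝔯.1 ∣ 𝔯.1 ^ k := by
        have h2 : 𝔯.1 ^ (normalizedFactors 𝔮).count 𝔯.1 ∣ 𝔮 := by
          conv_rhs => rw [← prod_count h𝔮0 (P := P) (by rw [hP])]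
          exact Finset.dvd_prod_of_mem (fun 𝔯 => 𝔯 ^ (normalizedFactors 𝔮).count 𝔯) 𝔯.2
        have h3 := h2.trans hd
        rw [h𝔟, mul_pow] at h3
        exact IsCoprime.dvd_of_dvd_mul_right (hc.symm.pow) h3
      have h4 := (Ideal.dvd_iff_le.1 h1)
      have h5 := map_dvd Ideal.absNorm h1
      rw [hd1.norm_pow, hd1.norm_pow] at h5
      exact (Nat.pow_dvd_pow_iff_le_right hp.one_lt).1 h5
    · rw [hex2 𝔮 i h]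
      exact Nat.zero_le _
  · intro 𝔞 h1 h2
    have h𝔞0 : 𝔞 ≠ 0 := by
      rintro rfl
      exact h𝔮0 (zero_dvd_iff.1 h1)
    have h3 := (dvd_iff_normalizedFactors_le_normalizedFactors h𝔞0 h𝔮0).1 h1
    have h4 := (dvd_iff_normalizedFactors_le_normalizedFactors (pow_ne_zero 19 h𝔮0)
      (pow_ne_zero 58 h𝔞0)).1 h2
    rw [normalizedFactors_pow, normalizedFactors_pow] at h4
    refine ⟨ex 𝔞, fun i => ?_, fun i => ?_, hprod 𝔞 h𝔞0 h1⟩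
    · rcases hcases i with ⟨𝔯, rfl⟩ | h
      · rw [hex1, hex1]
        exact Multiset.count_le_of_le _ h3
      · rw [hex2 𝔞 i h]
        exact Nat.zero_le _
    · rcases hcases i with ⟨𝔯, rfl⟩ | h
      · rw [hex1, hex1]
        have h5 := Multiset.count_le_of_le 𝔯.1 h4
        rwa [Multiset.count_nsmul, Multiset.count_nsmul] at h5
      · rw [hex2 𝔮 i h]
        omega

end Pool.Agent.J4H31.W
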