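import Pool.Agent.J4H31.W.W14
import Pool.Agent.Y767.HC.Ext

/-!
Infinity types: they are determined by their values at the totally positive `z ≡ 1`, and one can
prescribe the values at the units.
-/

set_option autoImplicit false
set_option linter.unusedSectionVars false

open NumberField Complex Filter Topology
open NumberField.Units NumberField.Units.dirichletUnitTheorem
open Pool.Agent.Y773 (TPos unE unE_apply)
open Pool.Agent.Y767 (ax norm_ax ax_mul ax_one ax_ne)
open Pool.Agent.J4H31.U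

namespace Pool.Agent.J4H31.W

section det

variable {K : Type} [Field K] [NumberField K]

lemma ang_nat (l : InfinitePlace K → ℤ) {k : ℕ} (hk : 0 < k) : ang l ((k : ℕ) : K) = 1 := by
  unfold ang
  refine Finset.prod_eq_one fun w _ => ?_
  have hk0 : ((k : ℕ) : ℂ) ≠ 0 := by exact_mod_cast hk.ne'
  rw [map_natCast, InfinitePlace.map_natCast]
  push_cast
  rw [div_self hk0, one_zpow]

/-- the values along a line -/
noncomputable def Gl (ν : InfinitePlace K → ℝ) (l : InfinitePlace K → ℤ) (x : K) (s : ℝ) : ℂ :=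
  cexp (I * ((∑ w, ν w * Real.log ‖w.embedding x + (s : ℂ)‖ : ℝ) : ℂ)) *
    ∏ w : InfinitePlace K, ((w.embedding x + (s : ℂ)) / ((‖w.embedding x + (s : ℂ)‖ : ℝ) : ℂ)) ^ l w

lemma Gl_eq (ν : InfinitePlace K → ℝ) (l : InfinitePlace K → ℤ) (x : K) {s : ℝ} {q : K}
    (hq : ∀ w : InfinitePlace K, w.embedding q = (s : ℂ)) :
    Gl ν l x s = ax ν (x + q) * ang l (x + q) := by
  unfold Gl ang Pool.Agent.Y767.ax
  have h1 : ∀ w : InfinitePlace K, w.embedding (x + q) = w.embedding x + (s : ℂ) := fun w => by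
    rw [map_add, hq]
  have h2 : ∀ w : InfinitePlace K, w (x + q) = ‖w.embedding x + (s : ℂ)‖ := fun w => by
    rw [← h1, InfinitePlace.norm_embedding_eq]
  simp_rw [h1, h2]

lemma Gl_cont (ν : InfinitePlace K → ℝ) (l : InfinitePlace K → ℤ) {x : K} (hx : x ≠ 0) :
    ContinuousAt (Gl ν l x) 0 := by
  have h0 : ∀ w : InfinitePlace K, w.embedding x + ((0 : ℝ) : ℂ) ≠ 0 := fun w => by
    rw [Complex.ofReal_zero, add_zero]
    exact (map_ne_zero _).2 hx
  have hc : ∀ w : InfinitePlace K, ContinuousAt (fun s : ℝ => w.embedding x + (s : ℂ)) 0 :=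
    fun w => (continuous_const.add Complex.continuous_ofReal).continuousAt
  have hn : ∀ w : InfinitePlace K, ContinuousAt (fun s : ℝ => ‖w.embedding x + (s : ℂ)‖) 0 :=
    fun w => (hc w).norm
  unfold Gl
  refine ContinuousAt.mul ?_ ?_
  · refine ContinuousAt.cexp (continuousAt_const.mul (Complex.continuous_ofReal.continuousAt.comp ?_))
    refine tendsto_finsetSum _ fun w _ => ?_
    refine ContinuousAt.mul continuousAt_const ?_
    exact (hn w).log (norm_ne_zero_iff.2 (h0 w))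
  · refine tendsto_finsetProd _ fun w _ => ?_
    refine ContinuousAt.zpow₀ ?_ (l w) (Or.inl ?_)
    · refine (hc w).div (Complex.continuous_ofReal.continuousAt.comp (hn w)) ?_
      exact_mod_cast norm_ne_zero_iff.2 (h0 w)
    · refine div_ne_zero (h0 w) ?_
      exact_mod_cast norm_ne_zero_iff.2 (h0 w)

/-- **an infinity type is determined by its values at the totally positive `z ≡ 1`** -/
theorem type_det {𝔣 : Ideal (𝓞 K)} (h𝔣 : 𝔣 ≠ ⊥) {ν : InfinitePlace K → ℝ}
    {l : InfinitePlace K → ℤ} (hν : ∑ w, ν w = 0)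
    (h : ∀ z : 𝓞 K, z ≠ 0 → z - 1 ∈ 𝔣 → TPos K z → ax ν (z : K) * ang l (z : K) = 1)
    {x : 𝓞 K} (hx : x ≠ 0) (hp : TPos K x) : ax ν (x : K) * ang l (x : K) = 1 := by
  have hN : 0 < Ideal.absNorm 𝔣 :=
    Nat.pos_of_ne_zero (by rw [Ne, Ideal.absNorm_eq_zero_iff]; exact h𝔣)
  set N : ℕ := Ideal.absNorm 𝔣 with hNd
  have hxK : (x : K) ≠ 0 := by simpa using hx
  set z : ℕ → 𝓞 K := fun j => 1 + (((j + 1) * N : ℕ) : 𝓞 K) * x with hz
  have hz1 : ∀ j, z j - 1 ∈ 𝔣 := by
    intro j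
    have : z j - 1 = (((j + 1 : ℕ) : 𝓞 K) * x) * (N : 𝓞 K) := by
      simp only [hz]; push_cast; ring
    rw [this]
    exact 𝔣.mul_mem_left _ (Ideal.absNorm_mem 𝔣)
  have hzp : ∀ j, TPos K (z j) := by
    intro j σ
    simp only [hz]
    push_cast
    rw [map_add, map_mul, map_one, map_mul, map_add, map_one, map_natCast, map_natCast]
    have h1 := hp σ
    have h2 : (0 : ℝ) < N := by exact_mod_cast hN
    have h3 : (0 : ℝ) ≤ (j : ℝ) := Nat.cast_nonneg _
    positivity
  have hz0 : ∀ᶠ j in atTop, z j ≠ 0 := by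
    by_cases hc : ∃ j0, z j0 = 0
    · obtain ⟨j0, hj0⟩ := hc
      filter_upwards [eventually_gt_atTop j0] with j hj h1
      have h2 : z j - z j0 = ((((j - j0) * N : ℕ)) : 𝓞 K) * x := by
        simp only [hz]
        have : ((j : ℕ) : 𝓞 K) = ((j - j0 : ℕ) : 𝓞 K) + (j0 : 𝓞 K) := by
          rw [← Nat.cast_add, Nat.sub_add_cancel hj.le]
        push_cast
        rw [this]
        push_cast
        ring
      rw [h1, hj0, sub_zero] at h2
      have h3 : (j - j0) * N ≠ 0 := Nat.mul_ne_zero (by omega) hN.ne'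
      exact mul_ne_zero (by exact_mod_cast h3) hx h2.symm
    · push Not at hc
      exact Eventually.of_forall hc
  -- the limit
  have hlim : Tendsto (fun j : ℕ => (((j + 1 : ℕ) * N : ℝ))⁻¹) atTop (𝓝 0) := by
    have h1 : Tendsto (fun j : ℕ => ((j + 1 : ℕ) : ℝ) * (N : ℝ)) atTop atTop :=
      (tendsto_natCast_atTop_atTop.comp (tendsto_add_atTop_nat 1)).atTop_mul_const
        (by exact_mod_cast hN)
    exact tendsto_inv_atTop_zero.comp h1
  have h1 := (Gl_cont ν l hxK).tendsto.comp hlim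
  have h2 : ∀ᶠ j : ℕ in atTop, (Gl ν l (x : K) ∘ fun j : ℕ => (((j + 1 : ℕ) * N : ℝ))⁻¹) j = 1 := by
    filter_upwards [hz0] with j hj
    simp only [Function.comp_apply]
    have hm : 0 < (j + 1) * N := Nat.mul_pos (by omega) hN
    have hmK : (((j + 1) * N : ℕ) : K) ≠ 0 := by exact_mod_cast hm.ne'
    have h3 : Gl ν l (x : K) (((j + 1 : ℕ) * N : ℝ))⁻¹ =
        ax ν ((x : K) + ((((j + 1) * N : ℕ)) : K)⁻¹) * ang l ((x : K) + ((((j + 1) * N : ℕ)) : K)⁻¹) := by
      refine Gl_eq ν l _ fun w => ?_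
      rw [map_inv₀, map_natCast]
      push_cast
      rfl
    have h4 : ((z j : 𝓞 K) : K) = (((j + 1) * N : ℕ) : K) * ((x : K) + ((((j + 1) * N : ℕ)) : K)⁻¹) := by
      rw [mul_add, mul_inv_cancel₀ hmK]
      simp only [hz]
      push_cast
      ring
    have h5 : (x : K) + ((((j + 1) * N : ℕ)) : K)⁻¹ ≠ 0 := by
      intro h6
      rw [h6, mul_zero] at h4
      exact hj (by simpa using h4)
    have h6 := h (z j) hj (hz1 j) (hzp j)
    rw [h4, ax_mul ν hmK h5, ang_mul l hmK h5, ax_nat hν, ang_nat l hm, one_mul, one_mul] at h6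
    rw [h3, h6]
  have h3 : Tendsto (Gl ν l (x : K) ∘ fun j : ℕ => (((j + 1 : ℕ) * N : ℝ))⁻¹) atTop (𝓝 1) :=
    tendsto_const_nhds.congr' (h2.mono fun j hj => hj.symm)
  have h4 := tendsto_nhds_unique h1 h3
  have h5 : Gl ν l (x : K) 0 = ax ν (x : K) * ang l (x : K) := by
    have h6 := Gl_eq ν l (x : K) (s := 0) (q := 0) (fun w => by rw [map_zero, Complex.ofReal_zero])
    rwa [add_zero] at h6
  rw [← h5, h4]

end det

section units

variable (K : Type) [Field K] [NumberField K]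

/-- the system of linear equations for `ν` -/
noncomputable def DL : (InfinitePlace K → ℝ) →ₗ[ℝ] (ℝ × (Fin (rank K) → ℝ)) where
  toFun δ := (∑ w, δ w, fun i => ∑ w, δ w * Real.log (w ((fundSystem K i : (𝓞 K)ˣ) : K)))
  map_add' p q := by
    refine Prod.ext ?_ ?_
    · simp only [Pi.add_apply, Finset.sum_add_distrib, Prod.fst_add]
    · funext i
      simp only [Pi.add_apply, add_mul, Finset.sum_add_distrib, Prod.snd_add]
  map_smul' c p := by
    refine Prod.ext ?_ ?_
    · simp only [Pi.smul_apply, smul_eq_mul, RingHom.id_apply, Prod.smul_fst, Finset.mul_sum]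
    · funext i
      simp only [Pi.smul_apply, smul_eq_mul, RingHom.id_apply, Prod.smul_snd, Finset.mul_sum,
        mul_assoc]

lemma DL_injective : Function.Injective (DL K) := by
  rw [injective_iff_map_eq_zero]
  intro δ hδ
  have h1 := congrArg Prod.fst hδ
  have h2 := congrArg Prod.snd hδ
  simp only [DL, LinearMap.coe_mk, AddHom.coe_mk, Prod.fst_zero, Prod.snd_zero] at h1 h2
  exact nu_zero h1 fun i => congrFun h2 i

/-- the solution -/
noncomputable def DE : (InfinitePlace K → ℝ) ≃ₗ[ℝ] (ℝ × (Fin (rank K) → ℝ)) :=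
  LinearEquiv.ofInjectiveOfFinrankEq (DL K) (DL_injective K) (by
    rw [Module.finrank_prod, Module.finrank_pi, Module.finrank_pi, Module.finrank_self,
      Fintype.card_fin, rank]
    have : 0 < Fintype.card (InfinitePlace K) := Fintype.card_pos
    omega)

lemma DE_bound : ∃ C : ℝ, ∀ θ : Fin (rank K) → ℝ, (∀ i, |θ i| ≤ Real.pi) →
    ∃ ν : InfinitePlace K → ℝ, (∀ w, |ν w| ≤ C) ∧ ∑ w, ν w = 0 ∧
      ∀ i, ∑ w, ν w * Real.log (w ((fundSystem K i : (𝓞 K)ˣ) : K)) = θ i := by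
  have hc : Continuous fun θ : Fin (rank K) → ℝ => (DE K).symm ((0 : ℝ), θ) := by
    have h1 : Continuous (DE K).symm := (DE K).symm.toLinearMap.continuous_of_finiteDimensional
    exact h1.comp (continuous_const.prodMk continuous_id)
  obtain ⟨C, hC⟩ := (isCompact_Icc (a := fun _ : Fin (rank K) => -Real.pi)
    (b := fun _ => Real.pi)).exists_bound_of_continuousOn hc.continuousOn
  refine ⟨C, fun θ hθ => ⟨(DE K).symm ((0 : ℝ), θ), fun w => ?_, ?_, fun i => ?_⟩⟩
  · have h1 := hC θ ⟨fun i => (abs_le.1 (hθ i)).1, fun i => (abs_le.1 (hθ i)).2⟩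
    exact (norm_le_pi_norm _ w).trans h1
  · have h1 : DL K ((DE K).symm ((0 : ℝ), θ)) = ((0 : ℝ), θ) := (DE K).apply_symm_apply _
    exact congrArg Prod.fst h1
  · have h1 : DL K ((DE K).symm ((0 : ℝ), θ)) = ((0 : ℝ), θ) := (DE K).apply_symm_apply _
    exact congrFun (congrArg Prod.snd h1) i

variable {K}

/-- an infinity type on the units -/
noncomputable def typU (ν : InfinitePlace K → ℝ) (l : InfinitePlace K → ℤ) : (𝓞 K)ˣ →* ℂˣ where
  toFun u := Units.mk0 (ax ν ((u : 𝓞 K) : K) * ang l ((u : 𝓞 K) : K))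
    (mul_ne_zero (ax_ne _ _) (ang_ne _ (by simp)))
  map_one' := by
    ext
    have h1 : ((1 : 𝓞 K) : K) = 1 := map_one (algebraMap (𝓞 K) K)
    simp only [Units.val_mk0, Units.val_one]
    rw [h1, ax_one, ang_one, mul_one]
  map_mul' u v := by
    ext
    simp only [Units.val_mk0, Units.val_mul, map_mul]
    rw [ax_mul ν (by simp) (by simp), ang_mul l (by simp) (by simp)]
    ring

lemma typU_coe (ν : InfinitePlace K → ℝ) (l : InfinitePlace K → ℤ) (u : (𝓞 K)ˣ) :
    ((typU ν l u : ℂˣ) : ℂ) = ax ν ((u : 𝓞 K) : K) * ang l ((u : 𝓞 K) : K) := rfl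

variable (K)

/-- **infinity types with given values at the units** -/
theorem exists_type : ∃ V₀ : ℝ, 1 ≤ V₀ ∧ ∀ χ : (𝓞 K)ˣ →* ℂˣ, (∀ u, ‖((χ u : ℂˣ) : ℂ)‖ = 1) →
    ∃ (ν : InfinitePlace K → ℝ) (l : InfinitePlace K → ℤ), (∀ w, |ν w| ≤ V₀) ∧
      (∀ w, |(l w : ℝ)| ≤ V₀) ∧ ∑ w, ν w = 0 ∧
      ∀ u : (𝓞 K)ˣ, ((χ u : ℂˣ) : ℂ) * (ax ν ((u : 𝓞 K) : K) * ang l ((u : 𝓞 K) : K)) = 1 := by
  classical
  obtain ⟨C, hC⟩ := DE_bound K
  set W : ℕ := Nat.card (torsion K) with hW
  refine ⟨1 + |C| + W, by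
    have := abs_nonneg C
    have : (0 : ℝ) ≤ W := Nat.cast_nonneg _
    linarith, ?_⟩
  intro χ hχ
  obtain ⟨w0⟩ : Nonempty (InfinitePlace K) := inferInstance
  obtain ⟨ζ, hζ⟩ := IsCyclic.exists_generator (α := torsion K)
  -- the embedding of the roots of unity
  set φ : torsion K →* ℂ := ((w0.embedding : K →+* ℂ) : K →* ℂ).comp
    (((algebraMap (𝓞 K) K : 𝓞 K →+* K) : 𝓞 K →* K).comp
      ((Units.coeHom (𝓞 K)).comp (torsion K).subtype)) with hφ
  have hφi : Function.Injective φ := by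
    intro a b hab
    apply Subtype.ext
    apply Units.ext
    have h1 : w0.embedding (((a : (𝓞 K)ˣ) : 𝓞 K) : K) = w0.embedding (((b : (𝓞 K)ˣ) : 𝓞 K) : K) := hab
    have h2 := w0.embedding.injective h1
    exact_mod_cast h2
  have hprim : IsPrimitiveRoot (φ ζ) W := by
    have h1 : IsPrimitiveRoot ζ (orderOf ζ) := IsPrimitiveRoot.orderOf ζ
    rw [orderOf_eq_card_of_forall_mem_zpowers hζ] at h1
    exact h1.map_of_injective hφi
  have hc : (((χ (ζ : (𝓞 K)ˣ) : ℂˣ) : ℂ)⁻¹) ^ W = 1 := by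
    rw [inv_pow, ← Units.val_pow_eq_pow_val, ← map_pow]
    have h1 : ((ζ : torsion K) : (𝓞 K)ˣ) ^ W = 1 := by
      have h2 : ζ ^ W = 1 := pow_card_eq_one'
      have h3 := congrArg Subtype.val h2
      exact h3
    rw [h1, map_one]
    simp
  have hW0 : 0 < W := Nat.card_pos
  have hne : NeZero W := ⟨hW0.ne'⟩
  obtain ⟨i0, hi0, hi0'⟩ := hprim.eq_pow_of_pow_eq_one hc
  set l : InfinitePlace K → ℤ := fun w => if w = w0 then (i0 : ℤ) else 0 with hl
  -- the fundamental units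
  set zz : Fin (rank K) → ℂ := fun i => ((χ (fundSystem K i) : ℂˣ) : ℂ) *
    ang l ((((fundSystem K i : (𝓞 K)ˣ)) : 𝓞 K) : K) with hzz
  have hang : ∀ u : (𝓞 K)ˣ, ‖ang l ((u : 𝓞 K) : K)‖ = 1 := by
    intro u
    unfold ang
    rw [norm_prod]
    refine Finset.prod_eq_one fun w _ => ?_
    rw [norm_zpow, uni_norm w (by simp), one_zpow]
  have hzn : ∀ i, ‖zz i‖ = 1 := fun i => by
    simp only [hzz]
    rw [norm_mul, hχ, hang, mul_one]
  obtain ⟨ν, hν1, hν2, hν3⟩ := hC (fun i => -Complex.arg (zz i)) (fun i => by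
    rw [abs_neg]; exact Complex.abs_arg_le_pi _)
  refine ⟨ν, l, fun w => ?_, fun w => ?_, hν2, ?_⟩
  · have h1 := hν1 w
    have h2 := le_abs_self C
    have : (0 : ℝ) ≤ W := Nat.cast_nonneg _
    linarith
  · simp only [hl]
    have h1 := abs_nonneg C
    have h2 : (i0 : ℝ) ≤ W := by exact_mod_cast hi0.le
    have h3 : (0 : ℝ) ≤ i0 := Nat.cast_nonneg _
    split_ifs
    · push_cast
      rw [abs_of_nonneg h3]
      linarith
    · push_cast
      rw [abs_zero]
      linarith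
  -- generators
  have hg1 : (χ * typU ν l) (ζ : (𝓞 K)ˣ) = 1 := by
    ext
    rw [MonoidHom.mul_apply, Units.val_mul, typU_coe, Units.val_one]
    have hw : ∀ w : InfinitePlace K, w (((ζ : (𝓞 K)ˣ) : 𝓞 K) : K) = 1 := fun w =>
      (mem_torsion K).mp ζ.2 w
    have h1 : ax ν (((ζ : (𝓞 K)ˣ) : 𝓞 K) : K) = 1 := by
      unfold Pool.Agent.Y767.ax
      have : ∑ w, ν w * Real.log (w (((ζ : (𝓞 K)ˣ) : 𝓞 K) : K)) = 0 := by
        refine Finset.sum_eq_zero fun w _ => ?_
        rw [hw, Real.log_one, mul_zero]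
      rw [this]
      simp
    have h2 : ang l (((ζ : (𝓞 K)ˣ) : 𝓞 K) : K) = (φ ζ) ^ i0 := by
      unfold ang
      rw [Finset.prod_eq_single w0]
      · rw [hw]
        simp only [hl, if_true, Complex.ofReal_one, div_one, zpow_natCast]
        rfl
      · intro w _ hw'
        simp only [hl]
        rw [if_neg hw', zpow_zero]
      · intro h3
        exact absurd (Finset.mem_univ _) h3
    rw [h1, h2, hi0', one_mul]
    exact mul_inv_cancel₀ (Units.ne_zero _)
  have hg2 : ∀ i, (χ * typU ν l) (fundSystem K i) = 1 := by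
    intro i
    ext
    rw [MonoidHom.mul_apply, Units.val_mul, typU_coe, Units.val_one]
    have h1 : ax ν ((((fundSystem K i : (𝓞 K)ˣ)) : 𝓞 K) : K) = cexp (-(Complex.arg (zz i) : ℂ) * I) := by
      unfold Pool.Agent.Y767.ax
      rw [hν3 i]
      congr 1
      push_cast
      ring
    have h2 : zz i = cexp ((Complex.arg (zz i) : ℂ) * I) := by
      have h3 := Complex.norm_mul_exp_arg_mul_I (zz i)
      rw [hzn, Complex.ofReal_one, one_mul] at h3
      exact h3.symm
    calc ((χ (fundSystem K i) : ℂˣ) : ℂ) * (ax ν ((((fundSystem K i : (𝓞 K)ˣ)) : 𝓞 K) : K) *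
          ang l ((((fundSystem K i : (𝓞 K)ˣ)) : 𝓞 K) : K)) =
          zz i * ax ν ((((fundSystem K i : (𝓞 K)ˣ)) : 𝓞 K) : K) := by
          simp only [hzz]; ring
      _ = cexp ((Complex.arg (zz i) : ℂ) * I) * cexp (-(Complex.arg (zz i) : ℂ) * I) := by
          rw [h1, ← h2]
      _ = 1 := by
          rw [← Complex.exp_add]
          simp
  intro u
  have hfin : (χ * typU ν l) u = 1 := by
    obtain ⟨⟨ζ', m⟩, hu⟩ := (unE K).surjective u
    rw [← hu, unE_apply, map_mul, map_prod]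
    have h1 : (χ * typU ν l) (ζ' : (𝓞 K)ˣ) = 1 := by
      obtain ⟨j, hj⟩ := hζ ζ'
      have h2 : ((ζ' : torsion K) : (𝓞 K)ˣ) = ((ζ : torsion K) : (𝓞 K)ˣ) ^ j := by
        rw [← hj]; rfl
      rw [h2, map_zpow, hg1, one_zpow]
    rw [h1, one_mul]
    refine Finset.prod_eq_one fun i _ => ?_
    rw [map_zpow, hg2, one_zpow]
  have h1 := congrArg Units.val hfin
  rw [MonoidHom.mul_apply, Units.val_mul, typU_coe, Units.val_one] at h1
  exact h1

end units

end Pool.Agent.J4H31.W
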