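import Pool.Agent.J4H31.W.W15

/-!
The number of members of a coset (upper bound).
-/

set_option autoImplicit false
set_option linter.unusedSectionVars false

open NumberField Complex
open Pool.Agent.Y773 (TPos LI)
open Pool.Agent.Y767 (ax norm_ax ax_mul ax_one ax_ne)
open Pool.Agent.J4H31.U

namespace Pool.Agent.J4H31.W

/-- **the number of members of a coset** -/
theorem countT (K : Type) [Field K] [NumberField K] {M : ℕ} (hM1 : 1 ≤ M) (V : ℝ) :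
    ∃ C : ℝ, 0 < C ∧ ∀ (p : ℕ) (𝔭 : (K →+* ℂ) → Ideal (𝓞 K)) (κ : (K →+* ℂ) → ℕ),
      Sup p 𝔭 κ → (∃ i, κ i ≠ 0) → ∀ (𝔠 : Ideal (𝓞 K)),
      IsCoprime 𝔠 (∏ j, 𝔭 j ^ κ j) → ∀ a : (K →+* ℂ) → ℕ, (∀ i, a i ≤ κ i) →
      ∀ (S : Finset (Ideal (𝓞 K) →*₀ ℂ)) (ν : (Ideal (𝓞 K) →*₀ ℂ) → InfinitePlace K → ℝ)
      (l : (Ideal (𝓞 K) →*₀ ℂ) → InfinitePlace K → ℤ),
      (∀ ψ ∈ S, (∀ w, |ν ψ w| ≤ V) ∧ (∀ w, (l ψ w).natAbs ≤ M) ∧ (∑ w, ν ψ w = 0) ∧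
        IsHA (𝔠 * ∏ j, 𝔭 j ^ κ j) (fun x => ax (ν ψ) x * ang (l ψ) x) ψ) →
      (∀ ψ ∈ S, ∀ ψ' ∈ S, ∀ x : 𝓞 K, x ≠ 0 → x - 1 ∈ ∏ j, 𝔭 j ^ a j → TPos K x →
        ψ' (Ideal.span {x}) * (ax (ν ψ) (x : K) * ang (l ψ) (x : K)) =
          ψ (Ideal.span {x}) * (ax (ν ψ') (x : K) * ang (l ψ') (x : K))) →
      (S.card : ℝ) ≤ C * (p : ℝ) ^ (∑ i, a i) := by
  classical
  obtain ⟨m, hm⟩ := mult_bound K V
  set Θ : Finset ((InfinitePlace K → (K →+* ℂ)) × (InfinitePlace K → ℕ)) :=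
    Finset.univ ×ˢ Fintype.piFinset fun _ => Finset.range (M + 1) with hΘ
  refine ⟨(Θ.card : ℝ) * m + 1, by positivity, ?_⟩
  intro p 𝔭 κ hd hne 𝔠 hcop a ha1 S ν l hS hrel
  set 𝔣 : Ideal (𝓞 K) := 𝔠 * ∏ j, 𝔭 j ^ κ j with h𝔣
  have htop : 𝔣 ≠ ⊤ := by
    obtain ⟨i, hi⟩ := hne
    intro h0
    refine (hd.deg1 i hi).isPrime.ne_top (top_le_iff.1 ?_)
    rw [← h0, h𝔣]
    refine Ideal.mul_le_right.trans ?_
    refine (Ideal.dvd_iff_le.1 (Finset.dvd_prod_of_mem (fun j => 𝔭 j ^ κ j) (Finset.mem_univ i))).trans ?_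
    exact Ideal.pow_le_self hi
  have h0 : ∀ ψ, ψ ∈ S → ∃ (σ : InfinitePlace K → (K →+* ℂ)) (e : InfinitePlace K → ℕ),
      Sel σ ∧ Ex e ∧ (∀ w, e w ≤ M) ∧ IsModK 𝔣 (kp σ e (ν ψ)) ψ ∧ PrimK 𝔣 (kp σ e (ν ψ)) ψ ∧
      ∀ x : 𝓞 K, x ≠ 0 → TPos K x →
        kp σ e (ν ψ) (x : K) * (ax (ν ψ) (x : K) * ang (l ψ) (x : K)) = 1 := by
    intro ψ hψ
    obtain ⟨-, b2, b3, b4⟩ := hS ψ hψ
    exact toKW b4 b3 htop hM1 b2
  choose! σ e hσ he heM hmod hprim hkp using h0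
  have hmaps : ∀ ψ ∈ S, (σ ψ, e ψ) ∈ Θ := by
    intro ψ hψ
    rw [hΘ, Finset.mem_product, Fintype.mem_piFinset]
    refine ⟨Finset.mem_univ _, fun w => ?_⟩
    rw [Finset.mem_range]
    have := heM ψ hψ w
    simp only
    omega
  have hcard := Finset.card_eq_sum_card_fiberwise (fun ψ hψ => hmaps ψ (Finset.mem_coe.1 hψ))
  have hcard' : (S.card : ℝ) =
      ∑ θ ∈ Θ, ((S.filter fun ψ => (σ ψ, e ψ) = θ).card : ℝ) := by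
    rw [hcard]
    push_cast
    rfl
  rw [hcard']
  have hp0 : (0 : ℝ) < p := by exact_mod_cast hd.hp.pos
  set Bd : ℝ := (p : ℝ) ^ (∑ i, a i) with hBd
  have hBd0 : 0 ≤ Bd := by positivity
  have hone : ∀ θ ∈ Θ, ((S.filter fun ψ => (σ ψ, e ψ) = θ).card : ℝ) ≤ m * Bd := by
    rintro ⟨σ0, e0⟩ -
    rcases (S.filter fun ψ => (σ ψ, e ψ) = (σ0, e0)).eq_empty_or_nonempty with h1 | ⟨ψ0, hψ0⟩
    · rw [h1, Finset.card_empty, Nat.cast_zero]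
      positivity
    set S' := S.filter fun ψ => (σ ψ, e ψ) = (σ0, e0) with hS'
    have hmem : ∀ ψ ∈ S', ψ ∈ S ∧ σ ψ = σ0 ∧ e ψ = e0 := by
      intro ψ hψ
      obtain ⟨h2, h3⟩ := Finset.mem_filter.1 hψ
      exact ⟨h2, congrArg Prod.fst h3, congrArg Prod.snd h3⟩
    obtain ⟨hψ0S, hσ0, he0⟩ := hmem ψ0 hψ0
    have hsel : Sel σ0 := hσ0 ▸ hσ ψ0 hψ0S
    have hmod' : ∀ ψ ∈ S', IsModK 𝔣 (kp σ0 e0 (ν ψ)) ψ := by
      intro ψ hψ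
      obtain ⟨h2, h3, h4⟩ := hmem ψ hψ
      have := hmod ψ h2
      rwa [h3, h4] at this
    have hprim' : ∀ ψ ∈ S', PrimK 𝔣 (kp σ0 e0 (ν ψ)) ψ := by
      intro ψ hψ
      obtain ⟨h2, h3, h4⟩ := hmem ψ hψ
      have := hprim ψ h2
      rwa [h3, h4] at this
    have hkp' : ∀ ψ ∈ S', ∀ x : 𝓞 K, x ≠ 0 → TPos K x →
        kp σ0 e0 (ν ψ) (x : K) * (ax (ν ψ) (x : K) * ang (l ψ) (x : K)) = 1 := by
      intro ψ hψ
      obtain ⟨h2, h3, h4⟩ := hmem ψ hψ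
      have := hkp ψ h2
      rwa [h3, h4] at this
    have hle : 𝔣 ≤ ∏ j, 𝔭 j ^ a j := by
      rw [h𝔣]
      refine Ideal.mul_le_right.trans ?_
      refine Ideal.dvd_iff_le.1 (Finset.prod_dvd_prod_of_dvd _ _ fun j _ => ?_)
      exact pow_dvd_pow _ (ha1 j)
    have hCos : Cos 𝔣 (∏ j, 𝔭 j ^ a j) (fun j : S' => kp σ0 e0 (ν j.1)) (fun j : S' => j.1) := by
      refine ⟨fun j => hmod' _ j.2, fun j => hprim' _ j.2, fun j j' x hx => ?_⟩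
      exact cos_all hle (hmod' _ j.2) (hmod' _ j'.2) (hkp' _ j.2) (hkp' _ j'.2)
        (τ := fun x => ax (ν j.1) x * ang (l j.1) x) (τ' := fun x => ax (ν j'.1) x * ang (l j'.1) x)
        (fun x hx0 hx1 hx2 => hrel _ (hmem _ j.2).1 _ (hmem _ j'.2).1 x hx0 hx1 hx2) x hx
    have hmult := hm hsel (fun j : S' => hmod' _ j.2)
      (fun j w => (hS _ (hmem _ j.2).1).1 w) (fun j => (hS _ (hmem _ j.2).1).2.2.1)
      Subtype.val_injective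
    have h5 := card_cosW hd hcop ha1 hCos hmult
    rwa [Fintype.card_coe] at h5
  calc _ ≤ ∑ _θ ∈ Θ, m * Bd := Finset.sum_le_sum hone
    _ = (Θ.card : ℝ) * m * Bd := by
        rw [Finset.sum_const, nsmul_eq_mul]
        ring
    _ ≤ ((Θ.card : ℝ) * m + 1) * Bd := by nlinarith
    _ = _ := by rw [hBd]

end Pool.Agent.J4H31.W
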