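import Pool.Agent.J4H31.W.W16

/-!
Hecke characters with a given restriction to the principal ideals.
-/

set_option autoImplicit false
set_option linter.unusedSectionVars false

open NumberField Complex
open Pool.Agent.Y773 (TPos LI)
open Pool.Agent.Y767 (ax norm_ax ax_mul ax_one ax_ne ext_mon card_dual)
open Pool.Agent.J4H31.U

namespace Pool.Agent.J4H31.W

variable {K : Type} [Field K] [NumberField K]

/-- the nonzero ideals prime to `𝔞` -/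
def Mi (𝔞 : Ideal (𝓞 K)) : Submonoid (Ideal (𝓞 K)) where
  carrier := {𝔟 | 𝔟 ≠ 0 ∧ IsCoprime 𝔟 𝔞}
  mul_mem' hx hy := ⟨mul_ne_zero hx.1 hy.1, IsCoprime.mul_left hx.2 hy.2⟩
  one_mem' := ⟨one_ne_zero, isCoprime_one_left⟩

lemma Mi_cancel (𝔞 : Ideal (𝓞 K)) : IsCancelMul (Mi 𝔞) where
  mul_left_cancel x y z h := by
    apply Subtype.ext
    have h1 := congrArg (Subtype.val) h
    exact mul_left_cancel₀ x.2.1 h1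
  mul_right_cancel x y z h := by
    apply Subtype.ext
    have h1 := congrArg (Subtype.val) h
    exact mul_right_cancel₀ x.2.1 h1

/-- the nonzero integers prime to `𝔞` -/
def Ti (𝔞 : Ideal (𝓞 K)) : Submonoid (𝓞 K) where
  carrier := {x | x ≠ 0 ∧ IsCoprime (Ideal.span {x}) 𝔞}
  mul_mem' hx hy := ⟨mul_ne_zero hx.1 hy.1, by
    rw [← Ideal.span_singleton_mul_span_singleton]
    exact IsCoprime.mul_left hx.2 hy.2⟩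
  one_mem' := ⟨one_ne_zero, by
    rw [Ideal.span_singleton_one, ← Ideal.one_eq_top]
    exact isCoprime_one_left⟩

/-- the principal ideals -/
def pim (𝔞 : Ideal (𝓞 K)) : Ti 𝔞 →* Mi 𝔞 where
  toFun x := ⟨Ideal.span {(x : 𝓞 K)}, by
    rw [Ne, Ideal.zero_eq_bot, Ideal.span_singleton_eq_bot]
    exact x.2.1, x.2.2⟩
  map_one' := by
    apply Subtype.ext
    simp only [Submonoid.coe_one, Ideal.span_singleton_one, Ideal.one_eq_top]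
  map_mul' x y := by
    apply Subtype.ext
    simp only [Submonoid.coe_mul, Ideal.span_singleton_mul_span_singleton]

lemma isUnit_mkI {𝔞 : Ideal (𝓞 K)} {x : 𝓞 K} (h : IsCoprime (Ideal.span {x}) 𝔞) :
    IsUnit (Ideal.Quotient.mk 𝔞 x) := by
  obtain ⟨z, hz⟩ := Pool.Agent.Y772.SG.coprime_iff.1 h
  refine IsUnit.of_mul_eq_one (Ideal.Quotient.mk 𝔞 z) ?_
  rw [← map_mul, ← sub_eq_zero, ← map_one (Ideal.Quotient.mk 𝔞), ← map_sub,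
    Ideal.Quotient.eq_zero_iff_mem]
  exact hz

lemma coprime_mkI {𝔞 : Ideal (𝓞 K)} {x : 𝓞 K} (h : IsUnit (Ideal.Quotient.mk 𝔞 x)) :
    IsCoprime (Ideal.span {x}) 𝔞 := by
  obtain ⟨v, hv⟩ := h.exists_right_inv
  obtain ⟨c, rfl⟩ := Ideal.Quotient.mk_surjective v
  refine Pool.Agent.Y772.SG.coprime_iff.2 ⟨c, ?_⟩
  rw [← Ideal.Quotient.eq_zero_iff_mem, map_sub, map_mul, hv, map_one, sub_self]

/-- the classes -/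
noncomputable def gi (𝔞 : Ideal (𝓞 K)) : Ti 𝔞 →* (𝓞 K ⧸ 𝔞)ˣ where
  toFun x := (isUnit_mkI x.2.2).unit
  map_one' := by
    ext
    change Ideal.Quotient.mk 𝔞 (1 : 𝓞 K) = 1
    exact map_one _
  map_mul' x y := by
    ext
    change Ideal.Quotient.mk 𝔞 ((x : 𝓞 K) * (y : 𝓞 K)) = _
    rw [map_mul]
    rfl

lemma gi_coe {𝔞 : Ideal (𝓞 K)} (x : Ti 𝔞) : ((gi 𝔞 x : (𝓞 K ⧸ 𝔞)ˣ) : 𝓞 K ⧸ 𝔞) =
    Ideal.Quotient.mk 𝔞 (x : 𝓞 K) := rfl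

lemma Ti_ne {𝔞 : Ideal (𝓞 K)} (x : Ti 𝔞) : ((x : 𝓞 K) : K) ≠ 0 := by
  simpa using x.2.1

/-- the infinity type as a character of the integers -/
noncomputable def ti (𝔞 : Ideal (𝓞 K)) (ν : InfinitePlace K → ℝ) (l : InfinitePlace K → ℤ) :
    Ti 𝔞 →* ℂˣ where
  toFun x := Units.mk0 (ax ν ((x : 𝓞 K) : K) * ang l ((x : 𝓞 K) : K))
    ((mul0_type ν l).ne _ (Ti_ne x))
  map_one' := by
    ext
    have h1 : (((1 : Ti 𝔞) : 𝓞 K) : K) = 1 := by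
      rw [Submonoid.coe_one]
      exact map_one (algebraMap (𝓞 K) K)
    simp only [Units.val_mk0, Units.val_one]
    rw [h1, ax_one, ang_one, mul_one]
  map_mul' x y := by
    ext
    simp only [Units.val_mk0, Units.val_mul]
    exact (mul0_type ν l).coe x.2.1 y.2.1

lemma ti_coe (𝔞 : Ideal (𝓞 K)) (ν : InfinitePlace K → ℝ) (l : InfinitePlace K → ℤ) (x : Ti 𝔞) :
    ((ti 𝔞 ν l x : ℂˣ) : ℂ) = ax ν ((x : 𝓞 K) : K) * ang l ((x : 𝓞 K) : K) := rfl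

/-- the units -/
noncomputable def um (𝔞 : Ideal (𝓞 K)) : (𝓞 K)ˣ →* (𝓞 K ⧸ 𝔞)ˣ :=
  Units.map (Ideal.Quotient.mk 𝔞 : 𝓞 K →* 𝓞 K ⧸ 𝔞)

/-- **a character with given restriction to the principal ideals** -/
theorem exists_xi {𝔞 : Ideal (𝓞 K)} (f : (𝓞 K ⧸ 𝔞)ˣ →* ℂˣ) {ν : InfinitePlace K → ℝ}
    {l : InfinitePlace K → ℤ}
    (h : ∀ u : (𝓞 K)ˣ, ((f (um 𝔞 u) : ℂˣ) : ℂ) *
      (ax ν ((u : 𝓞 K) : K) * ang l ((u : 𝓞 K) : K)) = 1) :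
    ∃ ξ : Ideal (𝓞 K) →*₀ ℂ, (∀ 𝔟 : Ideal (𝓞 K), ξ 𝔟 ≠ 0 ↔ 𝔟 ≠ 0 ∧ IsCoprime 𝔟 𝔞) ∧
      ∀ x : Ti 𝔞, ξ (Ideal.span {(x : 𝓞 K)}) = ((f (gi 𝔞 x) : ℂˣ) : ℂ) *
        (ax ν ((x : 𝓞 K) : K) * ang l ((x : 𝓞 K) : K)) := by
  classical
  have hcan := Mi_cancel 𝔞
  obtain ⟨F, hF⟩ := ext_mon (pim 𝔞) (f.comp (gi 𝔞) * ti 𝔞 ν l) (by
    intro a b hab
    have h1 : Ideal.span {(a : 𝓞 K)} = Ideal.span {(b : 𝓞 K)} := congrArg Subtype.val hab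
    rw [Ideal.span_singleton_eq_span_singleton] at h1
    obtain ⟨u, hu⟩ := h1
    ext
    rw [MonoidHom.mul_apply, MonoidHom.mul_apply, MonoidHom.comp_apply, MonoidHom.comp_apply,
      Units.val_mul, Units.val_mul, ti_coe, ti_coe]
    have h2 : gi 𝔞 b = gi 𝔞 a * um 𝔞 u := by
      ext
      rw [Units.val_mul, gi_coe, gi_coe, ← hu, map_mul]
      rfl
    rw [h2, map_mul, Units.val_mul, ← hu, (mul0_type ν l).coe a.2.1 u.ne_zero]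
    linear_combination (-(((f (gi 𝔞 a) : ℂˣ) : ℂ) *
      (ax ν ((a : 𝓞 K) : K) * ang l ((a : 𝓞 K) : K)))) * h u)
  set g : Ideal (𝓞 K) → ℂ := fun 𝔟 =>
    if hb : 𝔟 ∈ Mi 𝔞 then ((F ⟨𝔟, hb⟩ : ℂˣ) : ℂ) else 0 with hg
  have hg1 : ∀ 𝔟 (hb : 𝔟 ∈ Mi 𝔞), g 𝔟 = ((F ⟨𝔟, hb⟩ : ℂˣ) : ℂ) := fun 𝔟 hb => by
    simp only [hg]
    rw [dif_pos hb]
  have hg2 : ∀ 𝔟, 𝔟 ∉ Mi 𝔞 → g 𝔟 = 0 := fun 𝔟 hb => by
    simp only [hg]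
    rw [dif_neg hb]
  refine ⟨⟨⟨g, ?_⟩, ?_, ?_⟩, ?_, ?_⟩
  · exact hg2 _ fun hb => hb.1 rfl
  · change g 1 = 1
    rw [hg1 1 (Mi 𝔞).one_mem]
    have : (⟨1, (Mi 𝔞).one_mem⟩ : Mi 𝔞) = 1 := rfl
    rw [this, map_one, Units.val_one]
  · intro 𝔟 𝔠
    change g (𝔟 * 𝔠) = g 𝔟 * g 𝔠
    by_cases hb : 𝔟 ∈ Mi 𝔞
    · by_cases hc : 𝔠 ∈ Mi 𝔞
      · rw [hg1 _ ((Mi 𝔞).mul_mem hb hc), hg1 _ hb, hg1 _ hc, ← Units.val_mul, ← map_mul]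
        rfl
      · rw [hg2 _ hc, mul_zero]
        refine hg2 _ fun hbc => hc ⟨?_, ?_⟩
        · rintro rfl
          exact hbc.1 (mul_zero _)
        · exact hbc.2.of_mul_left_right
    · rw [hg2 _ hb, zero_mul]
      refine hg2 _ fun hbc => hb ⟨?_, ?_⟩
      · rintro rfl
        exact hbc.1 (zero_mul _)
      · exact hbc.2.of_mul_left_left
  · intro 𝔟
    change g 𝔟 ≠ 0 ↔ _
    by_cases hb : 𝔟 ∈ Mi 𝔞
    · rw [hg1 _ hb]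
      exact ⟨fun _ => hb, fun _ => Units.ne_zero _⟩
    · rw [hg2 _ hb]
      exact ⟨fun h => absurd rfl h, fun h => absurd h hb⟩
  · intro x
    change g (Ideal.span {(x : 𝓞 K)}) = _
    have h1 := hF x
    have h2 : Ideal.span {(x : 𝓞 K)} ∈ Mi 𝔞 := (pim 𝔞 x).2
    have h3 : (⟨Ideal.span {(x : 𝓞 K)}, h2⟩ : Mi 𝔞) = pim 𝔞 x := rfl
    rw [hg1 _ h2, h3, h1, MonoidHom.mul_apply, MonoidHom.comp_apply, Units.val_mul, ti_coe]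

/-- **multiplication by a character of the classes mod `𝔞`** -/
theorem mul_xi {𝔣 𝔞 : Ideal (𝓞 K)} (h𝔞 : 𝔞 ∣ 𝔣)
    (hr : ∀ 𝔯 : Ideal (𝓞 K), 𝔯.IsPrime → 𝔯 ∣ 𝔣 → 𝔞 * 𝔯 ∣ 𝔣)
    {f : (𝓞 K ⧸ 𝔞)ˣ →* ℂˣ} {ν ν' : InfinitePlace K → ℝ} {l l' : InfinitePlace K → ℤ}
    {ψ ξ χ : Ideal (𝓞 K) →*₀ ℂ} (hψ : IsHA 𝔣 (fun x => ax ν' x * ang l' x) ψ)
    (hξ : ∀ 𝔟 : Ideal (𝓞 K), ξ 𝔟 ≠ 0 ↔ 𝔟 ≠ 0 ∧ IsCoprime 𝔟 𝔞)
    (hξ' : ∀ x : Ti 𝔞, ξ (Ideal.span {(x : 𝓞 K)}) = ((f (gi 𝔞 x) : ℂˣ) : ℂ) *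
        (ax ν ((x : 𝓞 K) : K) * ang l ((x : 𝓞 K) : K)))
    (hχ : ∀ 𝔟, χ 𝔟 = ψ 𝔟 * ξ 𝔟) :
    IsHA 𝔣 (fun x => (ax ν' x * ang l' x) * (ax ν x * ang l x)) χ := by
  have hval : ∀ x : 𝓞 K, x ≠ 0 → x - 1 ∈ 𝔞 → ξ (Ideal.span {x}) = ax ν (x : K) * ang l (x : K) := by
    intro x hx hx1
    have hcop : IsCoprime (Ideal.span {x}) 𝔞 :=
      Pool.Agent.Y772.SG.coprime_iff.2 ⟨1, by rwa [mul_one]⟩
    have h1 := hξ' ⟨x, hx, hcop⟩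
    have h2 : gi 𝔞 ⟨x, hx, hcop⟩ = 1 := by
      ext
      rw [gi_coe, Units.val_one, ← map_one (Ideal.Quotient.mk 𝔞)]
      exact (Ideal.Quotient.eq).2 hx1
    rw [h2, map_one, Units.val_one, one_mul] at h1
    exact h1
  have hle : 𝔣 ≤ 𝔞 := Ideal.dvd_iff_le.1 h𝔞
  refine ⟨hψ.ne_bot, ?_, ?_, ?_⟩
  · intro 𝔟 h𝔟
    rw [hχ, mul_ne_zero_iff, hψ.supp 𝔟 h𝔟, hξ]
    constructor
    · exact fun h => h.1
    · intro h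
      obtain ⟨𝔡, h𝔡⟩ := h𝔞
      refine ⟨h, h𝔟, ?_⟩
      rw [h𝔡] at h
      exact h.of_mul_right_left
  · intro x hx hx1 hx2
    rw [hχ, hψ.ray x hx hx1 hx2, hval x hx (hle hx1)]
  · intro 𝔤 hg hne
    obtain ⟨𝔥, hgh⟩ := hg
    have h𝔥 : 𝔥 ≠ ⊤ := by
      rintro rfl
      exact hne (by rw [hgh, ← Ideal.one_eq_top, mul_one])
    obtain ⟨𝔯, hmax, hle'⟩ := Ideal.exists_le_maximal 𝔥 h𝔥
    obtain ⟨𝔥', hh'⟩ := Ideal.dvd_iff_le.mpr hle'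
    have hg' : 𝔣 = 𝔯 * (𝔤 * 𝔥') := by
      rw [hgh, hh']
      ring
    have hr0 : 𝔯 ≠ 0 := by
      rintro rfl
      exact hψ.ne_bot (by rw [hg', zero_mul]; rfl)
    obtain ⟨𝔥'', h2⟩ := hr 𝔯 hmax.isPrime ⟨_, hg'⟩
    have h3 : 𝔤 * 𝔥' = 𝔞 * 𝔥'' := by
      apply mul_left_cancel₀ hr0
      rw [← hg', h2]
      ring
    have h4 : 𝔤 * 𝔥' ≠ 𝔣 := by
      intro h5
      have h6 : 𝔯 * 𝔣 = 1 * 𝔣 := by
        rw [one_mul]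
        conv_rhs => rw [hg', h5]
      have h7 := mul_right_cancel₀ hψ.ne_bot h6
      exact hmax.ne_top (by rw [h7, Ideal.one_eq_top])
    have h5 : 𝔤 * 𝔥' ∣ 𝔣 := Dvd.intro_left 𝔯 hg'.symm
    obtain ⟨x, b0, b1, b2, b3, b4⟩ := hψ.prim (𝔤 * 𝔥') h5 h4
    refine ⟨x, b0, Ideal.mul_le_left b1, b2, b3, ?_⟩
    have b5 : x - 1 ∈ 𝔞 := by
      rw [h3] at b1
      exact Ideal.mul_le_left b1
    rw [hχ, hval x b0 b5]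
    intro h6
    exact b4 (mul_right_cancel₀ ((mul0_type ν l).ne _ (by simpa using b0)) h6)

end Pool.Agent.J4H31.W
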