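import Pool.Agent.J4H31.W.W17

/-!
The number of members of a coset (lower bound).
-/

set_option autoImplicit false
set_option linter.unusedSectionVars false

open NumberField Complex
open Pool.Agent.Y773 (TPos LI)
open Pool.Agent.Y767 (ax norm_ax ax_mul ax_one ax_ne ext_mon card_dual)
open Pool.Agent.J4H31.U

namespace Pool.Agent.J4H31.W

variable {K : Type} [Field K] [NumberField K]

section typ

lemma typ_add (ν ν' : InfinitePlace K → ℝ) (l l' : InfinitePlace K → ℤ) {x : K} (hx : x ≠ 0) :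
    ax (fun w => ν w + ν' w) x * ang (fun w => l w + l' w) x =
      (ax ν x * ang l x) * (ax ν' x * ang l' x) := by
  have h1 : ax (fun w => ν w + ν' w) x = ax ν x * ax ν' x := by
    unfold Pool.Agent.Y767.ax
    rw [← Complex.exp_add]
    congr 1
    rw [← mul_add, ← Complex.ofReal_add, ← Finset.sum_add_distrib]
    congr 2
    exact Finset.sum_congr rfl fun w _ => by ring
  have h2 : ang (fun w => l w + l' w) x = ang l x * ang l' x := by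
    unfold ang
    rw [← Finset.prod_mul_distrib]
    exact Finset.prod_congr rfl fun w _ => zpow_add₀ (uni_ne w hx) _ _
  rw [h1, h2]
  ring

lemma typ_neg (ν : InfinitePlace K → ℝ) (l : InfinitePlace K → ℤ) {x : K} (hx : x ≠ 0) :
    (ax ν x * ang l x) * (ax (fun w => -ν w) x * ang (fun w => -l w) x) = 1 := by
  rw [← typ_add ν (fun w => -ν w) l (fun w => -l w) hx]
  unfold Pool.Agent.Y767.ax ang
  simp

end typ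

/-- representatives of the classes -/
lemma exists_rep {𝔠 𝔮 𝔞 : Ideal (𝓞 K)} (hcop : IsCoprime 𝔠 𝔮) (h0 : 𝔠 * 𝔮 ≠ ⊥) (h𝔞 : 𝔞 ∣ 𝔮)
    (hpow : ∀ 𝔟 : Ideal (𝓞 K), IsCoprime 𝔟 𝔞 → IsCoprime 𝔟 𝔮) (g : (𝓞 K ⧸ 𝔞)ˣ) : ∃ x : Ti 𝔞, gi 𝔞 x = g ∧ TPos K (x : 𝓞 K) ∧
      IsCoprime (Ideal.span {(x : 𝓞 K)}) (𝔠 * 𝔮) := by
  obtain ⟨y, hy⟩ := Ideal.Quotient.mk_surjective (g : 𝓞 K ⧸ 𝔞)
  have hca : IsCoprime 𝔠 𝔞 := by
    obtain ⟨𝔡, h𝔡⟩ := h𝔞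
    rw [h𝔡] at hcop
    exact hcop.of_mul_right_left
  obtain ⟨a, ha, b, hb, hab⟩ := Ideal.isCoprime_iff_exists.1 hca
  have hN : 0 < Ideal.absNorm (𝔠 * 𝔮) :=
    Nat.pos_of_ne_zero (by rw [Ne, Ideal.absNorm_eq_zero_iff]; exact h0)
  obtain ⟨k, hk1, hk2⟩ := Pool.Agent.Y772.TW.exists_tpos (y * a + b) hN
  set x : 𝓞 K := y * a + b + (k : 𝓞 K) * (Ideal.absNorm (𝔠 * 𝔮) : 𝓞 K) with hx
  have hNm := Ideal.absNorm_mem (𝔠 * 𝔮)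
  have hle : 𝔮 ≤ 𝔞 := Ideal.dvd_iff_le.1 h𝔞
  have h1 : x - y ∈ 𝔞 := by
    have : x - y = (1 - y) * b + (k : 𝓞 K) * (Ideal.absNorm (𝔠 * 𝔮) : 𝓞 K) := by
      rw [hx]
      linear_combination y * hab
    rw [this]
    exact 𝔞.add_mem (𝔞.mul_mem_left _ hb) (𝔞.mul_mem_left _ (hle (Ideal.mul_le_right hNm)))
  have h2 : x - 1 ∈ 𝔠 := by
    have : x - 1 = (y - 1) * a + (k : 𝓞 K) * (Ideal.absNorm (𝔠 * 𝔮) : 𝓞 K) := by
      rw [hx]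
      linear_combination hab
    rw [this]
    exact 𝔠.add_mem (𝔠.mul_mem_left _ ha) (𝔠.mul_mem_left _ (Ideal.mul_le_left hNm))
  have h3 : Ideal.Quotient.mk 𝔞 x = (g : 𝓞 K ⧸ 𝔞) := by
    rw [← hy]
    exact (Ideal.Quotient.eq).2 h1
  have h4 : IsCoprime (Ideal.span {x}) 𝔞 := coprime_mkI (by rw [h3]; exact g.isUnit)
  have h5 : IsCoprime (Ideal.span {x}) 𝔠 :=
    Pool.Agent.Y772.SG.coprime_iff.2 ⟨1, by rwa [mul_one]⟩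
  have h6 : IsCoprime (Ideal.span {x}) 𝔮 := hpow _ h4
  refine ⟨⟨x, hk2, h4⟩, ?_, hk1, h5.mul_right h6⟩
  ext
  exact h3

/-- **the characters obtained are different** -/
theorem xi_inj {𝔠 𝔮 𝔞 : Ideal (𝓞 K)} (hcop : IsCoprime 𝔠 𝔮) (h0 : 𝔠 * 𝔮 ≠ ⊥) (h𝔞 : 𝔞 ∣ 𝔮)
    (hpow : ∀ 𝔟 : Ideal (𝓞 K), IsCoprime 𝔟 𝔞 → IsCoprime 𝔟 𝔮) {f f' : (𝓞 K ⧸ 𝔞)ˣ →* ℂˣ} {ν ν' : InfinitePlace K → ℝ}
    {l l' : InfinitePlace K → ℤ} (hν : ∑ w, ν w = 0) (hν' : ∑ w, ν' w = 0)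
    {ψ ξ ξ' : Ideal (𝓞 K) →*₀ ℂ}
    (hψ : ∀ 𝔟 : Ideal (𝓞 K), 𝔟 ≠ ⊥ → (ψ 𝔟 ≠ 0 ↔ IsCoprime 𝔟 (𝔠 * 𝔮)))
    (hξ : ∀ x : Ti 𝔞, ξ (Ideal.span {(x : 𝓞 K)}) = ((f (gi 𝔞 x) : ℂˣ) : ℂ) *
        (ax ν ((x : 𝓞 K) : K) * ang l ((x : 𝓞 K) : K)))
    (hξ' : ∀ x : Ti 𝔞, ξ' (Ideal.span {(x : 𝓞 K)}) = ((f' (gi 𝔞 x) : ℂˣ) : ℂ) *
        (ax ν' ((x : 𝓞 K) : K) * ang l' ((x : 𝓞 K) : K)))
    (h : ∀ 𝔟, ψ 𝔟 * ξ 𝔟 = ψ 𝔟 * ξ' 𝔟) : f = f' := by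
  have hle : 𝔮 ≤ 𝔞 := Ideal.dvd_iff_le.1 h𝔞
  have h1 : ∀ x : Ti 𝔞, IsCoprime (Ideal.span {(x : 𝓞 K)}) (𝔠 * 𝔮) →
      ((f (gi 𝔞 x) : ℂˣ) : ℂ) * (ax ν ((x : 𝓞 K) : K) * ang l ((x : 𝓞 K) : K)) =
      ((f' (gi 𝔞 x) : ℂˣ) : ℂ) * (ax ν' ((x : 𝓞 K) : K) * ang l' ((x : 𝓞 K) : K)) := by
    intro x hx
    rw [← hξ, ← hξ']
    have h2 : ψ (Ideal.span {(x : 𝓞 K)}) ≠ 0 :=
      (hψ _ (by rw [Ne, Ideal.span_singleton_eq_bot]; exact x.2.1)).2 hx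
    exact mul_left_cancel₀ h2 (h _)
  -- the types agree
  have h2 : ∀ x : 𝓞 K, x ≠ 0 → TPos K x →
      ax (fun w => ν w + -ν' w) (x : K) * ang (fun w => l w + -l' w) (x : K) = 1 := by
    intro x hx hp
    refine type_det (𝔣 := 𝔠 * 𝔮) h0 ?_ (fun z hz hz1 hz2 => ?_) hx hp
    · rw [Finset.sum_add_distrib, Finset.sum_neg_distrib, hν, hν', neg_zero, add_zero]
    have hzK : (z : K) ≠ 0 := by simpa using hz
    have hc : IsCoprime (Ideal.span {z}) (𝔠 * 𝔮) :=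
      Pool.Agent.Y772.SG.coprime_iff.2 ⟨1, by rwa [mul_one]⟩
    have hza : z - 1 ∈ 𝔞 := hle (Ideal.mul_le_right hz1)
    have hc' : IsCoprime (Ideal.span {z}) 𝔞 :=
      Pool.Agent.Y772.SG.coprime_iff.2 ⟨1, by rwa [mul_one]⟩
    have h3 := h1 ⟨z, hz, hc'⟩ hc
    have h4 : gi 𝔞 ⟨z, hz, hc'⟩ = 1 := by
      ext
      rw [gi_coe, Units.val_one, ← map_one (Ideal.Quotient.mk 𝔞)]
      exact (Ideal.Quotient.eq).2 hza
    rw [h4, map_one, map_one, Units.val_one, one_mul, one_mul] at h3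
    change ax ν (z : K) * ang l (z : K) = ax ν' (z : K) * ang l' (z : K) at h3
    rw [typ_add ν (fun w => -ν' w) l (fun w => -l' w) hzK, h3, typ_neg ν' l' hzK]
  have h3 : ∀ x : 𝓞 K, x ≠ 0 → TPos K x →
      ax ν (x : K) * ang l (x : K) = ax ν' (x : K) * ang l' (x : K) := by
    intro x hx hp
    have hxK : (x : K) ≠ 0 := by simpa using hx
    have h4 := h2 x hx hp
    rw [typ_add ν (fun w => -ν' w) l (fun w => -l' w) hxK] at h4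
    have h5 := typ_neg ν' l' hxK
    have h6 : ax (fun w => -ν' w) (x : K) * ang (fun w => -l' w) (x : K) ≠ 0 :=
      right_ne_zero_of_mul_eq_one h5
    exact mul_right_cancel₀ h6 (h4.trans h5.symm)
  ext g
  obtain ⟨x, rfl, hx1, hx2⟩ := exists_rep hcop h0 h𝔞 hpow g
  have h4 := h1 x hx2
  rw [h3 _ x.2.1 hx1] at h4
  exact mul_right_cancel₀ ((mul0_type ν' l').ne _ (Ti_ne x)) h4

section card

variable {ι : Type} [Fintype ι] [DecidableEq ι]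

lemma charP_pow {p : ℕ} {𝔭 : Ideal (𝓞 K)} {a : ℕ} (h : a ≠ 0 → Deg1 p 𝔭) :
    CharP (𝓞 K ⧸ 𝔭 ^ a) (p ^ a) where
  cast_eq_zero_iff n := by
    have h1 : ((n : ℕ) : 𝓞 K ⧸ 𝔭 ^ a) = Ideal.Quotient.mk (𝔭 ^ a) (((n : ℕ) : ℤ) : 𝓞 K) := by
      rw [map_intCast, Int.cast_natCast]
    rw [h1, Ideal.Quotient.eq_zero_iff_mem]
    rcases Nat.eq_zero_or_pos a with rfl | ha
    · simp
    · rw [(h (by omega)).int_mem]
      exact_mod_cast Iff.rfl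

/-- **the number of classes prime to `𝔞`** -/
theorem card_units_ge {p : ℕ} {𝔭 : ι → Ideal (𝓞 K)} {κ : ι → ℕ} (h : Sup p 𝔭 κ) {a : ι → ℕ}
    (ha : ∀ i, a i ≤ κ i) :
    ∏ i, (p ^ a i).totient ≤ Nat.card (𝓞 K ⧸ ∏ i, 𝔭 i ^ a i)ˣ := by
  classical
  have hne : ∏ i, 𝔭 i ^ a i ≠ ⊥ := Finset.prod_ne_zero_iff.2 fun i _ => h.pow_ne_bot (ha i)
  have hcop : Pairwise (Function.onFun IsCoprime fun i => 𝔭 i ^ a i) :=
    fun i j hij => h.cop hij (ha i) (ha j)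
  have hprod : ∏ i, 𝔭 i ^ a i = ⨅ i, 𝔭 i ^ a i := by
    rw [Ideal.prod_eq_iInf_of_pairwise_isCoprime fun i _ j _ hij => hcop hij]
    simp
  have hfin : Finite (𝓞 K ⧸ ∏ i, 𝔭 i ^ a i) := Ideal.finiteQuotientOfFreeOfNeBot _ hne
  have hfin' : Finite (𝓞 K ⧸ ∏ i, 𝔭 i ^ a i)ˣ := inferInstance
  have hne' : ∀ i, NeZero (p ^ a i) := fun i => ⟨pow_ne_zero _ h.hp.ne_zero⟩
  have hchar : ∀ i, CharP (𝓞 K ⧸ 𝔭 i ^ a i) (p ^ a i) := fun i =>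
    charP_pow fun h1 => h.deg1 i (by have := ha i; omega)
  set e : (𝓞 K ⧸ ∏ i, 𝔭 i ^ a i) ≃+* ∀ i, 𝓞 K ⧸ 𝔭 i ^ a i :=
    (Ideal.quotEquivOfEq hprod).trans (Ideal.quotientInfRingEquivPiQuotient _ hcop) with he
  set φ : (∀ i, ZMod (p ^ a i)) →+* ∀ i, 𝓞 K ⧸ 𝔭 i ^ a i :=
    RingHom.pi fun i => (ZMod.castHom (dvd_refl (p ^ a i)) (𝓞 K ⧸ 𝔭 i ^ a i)).comp
      (Pi.evalRingHom _ i) with hφ
  have hφi : Function.Injective φ := by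
    intro x y hxy
    funext i
    have h1 := congrFun hxy i
    exact ZMod.castHom_injective _ h1
  set Φ : (∀ i, ZMod (p ^ a i)) →+* (𝓞 K ⧸ ∏ i, 𝔭 i ^ a i) := (e.symm : _ →+* _).comp φ with hΦ
  have hΦi : Function.Injective Φ := e.symm.injective.comp hφi
  have h1 : Function.Injective (Units.map (Φ : (∀ i, ZMod (p ^ a i)) →* (𝓞 K ⧸ ∏ i, 𝔭 i ^ a i))) :=
    Units.map_injective hΦi
  have h2 := Nat.card_le_card_of_injective _ h1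
  refine le_trans (le_of_eq ?_) h2
  rw [Nat.card_congr (MulEquiv.piUnits (M := fun i => ZMod (p ^ a i))).toEquiv, Nat.card_pi]
  refine Finset.prod_congr rfl fun i _ => ?_
  rw [Nat.card_eq_fintype_card, ZMod.card_units_eq_totient]

lemma totient_ge {p a : ℕ} (hp : p.Prime) (hp7 : 7 ≤ p) :
    (6 / 7 : ℝ) * (p : ℝ) ^ a ≤ ((p ^ a).totient : ℝ) := by
  rcases Nat.eq_zero_or_pos a with rfl | ha
  · simp
    norm_num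
  · rw [Nat.totient_prime_pow hp ha]
    have h7 : (7 : ℝ) ≤ p := by exact_mod_cast hp7
    have h1 : (p : ℝ) ^ a = (p : ℝ) ^ (a - 1) * p := by
      rw [← pow_succ]
      congr 1
      omega
    have h2 : (0 : ℝ) ≤ (p : ℝ) ^ (a - 1) := by positivity
    push_cast [Nat.cast_sub hp.one_le]
    rw [h1]
    nlinarith

end card

end Pool.Agent.J4H31.W
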