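import Pool.Agent.J4H31.W.W18

/-!
Many members of a coset.
-/

set_option autoImplicit false
set_option linter.unusedSectionVars false

open NumberField Complex
open Pool.Agent.Y773 (TPos LI)
open Pool.Agent.Y767 (ax norm_ax ax_mul ax_one ax_ne ext_mon card_dual finite_dual)
open Pool.Agent.J4H31.U

namespace Pool.Agent.J4H31.W

lemma norm_dual {G : Type} [CommGroup G] [Finite G] (f : G →* ℂˣ) (g : G) :
    ‖((f g : ℂˣ) : ℂ)‖ = 1 := by
  have h1 : ((f g : ℂˣ) : ℂ) ^ Nat.card G = 1 := by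
    rw [← Units.val_pow_eq_pow_val, ← map_pow, pow_card_eq_one', map_one, Units.val_one]
  have h2 : ‖((f g : ℂˣ) : ℂ)‖ ^ Nat.card G = 1 := by rw [← norm_pow, h1, norm_one]
  exact (pow_eq_one_iff_of_nonneg (norm_nonneg _) Nat.card_pos.ne').1 h2

/-- same prime factors -/
lemma cop_of_pow {K : Type} [Field K] [NumberField K] {𝔮 𝔞 : Ideal (𝓞 K)}
    (hpow : 𝔮 ^ 19 ∣ 𝔞 ^ 58) (𝔟 : Ideal (𝓞 K)) (h : IsCoprime 𝔟 𝔞) : IsCoprime 𝔟 𝔮 := by
  have h7 : IsCoprime 𝔟 (𝔞 ^ 58) := h.pow_right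
  have h8 : IsCoprime 𝔟 (𝔮 ^ 19) := by
    obtain ⟨𝔡, h𝔡⟩ := hpow
    rw [h𝔡] at h7
    exact h7.of_mul_right_left
  exact (IsCoprime.pow_right_iff (by norm_num)).1 h8

end Pool.Agent.J4H31.W
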