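import Pool.Agent.J4H31.W.W1

/-!
The contribution of one type of shifts, with exponents depending on the coordinate.
-/

set_option autoImplicit false
set_option linter.unusedSectionVars false

open MeasureTheory Matrix Complex
open Pool.Agent.Y766.R3 (eu KL FF FH S_PHI S_KLO)
open Pool.Agent.Y766.R7
open Pool.Agent.H442R2
open Pool.Agent.J4H31.V hiding typ_bd
open scoped ENNReal

namespace Pool.Agent.J4H31.W

variable {ι : Type} [Fintype ι] [DecidableEq ι]

open Classical in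
/-- decomposition according to the types of the shifts -/
theorem typesW {p : ℕ} {a c : ι → ℕ} (hac : ∀ i, a i ≤ c i) (B : Matrix ι ι ℝ) (μ : ℝ)
    (W : (ι → ℤ) → ℝ≥0∞) :
    ∑' z : ι → ℤ, wv B μ (pw p a) z * W (cz (pw p a) * z) ≤
      ∑ m ∈ Fintype.piFinset (fun i : ι => Finset.Icc (a i) (c i)), ∑' y : ι → ℤ,
        ENNReal.ofReal (if (∀ i, m i < c i → ¬ (p : ℤ) ∣ y i) ∧ y ≠ 0 then
          gw (B * Dm (ew p m)) μ 0 y else 0) * W (cz (pw p m) * y) := by
  have hex := fun (i : ι) (z : ℤ) => type_exists (p := p) (hac i) z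
  choose m y h1 h2 h3 h4 using hex
  set T : (ι → ℕ) × (ι → ℤ) → ℝ≥0∞ := fun q =>
    if q.1 ∈ Fintype.piFinset (fun i : ι => Finset.Icc (a i) (c i)) then
    ENNReal.ofReal (if (∀ i, q.1 i < c i → ¬ (p : ℤ) ∣ q.2 i) ∧ q.2 ≠ 0 then
          gw (B * Dm (ew p q.1)) μ 0 q.2 else 0) * W (cz (pw p q.1) * q.2) else 0 with hT
  set F : (ι → ℤ) → (ι → ℕ) × (ι → ℤ) := fun z => (fun i => m i (z i), fun i => y i (z i)) with hF
  have hFz : ∀ z : ι → ℤ, z = cz (pw p (fun i => m i (z i) - a i)) * (fun i => y i (z i)) := by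
    intro z
    funext i
    rw [Pi.mul_apply, cz_pw_apply]
    exact h3 i (z i)
  have hinj : Function.Injective F := by
    intro z z' h
    have e1 : (fun i => m i (z i)) = fun i => m i (z' i) := (Prod.mk.inj h).1
    have e2 : (fun i => y i (z i)) = fun i => y i (z' i) := (Prod.mk.inj h).2
    rw [hFz z, hFz z', e2]
    congr 3
    funext i
    rw [congrFun e1 i]
  have hterm : ∀ z : ι → ℤ, wv B μ (pw p a) z * W (cz (pw p a) * z) ≤ T (F z) := by
    intro z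
    unfold wv
    by_cases hz : z = 0
    · rw [if_pos hz, zero_mul]
      exact zero_le
    · rw [if_neg hz]
      have hmem : (F z).1 ∈ Fintype.piFinset (fun i : ι => Finset.Icc (a i) (c i)) := by
        rw [Fintype.mem_piFinset]
        intro i
        rw [Finset.mem_Icc]
        exact ⟨h1 _ _, h2 _ _⟩
      have hcz : cz (pw p a) * z = cz (pw p (F z).1) * (F z).2 := by
        funext i
        rw [Pi.mul_apply, Pi.mul_apply, cz_pw_apply, cz_pw_apply]
        simp only [hF]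
        conv_lhs => rw [h3 i (z i)]
        rw [← mul_assoc, ← pow_add, Nat.add_sub_cancel' (h1 _ _)]
      have hne : (F z).2 ≠ 0 := by
        intro h0
        apply hz
        rw [hFz z]
        have : (fun i => y i (z i)) = 0 := h0
        rw [this, mul_zero]
      simp only [hT]
      rw [if_pos hmem, if_pos ⟨fun i hi => h4 i (z i) hi, hne⟩, hcz, gw_dv, rc_cz_pw]
  calc _ ≤ ∑' z, T (F z) := ENNReal.tsum_le_tsum hterm
    _ ≤ ∑' q, T q := ENNReal.tsum_comp_le_tsum_of_injective hinj T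
    _ = ∑' m, ∑' y, T (m, y) := ENNReal.tsum_prod'
    _ = ∑ m ∈ Fintype.piFinset (fun i : ι => Finset.Icc (a i) (c i)), ∑' y, T (m, y) := by
        refine tsum_eq_sum fun m hm => ?_
        simp only [hT]
        rw [ENNReal.tsum_eq_zero]
        intro y
        rw [if_neg hm]
    _ = _ := by
        refine Finset.sum_congr rfl fun m hm => tsum_congr fun y => ?_
        simp only [hT]
        rw [if_pos hm]

/-- the phase of large shifts has a small period -/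
lemma FF_perW {p ν c ρ : ℕ} (hp : p.Prime) (hcρ : ν ≤ c + ρ) (hρ : ν = 0 ∨ 1 ≤ ρ)
    (χ : DirichletCharacter ℂ (p ^ ν)) (z x k : ℤ) :
    FF χ ((p : ℤ) ^ c * z) (x + (p : ℤ) ^ ρ * k) = FF χ ((p : ℤ) ^ c * z) x := by
  rcases hρ with h0 | h1
  · subst h0
    have hs : Subsingleton (ZMod (p ^ 0)) := by
      rw [pow_zero]
      infer_instance
    unfold FF
    rw [Subsingleton.elim ((x + (p : ℤ) ^ ρ * k + (p : ℤ) ^ c * z : ℤ) : ZMod (p ^ 0))
      ((x + (p : ℤ) ^ c * z : ℤ) : ZMod (p ^ 0)),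
      Subsingleton.elim ((x + (p : ℤ) ^ ρ * k : ℤ) : ZMod (p ^ 0)) ((x : ℤ) : ZMod (p ^ 0))]
  · exact FF_per hp hcρ h1 χ z x k

/-! ### numerology -/

/-- rounding up -/
lemma ceil_exW (X : ℕ) {Y : ℕ} (hY : 1 ≤ Y) : ∃ β, X ≤ Y * β ∧ Y * β < X + Y := by
  refine ⟨(X + Y - 1) / Y, ?_, ?_⟩
  · have h1 := Nat.lt_div_mul_add (a := X + Y - 1) (b := Y) hY
    rw [mul_comm Y]
    omega
  · have h1 := Nat.div_mul_le_self (X + Y - 1) Y
    rw [mul_comm Y]
    omega

/-- the exponents of the shifts -/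
lemma numW {N ν M s x3 β1 β2 β3 mi : ℕ} (hs : s + 3 * M = N) (hs1 : 1 ≤ s) (hx3 : x3 + s = M)
    (h19 : 19 * N ≤ 58 * M) (hν : 30 ≤ ν)
    (h1 : (M + 8 * s) * ν ≤ 3 * N * β1) (h1' : 3 * N * β1 < (M + 8 * s) * ν + 3 * N)
    (h2 : (M + 5 * s) * ν ≤ 3 * N * β2) (h2' : 3 * N * β2 < (M + 5 * s) * ν + 3 * N)
    (h3 : x3 * ν ≤ 3 * N * β3) (h3' : 3 * N * β3 < x3 * ν + 3 * N)
    (hm : 19 * ν ≤ 58 * mi) (hm2 : 2 * mi < ν) :
    1 ≤ β3 ∧ β3 ≤ β2 ∧ β3 ≤ β1 ∧ ν - mi ≤ 7 * β3 ∧ ν - 3 * mi ≤ β3 ∧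
      β1 + β2 + β3 ≤ ν - mi := by
  have hN0 : 0 < N := by omega
  have h3N : 0 < 3 * N := by omega
  have key : ∀ {x y : ℕ}, 3 * N * x < 3 * N * y + 3 * N → x ≤ y := by
    intro x y h
    have h1 : 3 * N * x < 3 * N * (y + 1) := by linarith
    have := Nat.lt_of_mul_lt_mul_left h1
    omega
  have hx12 : x3 ≤ M + 5 * s := by omega
  have hx13 : x3 ≤ M + 8 * s := by omega
  have hx0 : 18 * N ≤ 58 * x3 := by omega
  have g0 : 18 * N * ν ≤ 58 * (x3 * ν) := by
    calc 18 * N * ν ≤ 58 * x3 * ν := Nat.mul_le_mul_right _ hx0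
      _ = _ := by ring
  refine ⟨?_, ?_, ?_, ?_, ?_, ?_⟩
  · rcases Nat.eq_zero_or_pos β3 with h | h
    · subst h
      have : 0 < 18 * N * ν := by positivity
      omega
    · exact h
  · apply key
    have := Nat.mul_le_mul_right ν hx12
    omega
  · apply key
    have := Nat.mul_le_mul_right ν hx13
    omega
  · -- 58 * 3N (ν - m) ≤ 117 N ν ≤ 126 N ν ≤ 58 * 7 * x3 ν ≤ 58 * 3N * 7 β3
    have e1 : 58 * (ν - mi) ≤ 39 * ν := by omega
    have e2 : 3 * N * (58 * (ν - mi)) ≤ 3 * N * (39 * ν) := Nat.mul_le_mul_left _ e1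
    have e3 : 3 * N * (58 * (ν - mi)) ≤ 3 * N * (58 * (7 * β3)) := by
      calc 3 * N * (58 * (ν - mi)) ≤ 3 * N * (39 * ν) := e2
        _ = 117 * (N * ν) := by ring
        _ ≤ 7 * (18 * N * ν) := by nlinarith [Nat.zero_le (N * ν)]
        _ ≤ 7 * (58 * (x3 * ν)) := Nat.mul_le_mul_left _ g0
        _ ≤ 7 * (58 * (3 * N * β3)) := by gcongr
        _ = _ := by ring
    have := Nat.le_of_mul_le_mul_left e3 h3N
    omega
  · have e1 : 58 * (ν - 3 * mi) ≤ ν := by omega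
    have e3 : 3 * N * (58 * (ν - 3 * mi)) ≤ 3 * N * (58 * β3) := by
      calc 3 * N * (58 * (ν - 3 * mi)) ≤ 3 * N * ν := Nat.mul_le_mul_left _ e1
        _ ≤ 18 * N * ν := by nlinarith [Nat.zero_le (N * ν)]
        _ ≤ 58 * (x3 * ν) := g0
        _ ≤ 58 * (3 * N * β3) := by gcongr
        _ = _ := by ring
    have := Nat.le_of_mul_le_mul_left e3 h3N
    omega
  · have hS : 58 * (3 * M + 12 * s) ≤ 69 * N := by omega
    have e1 : 3 * N * (β1 + β2 + β3) < (3 * M + 12 * s) * ν + 9 * N := by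
      have e0 : (M + 8 * s) * ν + (M + 5 * s) * ν + x3 * ν = (3 * M + 12 * s) * ν := by
        rw [← add_mul, ← add_mul]
        congr 1
        omega
      have e2 : 3 * N * (β1 + β2 + β3) = 3 * N * β1 + 3 * N * β2 + 3 * N * β3 := by ring
      omega
    have e2 : ν + 1 ≤ 2 * (ν - mi) := by omega
    have e3 : 3 * N * (ν + 1) ≤ 3 * N * (2 * (ν - mi)) := Nat.mul_le_mul_left _ e2
    have e4 : 58 * ((3 * M + 12 * s) * ν) ≤ 69 * N * ν := by
      calc _ = 58 * (3 * M + 12 * s) * ν := by ring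
        _ ≤ _ := Nat.mul_le_mul_right _ hS
    have e5 : N * 30 ≤ N * ν := Nat.mul_le_mul_left _ hν
    apply key
    have e6 : 3 * N * (2 * (ν - mi)) = 2 * (3 * N * (ν - mi)) := by ring
    have e7 : 69 * N * ν = 69 * (N * ν) := by ring
    have e8 : 3 * N * (ν + 1) = 3 * (N * ν) + 3 * N := by ring
    rw [e7] at e4
    rw [e8] at e3
    rw [e6] at e3
    omega

/-- the sum of the exponents -/
lemma sumW {A : Finset ι} {ν β : ι → ℕ} {N x : ℕ} (hN : N = ∑ i ∈ A, ν i) (hN0 : 0 < N)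
    (hA : A.Nonempty)
    (h : ∀ i ∈ A, x * ν i ≤ 3 * N * β i ∧ 3 * N * β i < x * ν i + 3 * N) :
    x ≤ 3 * ∑ i ∈ A, β i ∧ 3 * ∑ i ∈ A, β i < x + 3 * A.card := by
  have h1 : ∑ i ∈ A, x * ν i ≤ ∑ i ∈ A, 3 * N * β i := Finset.sum_le_sum fun i hi => (h i hi).1
  have h2 : ∑ i ∈ A, 3 * N * β i < ∑ i ∈ A, (x * ν i + 3 * N) :=
    Finset.sum_lt_sum_of_nonempty hA fun i hi => (h i hi).2
  rw [← Finset.mul_sum, ← Finset.mul_sum, ← hN] at h1
  rw [Finset.sum_add_distrib, ← Finset.mul_sum, ← Finset.mul_sum, ← hN, Finset.sum_const,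
    smul_eq_mul] at h2
  constructor
  · have h3 : N * x ≤ N * (3 * ∑ i ∈ A, β i) := by
      calc N * x = x * N := mul_comm _ _
        _ ≤ _ := h1
        _ = _ := by ring
    exact Nat.le_of_mul_le_mul_left h3 hN0
  · have h3 : N * (3 * ∑ i ∈ A, β i) < N * (x + 3 * A.card) := by
      calc N * (3 * ∑ i ∈ A, β i) = 3 * N * ∑ i ∈ A, β i := by ring
        _ < _ := h2
        _ = _ := by ring
    exact Nat.lt_of_mul_lt_mul_left h3

end Pool.Agent.J4H31.W
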