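import Pool.Agent.J4H31.W.W19

/-!
Characters of the classes which avoid given values.
-/

set_option autoImplicit false
set_option linter.unusedSectionVars false

open NumberField Complex
open Pool.Agent.Y773 (TPos LI)
open Pool.Agent.Y767 (ax norm_ax ax_mul ax_one ax_ne ext_mon card_dual finite_dual)
open Pool.Agent.J4H31.U

namespace Pool.Agent.J4H31.W

/-- **characters which avoid given values** -/
lemma shift_count {G : Type} [CommGroup G] [Finite G] {ι : Type} [Fintype ι] [DecidableEq ι]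
    (I : Finset ι) (g : ι → G) (h : ι → (G →* ℂˣ)) (h1 : ∀ i ∈ I, h i (g i) ≠ 1)
    (h2 : ∀ i ∈ I, ∀ j ∈ I, j ≠ i → h i (g j) = 1) (v : ι → ℂ) :
    ∃ S : Finset (G →* ℂˣ), (∀ f ∈ S, ∀ i ∈ I, ((f (g i) : ℂˣ) : ℂ) ≠ v i) ∧
      Nat.card G ≤ S.card * 2 ^ Fintype.card ι := by
  classical
  have hfd := finite_dual G
  have hft : Fintype (G →* ℂˣ) := Fintype.ofFinite _
  set e : (G →* ℂˣ) → ι → Bool := fun f i => decide (((f (g i) : ℂˣ) : ℂ) = v i) with he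
  set sh : (G →* ℂˣ) → (G →* ℂˣ) := fun f => f * ∏ i ∈ I, h i ^ (if e f i = true then 1 else 0)
    with hsh
  have hval : ∀ f, ∀ j ∈ I, sh f (g j) = f (g j) * h j (g j) ^ (if e f j = true then 1 else 0) := by
    intro f j hj
    simp only [hsh]
    rw [MonoidHom.mul_apply, MonoidHom.finsetProd_apply, Finset.prod_eq_single j]
    · rw [MonoidHom.pow_apply]
    · intro i hi hij
      rw [MonoidHom.pow_apply, h2 i hi j hj (Ne.symm hij), one_pow]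
    · intro h
      exact absurd hj h
  refine ⟨Finset.univ.filter fun f => ∀ i ∈ I, ((f (g i) : ℂˣ) : ℂ) ≠ v i,
    fun f hf => (Finset.mem_filter.1 hf).2, ?_⟩
  have h3 : (Finset.univ : Finset (G →* ℂˣ)).card ≤
      ((Finset.univ.filter fun f : G →* ℂˣ => ∀ i ∈ I, ((f (g i) : ℂˣ) : ℂ) ≠ v i) ×ˢ
        (Finset.univ : Finset (ι → Bool))).card := by
    refine Finset.card_le_card_of_injOn (fun f => (sh f, e f)) ?_ ?_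
    · intro f _
      simp only [Finset.coe_product, Finset.coe_univ, Set.mem_prod, Set.mem_univ, and_true,
        Finset.mem_coe, Finset.mem_filter, Finset.mem_univ, true_and]
      intro j hj
      rw [hval f j hj]
      by_cases hc : ((f (g j) : ℂˣ) : ℂ) = v j
      · have h4 : e f j = true := by simp only [he]; exact decide_eq_true hc
        rw [if_pos h4, pow_one, Units.val_mul, hc]
        intro h5
        have h6 : v j ≠ 0 := by rw [← hc]; exact Units.ne_zero _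
        have h7 : ((h j (g j) : ℂˣ) : ℂ) = 1 := by
          refine mul_left_cancel₀ h6 ?_
          rw [h5, mul_one]
        exact h1 j hj (Units.ext h7)
      · have h4 : ¬ e f j = true := by simp only [he]; simpa using hc
        rw [if_neg h4, pow_zero, mul_one]
        exact hc
    · intro f _ f' _ hff
      have h4 : e f = e f' := congrArg Prod.snd hff
      have h5 : sh f = sh f' := congrArg Prod.fst hff
      simp only [hsh] at h5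
      rw [h4] at h5
      exact mul_right_cancel h5
  rw [Finset.card_product, Finset.card_univ, Finset.card_univ, Fintype.card_fun,
    Fintype.card_bool] at h3
  rw [← card_dual, Nat.card_eq_fintype_card]
  exact h3

variable {K : Type} [Field K] [NumberField K]

/-- primitivity from witnesses -/
lemma isHA_of_wit {𝔣 : Ideal (𝓞 K)} {α : K → ℂ} {χ : Ideal (𝓞 K) →*₀ ℂ} (h0 : 𝔣 ≠ ⊥)
    (hs : ∀ 𝔟 : Ideal (𝓞 K), 𝔟 ≠ ⊥ → (χ 𝔟 ≠ 0 ↔ IsCoprime 𝔟 𝔣))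
    (hr : ∀ x : 𝓞 K, x ≠ 0 → x - 1 ∈ 𝔣 → TPos K x → χ (Ideal.span {x}) = α (x : K))
    (hw : ∀ 𝔯 𝔤 : Ideal (𝓞 K), 𝔯.IsPrime → 𝔯 * 𝔤 = 𝔣 → ∃ x : 𝓞 K, x ≠ 0 ∧ x - 1 ∈ 𝔤 ∧
      TPos K x ∧ IsCoprime (Ideal.span {x}) 𝔣 ∧ χ (Ideal.span {x}) ≠ α (x : K)) :
    IsHA 𝔣 α χ := by
  refine ⟨h0, hs, hr, ?_⟩
  intro 𝔤 hg hne
  obtain ⟨𝔥, hgh⟩ := hg
  have h𝔥 : 𝔥 ≠ ⊤ := by
    rintro rfl
    exact hne (by rw [hgh, ← Ideal.one_eq_top, mul_one])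
  obtain ⟨𝔯, hmax, hle'⟩ := Ideal.exists_le_maximal 𝔥 h𝔥
  obtain ⟨𝔥', hh'⟩ := Ideal.dvd_iff_le.mpr hle'
  have hg' : 𝔯 * (𝔤 * 𝔥') = 𝔣 := by
    rw [hgh, hh']
    ring
  obtain ⟨x, b0, b1, b2, b3, b4⟩ := hw 𝔯 (𝔤 * 𝔥') hmax.isPrime hg'
  exact ⟨x, b0, Ideal.mul_le_left b1, b2, b3, b4⟩

section pts

variable {ι : Type} [Fintype ι] [DecidableEq ι]

/-- the test points -/
theorem exists_pts {p : ℕ} {𝔭 : ι → Ideal (𝓞 K)} {κ : ι → ℕ} (h : Sup p 𝔭 κ) (hp3 : 3 ≤ p)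
    {𝔠 : Ideal (𝓞 K)} (hc : IsCoprime 𝔠 (∏ j, 𝔭 j ^ κ j)) (h0 : 𝔠 ≠ ⊥) (i : ι) (hi : κ i ≠ 0) :
    ∃ x : 𝓞 K, x ≠ 0 ∧ TPos K x ∧ IsCoprime (Ideal.span {x}) (𝔠 * ∏ j, 𝔭 j ^ κ j) ∧
      (∀ 𝔤 : Ideal (𝓞 K), 𝔭 i * 𝔤 = 𝔠 * ∏ j, 𝔭 j ^ κ j → x - 1 ∈ 𝔤) ∧
      x - 1 ∉ 𝔭 i ^ κ i ∧ ∀ j, j ≠ i → x - 1 ∈ 𝔭 j ^ κ j := by
  classical
  have hd := h.deg1 i hi
  have h𝔣 : 𝔠 * ∏ j, 𝔭 j ^ κ j ≠ ⊥ := mul_ne_zero h0 h.prod_ne_bot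
  obtain ⟨u, v, hs⟩ := exists_splW h hc
  obtain ⟨hu, hv, huv⟩ := hs.spl i
  have hN : 0 < Ideal.absNorm (𝔠 * ∏ j, 𝔭 j ^ κ j) :=
    Nat.pos_of_ne_zero (by rw [Ne, Ideal.absNorm_eq_zero_iff]; exact h𝔣)
  obtain ⟨k, hk1, hk2⟩ := Pool.Agent.Y772.TW.exists_tpos (1 + (p : 𝓞 K) ^ (κ i - 1) * u i) hN
  set x : 𝓞 K := 1 + (p : 𝓞 K) ^ (κ i - 1) * u i +
    (k : 𝓞 K) * (Ideal.absNorm (𝔠 * ∏ j, 𝔭 j ^ κ j) : 𝓞 K) with hx
  have hNm := Ideal.absNorm_mem (𝔠 * ∏ j, 𝔭 j ^ κ j)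
  have hfac : 𝔭 i * (𝔭 i ^ (κ i - 1) * ciW 𝔭 𝔠 κ i) = 𝔠 * ∏ j, 𝔭 j ^ κ j := by
    rw [← ciW_mul 𝔭 𝔠 κ i, ← mul_assoc, ← pow_succ']
    rw [show κ i - 1 + 1 = κ i by omega]
    ring
  have hfac' : ciW 𝔭 𝔠 κ i * 𝔭 i ^ κ i = 𝔠 * ∏ j, 𝔭 j ^ κ j := ciW_mul 𝔭 𝔠 κ i
  have hle1 : 𝔠 * ∏ j, 𝔭 j ^ κ j ≤ 𝔭 i ^ (κ i - 1) * ciW 𝔭 𝔠 κ i := by
    rw [← hfac]
    exact Ideal.mul_le_right
  have hle2 : 𝔠 * ∏ j, 𝔭 j ^ κ j ≤ 𝔭 i ^ κ i := by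
    rw [← hfac']
    exact Ideal.mul_le_right
  have hx1 : x - 1 ∈ 𝔭 i ^ (κ i - 1) * ciW 𝔭 𝔠 κ i := by
    have e1 : x - 1 = (p : 𝓞 K) ^ (κ i - 1) * u i +
        (k : 𝓞 K) * (Ideal.absNorm (𝔠 * ∏ j, 𝔭 j ^ κ j) : 𝓞 K) := by
      rw [hx]; ring
    rw [e1]
    refine Ideal.add_mem _ (Ideal.mul_mem_mul (Ideal.pow_mem_pow hd.mem _) hu) ?_
    exact Ideal.mul_mem_left _ _ (hle1 hNm)
  have hx2 : x - ((1 + (p : ℤ) ^ (κ i - 1) : ℤ) : 𝓞 K) ∈ 𝔭 i ^ κ i := by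
    have e1 : x - ((1 + (p : ℤ) ^ (κ i - 1) : ℤ) : 𝓞 K) = (p : 𝓞 K) ^ (κ i - 1) * (-1) * v i +
        (k : 𝓞 K) * (Ideal.absNorm (𝔠 * ∏ j, 𝔭 j ^ κ j) : 𝓞 K) := by
      rw [hx]
      push_cast
      linear_combination (p : 𝓞 K) ^ (κ i - 1) * huv
    rw [e1]
    refine Ideal.add_mem _ (Ideal.mul_mem_left _ _ hv) ?_
    exact Ideal.mul_mem_left _ _ (hle2 hNm)
  have hpow1 : 𝔭 i ^ κ i ≤ 𝔭 i := Ideal.pow_le_self hi
  have hxp : x ∉ 𝔭 i := by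
    intro h1
    have h2 : ((1 + (p : ℤ) ^ (κ i - 1) : ℤ) : 𝓞 K) ∈ 𝔭 i ^ 1 := by
      rw [pow_one]
      have e1 : ((1 + (p : ℤ) ^ (κ i - 1) : ℤ) : 𝓞 K) =
          x - (x - ((1 + (p : ℤ) ^ (κ i - 1) : ℤ) : 𝓞 K)) := by ring
      rw [e1]
      exact (𝔭 i).sub_mem h1 (hpow1 hx2)
    rw [hd.int_mem, pow_one] at h2
    rcases Nat.eq_or_lt_of_le (Nat.one_le_iff_ne_zero.2 hi) with h3 | h3
    · rw [← h3] at h2
      norm_num at h2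
      have h4 := Int.le_of_dvd (by norm_num) h2
      omega
    · have h4 : (p : ℤ) ∣ (p : ℤ) ^ (κ i - 1) := dvd_pow_self _ (by omega)
      have h5 : (p : ℤ) ∣ 1 := (Int.dvd_add_left h4).1 h2
      have h6 := Int.le_of_dvd (by norm_num) h5
      omega
  have hci : ciW 𝔭 𝔠 κ i ≤ ciW 𝔭 𝔠 κ i := le_rfl
  have hx3 : x - 1 ∈ ciW 𝔭 𝔠 κ i := Ideal.mul_le_right hx1
  refine ⟨x, hk2, hk1, ?_, ?_, ?_, ?_⟩
  · rw [← hfac']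
    refine IsCoprime.mul_right ?_ ?_
    · exact Pool.Agent.Y772.SG.coprime_iff.2 ⟨1, by rwa [mul_one]⟩
    · refine IsCoprime.pow_right (hd.coprime_of_not_le fun h1 => hxp ?_)
      exact h1 (Ideal.mem_span_singleton_self x)
  · intro 𝔤 hg
    rw [← hfac] at hg
    have h1 : 𝔤 = 𝔭 i ^ (κ i - 1) * ciW 𝔭 𝔠 κ i := mul_left_cancel₀ hd.ne_bot hg
    rw [h1]
    exact hx1
  · intro h1
    have h2 : (((p : ℤ) ^ (κ i - 1) : ℤ) : 𝓞 K) ∈ 𝔭 i ^ κ i := by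
      have e1 : (((p : ℤ) ^ (κ i - 1) : ℤ) : 𝓞 K) =
          (x - 1) - (x - ((1 + (p : ℤ) ^ (κ i - 1) : ℤ) : 𝓞 K)) := by
        push_cast
        ring
      rw [e1]
      exact Ideal.sub_mem _ h1 hx2
    rw [hd.int_mem] at h2
    have h3 := Int.le_of_dvd (by have := hd.hp.pos; positivity) h2
    have h4 : (p : ℤ) ^ (κ i - 1) < (p : ℤ) ^ κ i :=
      pow_lt_pow_right₀ (by exact_mod_cast hd.hp.one_lt) (by omega)
    omega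
  · intro j hj
    have h1 : ciW 𝔭 𝔠 κ i ≤ 𝔭 j ^ κ j := by
      unfold ciW
      refine Ideal.mul_le_right.trans (Ideal.dvd_iff_le.1 ?_)
      exact Finset.dvd_prod_of_mem (fun j => 𝔭 j ^ κ j) (Finset.mem_erase.2 ⟨hj, Finset.mem_univ j⟩)
    exact h1 hx3

end pts

end Pool.Agent.J4H31.W
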