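import Pool.Agent.J4H31.W.W20

/-!
Many primitive characters in a coset; existence of primitive characters.
-/

set_option autoImplicit false
set_option linter.unusedSectionVars false

open NumberField Complex
open Pool.Agent.Y773 (TPos LI)
open Pool.Agent.Y767 (ax norm_ax ax_mul ax_one ax_ne ext_mon card_dual finite_dual)
open Pool.Agent.J4H31.U

namespace Pool.Agent.J4H31.W

section support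

variable {K : Type} [Field K] [NumberField K] {ι : Type} [Fintype ι] [DecidableEq ι]

/-- the prime factors -/
lemma prime_dvd_prod {p : ℕ} {𝔭 : ι → Ideal (𝓞 K)} {κ : ι → ℕ} (h : Sup p 𝔭 κ) {𝔯 : Ideal (𝓞 K)}
    (hr : 𝔯.IsPrime) (hd : 𝔯 ∣ ∏ j, 𝔭 j ^ κ j) : ∃ i, κ i ≠ 0 ∧ 𝔯 = 𝔭 i := by
  have h0 : 𝔯 ≠ ⊥ := by
    rintro rfl
    obtain ⟨w, hw⟩ := hd
    exact h.prod_ne_bot (by rw [hw]; exact Ideal.bot_mul w)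
  have hprime : Prime 𝔯 := Ideal.prime_of_isPrime h0 hr
  obtain ⟨i, -, hi⟩ := (Prime.dvd_finsetProd_iff hprime _).1 hd
  have hκ : κ i ≠ 0 := by
    intro h1
    rw [h1, pow_zero] at hi
    exact hprime.not_isUnit (isUnit_of_dvd_one hi)
  have hi' : 𝔯 ∣ 𝔭 i := hprime.dvd_of_dvd_pow hi
  exact ⟨i, hκ, (((h.deg1 i hκ).isMaximal).eq_of_le hr.ne_top (Ideal.dvd_iff_le.1 hi')).symm⟩

/-- **good characters of the classes** -/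
theorem exists_good {p : ℕ} {𝔭 : ι → Ideal (𝓞 K)} {κ a : ι → ℕ} (h : Sup p 𝔭 κ) (hp3 : 3 ≤ p)
    (ha : ∀ i, a i ≤ κ i) {𝔠 𝔮 𝔞 : Ideal (𝓞 K)} (hq : ∏ j, 𝔭 j ^ κ j = 𝔮)
    (haq : ∏ j, 𝔭 j ^ a j = 𝔞) (hcop : IsCoprime 𝔠 𝔮) (h0 : 𝔠 ≠ ⊥) (v : 𝓞 K → ℂ) :
    ∃ S : Finset ((𝓞 K ⧸ 𝔞)ˣ →* ℂˣ),
      Nat.card (𝓞 K ⧸ 𝔞)ˣ ≤ S.card * 2 ^ Fintype.card ι ∧
      ∀ f ∈ S, ∀ i, κ i ≠ 0 → a i = κ i → ∃ x : Ti 𝔞, TPos K (x : 𝓞 K) ∧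
        IsCoprime (Ideal.span {(x : 𝓞 K)}) (𝔠 * 𝔮) ∧
        (∀ 𝔤 : Ideal (𝓞 K), 𝔭 i * 𝔤 = 𝔠 * 𝔮 → (x : 𝓞 K) - 1 ∈ 𝔤) ∧
        ((f (gi 𝔞 x) : ℂˣ) : ℂ) ≠ v (x : 𝓞 K) := by
  classical
  have hdvd : 𝔞 ∣ 𝔮 := by
    rw [← hq, ← haq]
    exact Finset.prod_dvd_prod_of_dvd _ _ fun j _ => pow_dvd_pow _ (ha j)
  have h𝔞0 : 𝔞 ≠ ⊥ := by
    rw [← haq]
    exact Finset.prod_ne_zero_iff.2 fun i _ => h.pow_ne_bot (ha i)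
  have hfin : Finite (𝓞 K ⧸ 𝔞) := Ideal.finiteQuotientOfFreeOfNeBot _ h𝔞0
  have hfin' : Finite (𝓞 K ⧸ 𝔞)ˣ := inferInstance
  have hex : ∀ i, κ i ≠ 0 → ∃ x : 𝓞 K, x ≠ 0 ∧ TPos K x ∧ IsCoprime (Ideal.span {x}) (𝔠 * 𝔮) ∧
      (∀ 𝔤 : Ideal (𝓞 K), 𝔭 i * 𝔤 = 𝔠 * 𝔮 → x - 1 ∈ 𝔤) ∧
      x - 1 ∉ 𝔭 i ^ κ i ∧ ∀ j, j ≠ i → x - 1 ∈ 𝔭 j ^ κ j :=
    fun i hi => by
      rw [← hq] at hcop ⊢
      exact exists_pts h hp3 hcop h0 i hi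
  have hcopa : ∀ x : 𝓞 K, IsCoprime (Ideal.span {x}) (𝔠 * 𝔮) → IsCoprime (Ideal.span {x}) 𝔞 := by
    intro x hx
    have h1 := hx.of_mul_right_right
    obtain ⟨𝔡, h𝔡⟩ := hdvd
    rw [h𝔡] at h1
    exact h1.of_mul_right_left
  have hex' : ∀ i, ∃ x : Ti 𝔞, κ i ≠ 0 → TPos K (x : 𝓞 K) ∧
      IsCoprime (Ideal.span {(x : 𝓞 K)}) (𝔠 * 𝔮) ∧
      (∀ 𝔤 : Ideal (𝓞 K), 𝔭 i * 𝔤 = 𝔠 * 𝔮 → (x : 𝓞 K) - 1 ∈ 𝔤) ∧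
      (x : 𝓞 K) - 1 ∉ 𝔭 i ^ κ i ∧ ∀ j, j ≠ i → (x : 𝓞 K) - 1 ∈ 𝔭 j ^ κ j := by
    intro i
    by_cases hi : κ i = 0
    · exact ⟨1, fun h1 => absurd hi h1⟩
    · obtain ⟨x, b0, b1, b2, b3, b4, b5⟩ := hex i hi
      exact ⟨⟨x, b0, hcopa x b2⟩, fun _ => ⟨b1, b2, b3, b4, b5⟩⟩
  choose x hx using hex'
  -- the local characters
  have hle : ∀ i, a i = κ i → 𝔞 ≤ 𝔭 i ^ κ i := fun i hi => by
    rw [← hi, ← haq]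
    exact Ideal.dvd_iff_le.1 (Finset.dvd_prod_of_mem (fun j => 𝔭 j ^ a j) (Finset.mem_univ i))
  have hchar : ∀ i, ∃ χ : (𝓞 K ⧸ 𝔞)ˣ →* ℂˣ, κ i ≠ 0 → a i = κ i →
      χ (gi 𝔞 (x i)) ≠ 1 ∧ ∀ j, κ j ≠ 0 → j ≠ i → χ (gi 𝔞 (x j)) = 1 := by
    intro i
    by_cases hi : κ i ≠ 0 ∧ a i = κ i
    · obtain ⟨hi1, hi2⟩ := hi
      have hfi : Finite (𝓞 K ⧸ 𝔭 i ^ κ i) :=
        Ideal.finiteQuotientOfFreeOfNeBot _ (h.pow_ne_bot le_rfl)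
      have hfi' : Finite (𝓞 K ⧸ 𝔭 i ^ κ i)ˣ := inferInstance
      set π : (𝓞 K ⧸ 𝔞)ˣ →* (𝓞 K ⧸ 𝔭 i ^ κ i)ˣ :=
        Units.map ((Ideal.Quotient.factor (hle i hi2) : 𝓞 K ⧸ 𝔞 →+* 𝓞 K ⧸ 𝔭 i ^ κ i) :
          𝓞 K ⧸ 𝔞 →* 𝓞 K ⧸ 𝔭 i ^ κ i) with hπ
      have hπx : ∀ y : Ti 𝔞, ((π (gi 𝔞 y) : (𝓞 K ⧸ 𝔭 i ^ κ i)ˣ) : 𝓞 K ⧸ 𝔭 i ^ κ i) =
          Ideal.Quotient.mk _ (y : 𝓞 K) := fun y => rfl
      have hne : π (gi 𝔞 (x i)) ≠ 1 := by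
        intro h1
        have h2 := congrArg Units.val h1
        rw [hπx, Units.val_one, ← map_one (Ideal.Quotient.mk _)] at h2
        exact (hx i hi1).2.2.2.1 ((Ideal.Quotient.eq).1 h2)
      have : NeZero (Monoid.exponent (𝓞 K ⧸ 𝔭 i ^ κ i)ˣ) := ⟨Monoid.exponent_ne_zero_of_finite⟩
      obtain ⟨χ, hχ⟩ := CommGroup.exists_apply_ne_one_of_hasEnoughRootsOfUnity _ ℂ hne
      refine ⟨χ.comp π, fun _ _ => ⟨hχ, fun j hj hji => ?_⟩⟩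
      have h1 : π (gi 𝔞 (x j)) = 1 := by
        ext
        rw [hπx, Units.val_one, ← map_one (Ideal.Quotient.mk _)]
        exact (Ideal.Quotient.eq).2 ((hx j hj).2.2.2.2 i (Ne.symm hji))
      rw [MonoidHom.comp_apply, h1, map_one]
    · exact ⟨1, fun h1 h2 => absurd ⟨h1, h2⟩ hi⟩
  choose χ hχ using hchar
  obtain ⟨S, hS1, hS2⟩ := shift_count (Finset.univ.filter fun i => κ i ≠ 0 ∧ a i = κ i)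
    (fun i => gi 𝔞 (x i)) χ
    (fun i hi => by
      obtain ⟨-, h1, h2⟩ := Finset.mem_filter.1 hi
      exact (hχ i h1 h2).1)
    (fun i hi j hj hji => by
      obtain ⟨-, h1, h2⟩ := Finset.mem_filter.1 hi
      obtain ⟨-, h3, h4⟩ := Finset.mem_filter.1 hj
      exact (hχ i h1 h2).2 j h3 hji)
    (fun i => v (x i : 𝓞 K))
  refine ⟨S, hS2, fun f hf i hi1 hi2 => ⟨x i, (hx i hi1).1, (hx i hi1).2.1, (hx i hi1).2.2.1, ?_⟩⟩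
  exact hS1 f hf i (Finset.mem_filter.2 ⟨Finset.mem_univ i, hi1, hi2⟩)

end support

end Pool.Agent.J4H31.W
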