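import Pool.Agent.J4H31.W.W21

/-!
Many primitive characters in a coset; existence of primitive characters.
-/

set_option autoImplicit false
set_option linter.unusedSectionVars false

open NumberField Complex
open Pool.Agent.Y773 (TPos LI)
open Pool.Agent.Y767 (ax norm_ax ax_mul ax_one ax_ne ext_mon card_dual finite_dual)
open Pool.Agent.J4H31.U

namespace Pool.Agent.J4H31.W

/-- **many primitive characters** -/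
theorem lowS (K : Type) [Field K] [NumberField K] : ∃ V₀ : ℝ, 1 ≤ V₀ ∧
    ∀ {ι : Type} [Fintype ι] [DecidableEq ι] {p : ℕ} {𝔭 : ι → Ideal (𝓞 K)} {κ a : ι → ℕ},
      Sup p 𝔭 κ → 3 ≤ p → (∀ i, a i ≤ κ i) → ∀ {𝔠 𝔮 𝔞 : Ideal (𝓞 K)}, ∏ j, 𝔭 j ^ κ j = 𝔮 →
      ∏ j, 𝔭 j ^ a j = 𝔞 → IsCoprime 𝔠 𝔮 → 𝔠 ≠ ⊥ →
      (∀ 𝔟 : Ideal (𝓞 K), IsCoprime 𝔟 𝔞 → IsCoprime 𝔟 𝔮) →
      ∀ {ν : InfinitePlace K → ℝ} {l : InfinitePlace K → ℤ} {ψ : Ideal (𝓞 K) →*₀ ℂ},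
      ∑ w, ν w = 0 →
      (∀ 𝔟 : Ideal (𝓞 K), 𝔟 ≠ ⊥ → (ψ 𝔟 ≠ 0 ↔ IsCoprime 𝔟 (𝔠 * 𝔮))) →
      (∀ x : 𝓞 K, x ≠ 0 → x - 1 ∈ 𝔠 * 𝔮 → TPos K x →
        ψ (Ideal.span {x}) = ax ν (x : K) * ang l (x : K)) →
      (∀ 𝔯 𝔤 : Ideal (𝓞 K), 𝔯.IsPrime → 𝔯 * 𝔤 = 𝔠 * 𝔮 →
        (∃ i, κ i ≠ 0 ∧ a i = κ i ∧ 𝔯 = 𝔭 i) ∨ (𝔤 ≤ 𝔞 ∧ ∃ x : 𝓞 K, x ≠ 0 ∧ x - 1 ∈ 𝔤 ∧
          TPos K x ∧ IsCoprime (Ideal.span {x}) (𝔠 * 𝔮) ∧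
          ψ (Ideal.span {x}) ≠ ax ν (x : K) * ang l (x : K))) →
      ∃ S : Finset (Ideal (𝓞 K) →*₀ ℂ), Nat.card (𝓞 K ⧸ 𝔞)ˣ ≤ S.card * 2 ^ Fintype.card ι ∧
        ∀ ψ' ∈ S, ∃ (ν' : InfinitePlace K → ℝ) (l' : InfinitePlace K → ℤ),
          (∀ w, |ν' w| ≤ |ν w| + V₀) ∧
          (∀ w, |(l' w : ℝ)| ≤ |(l w : ℝ)| + V₀) ∧ ∑ w, ν' w = 0 ∧
          IsHA (𝔠 * 𝔮) (fun x => ax ν' x * ang l' x) ψ' ∧
          ∀ x : 𝓞 K, x ≠ 0 → x - 1 ∈ 𝔞 → TPos K x →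
            ψ' (Ideal.span {x}) * (ax ν (x : K) * ang l (x : K)) =
              ψ (Ideal.span {x}) * (ax ν' (x : K) * ang l' (x : K)) := by
  classical
  obtain ⟨V₀, hV₀, H⟩ := exists_type K
  refine ⟨V₀, hV₀, ?_⟩
  intro ι _ _ p 𝔭 κ a h hp3 ha 𝔠 𝔮 𝔞 hq haq hcop h𝔠 hsupp ν l ψ hν hψs hψr hψw
  have h𝔮0 : 𝔮 ≠ ⊥ := by
    rw [← hq]
    exact h.prod_ne_bot
  have h0 : 𝔠 * 𝔮 ≠ ⊥ := mul_ne_zero h𝔠 h𝔮0
  have h𝔞 : 𝔞 ∣ 𝔮 := by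
    rw [← hq, ← haq]
    exact Finset.prod_dvd_prod_of_dvd _ _ fun j _ => pow_dvd_pow _ (ha j)
  have h𝔞0 : 𝔞 ≠ ⊥ := by
    rw [← haq]
    exact Finset.prod_ne_zero_iff.2 fun i _ => h.pow_ne_bot (ha i)
  have hle : 𝔠 * 𝔮 ≤ 𝔞 := Ideal.mul_le_right.trans (Ideal.dvd_iff_le.1 h𝔞)
  have hfin : Finite (𝓞 K ⧸ 𝔞) := Ideal.finiteQuotientOfFreeOfNeBot _ h𝔞0
  have hfin' : Finite (𝓞 K ⧸ 𝔞)ˣ := inferInstance
  -- the types and the characters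
  have h1 : ∀ f : (𝓞 K ⧸ 𝔞)ˣ →* ℂˣ, ∃ (ν' : InfinitePlace K → ℝ) (l' : InfinitePlace K → ℤ)
      (ξ : Ideal (𝓞 K) →*₀ ℂ), (∀ w, |ν' w| ≤ V₀) ∧ (∀ w, |(l' w : ℝ)| ≤ V₀) ∧ ∑ w, ν' w = 0 ∧
      (∀ 𝔟 : Ideal (𝓞 K), ξ 𝔟 ≠ 0 ↔ 𝔟 ≠ 0 ∧ IsCoprime 𝔟 𝔞) ∧
      ∀ x : Ti 𝔞, ξ (Ideal.span {(x : 𝓞 K)}) = ((f (gi 𝔞 x) : ℂˣ) : ℂ) *
        (ax ν' ((x : 𝓞 K) : K) * ang l' ((x : 𝓞 K) : K)) := by
    intro f
    obtain ⟨ν', l', a1, a2, a3, a4⟩ := H (f.comp (um 𝔞)) fun u => norm_dual f _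
    obtain ⟨ξ, a5, a6⟩ := exists_xi f (ν := ν') (l := l') fun u => a4 u
    exact ⟨ν', l', ξ, a1, a2, a3, a5, a6⟩
  choose ν' l' ξ b1 b2 b3 b4 b5 using h1
  have hinj : Function.Injective fun f => ψ * ξ f := by
    intro f f' hff
    refine xi_inj hcop h0 h𝔞 hsupp (b3 f) (b3 f') hψs (b5 f) (b5 f') fun 𝔟 => ?_
    exact DFunLike.congr_fun hff 𝔟
  obtain ⟨S, hS1, hS2⟩ := exists_good h hp3 ha hq haq hcop h𝔠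
    (fun x => (ax ν (x : K) * ang l (x : K)) / ψ (Ideal.span {x}))
  refine ⟨S.image fun f => ψ * ξ f, ?_, ?_⟩
  · rw [Finset.card_image_of_injective _ hinj]
    exact hS1
  intro ψ' hψ'
  obtain ⟨f, hf, rfl⟩ := Finset.mem_image.1 hψ'
  have hval : ∀ x : 𝓞 K, x ≠ 0 → x - 1 ∈ 𝔞 →
      ξ f (Ideal.span {x}) = ax (ν' f) (x : K) * ang (l' f) (x : K) := by
    intro x hx hx1
    have hcop' : IsCoprime (Ideal.span {x}) 𝔞 :=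
      Pool.Agent.Y772.SG.coprime_iff.2 ⟨1, by rwa [mul_one]⟩
    have h1 := b5 f ⟨x, hx, hcop'⟩
    have h2 : gi 𝔞 ⟨x, hx, hcop'⟩ = 1 := by
      ext
      rw [gi_coe, Units.val_one, ← map_one (Ideal.Quotient.mk 𝔞)]
      exact (Ideal.Quotient.eq).2 hx1
    rw [h2, map_one, Units.val_one, one_mul] at h1
    exact h1
  have happ : ∀ 𝔟, (ψ * ξ f) 𝔟 = ψ 𝔟 * ξ f 𝔟 := fun 𝔟 => rfl
  have hHA : IsHA (𝔠 * 𝔮) (fun x => (ax ν x * ang l x) * (ax (ν' f) x * ang (l' f) x))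
      (ψ * ξ f) := by
    refine isHA_of_wit h0 ?_ ?_ ?_
    · intro 𝔟 h𝔟
      rw [happ, mul_ne_zero_iff, hψs 𝔟 h𝔟, b4]
      constructor
      · exact fun h => h.1
      · intro h1
        refine ⟨h1, h𝔟, ?_⟩
        have h2 := h1.of_mul_right_right
        obtain ⟨𝔡, h𝔡⟩ := h𝔞
        rw [h𝔡] at h2
        exact h2.of_mul_right_left
    · intro x hx hx1 hx2
      rw [happ, hψr x hx hx1 hx2, hval x hx (hle hx1)]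
    · intro 𝔯 𝔤 hr hg
      rcases hψw 𝔯 𝔤 hr hg with ⟨i, c1, c2, rfl⟩ | ⟨c1, x, c2, c3, c4, c5, c6⟩
      · obtain ⟨x, d1, d2, d3, d4⟩ := hS2 f hf i c1 c2
        refine ⟨x, x.2.1, d3 𝔤 hg, d1, d2, ?_⟩
        rw [happ, b5 f x]
        intro h2
        apply d4
        have h3 : ψ (Ideal.span {(x : 𝓞 K)}) ≠ 0 :=
          (hψs _ (by rw [Ne, Ideal.span_singleton_eq_bot]; exact x.2.1)).2 d2
        rw [eq_div_iff h3]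
        have h4 := (mul0_type (ν' f) (l' f)).ne _ (Ti_ne x)
        refine mul_right_cancel₀ h4 ?_
        rw [← h2]
        ring
      · refine ⟨x, c2, c3, c4, c5, ?_⟩
        rw [happ, hval x c2 (c1 c3)]
        intro h2
        exact c6 (mul_right_cancel₀ ((mul0_type (ν' f) (l' f)).ne _ (by simpa using c2)) h2)
  refine ⟨fun w => ν w + ν' f w, fun w => l w + l' f w, fun w => ?_, fun w => ?_, ?_, ?_, ?_⟩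
  · exact (abs_add_le _ _).trans (add_le_add le_rfl (b1 f w))
  · push_cast
    exact (abs_add_le _ _).trans (add_le_add le_rfl (b2 f w))
  · rw [Finset.sum_add_distrib, hν, b3, add_zero]
  · refine hHA.congr fun x hx _ => ?_
    rw [typ_add ν (ν' f) l (l' f) (by simpa using hx)]
  · intro x hx hx1 _
    rw [typ_add ν (ν' f) l (l' f) (by simpa using hx), happ, hval x hx hx1]
    ring

section cases

variable {K : Type} [Field K] [NumberField K] {ι : Type} [Fintype ι] [DecidableEq ι]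

/-- the hypothesis for a primitive character -/
lemma wit_prim {p : ℕ} {𝔭 : ι → Ideal (𝓞 K)} {κ a : ι → ℕ} (h : Sup p 𝔭 κ)
    (ha : ∀ i, a i ≤ κ i) {𝔠 𝔮 𝔞 : Ideal (𝓞 K)} (hq : ∏ j, 𝔭 j ^ κ j = 𝔮)
    (haq : ∏ j, 𝔭 j ^ a j = 𝔞) {α : K → ℂ} {ψ : Ideal (𝓞 K) →*₀ ℂ} (hψ : IsHA (𝔠 * 𝔮) α ψ)
    (𝔯 𝔤 : Ideal (𝓞 K)) (hr : 𝔯.IsPrime) (hg : 𝔯 * 𝔤 = 𝔠 * 𝔮) :
    (∃ i, κ i ≠ 0 ∧ a i = κ i ∧ 𝔯 = 𝔭 i) ∨ (𝔤 ≤ 𝔞 ∧ ∃ x : 𝓞 K, x ≠ 0 ∧ x - 1 ∈ 𝔤 ∧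
          TPos K x ∧ IsCoprime (Ideal.span {x}) (𝔠 * 𝔮) ∧ ψ (Ideal.span {x}) ≠ α (x : K)) := by
  have h0 := hψ.ne_bot
  have hr0 : 𝔯 ≠ 0 := by
    rintro rfl
    exact h0 (by rw [← hg]; exact Ideal.bot_mul _)
  have hg0 : 𝔤 ≠ 0 := by
    rintro rfl
    exact h0 (by rw [← hg]; exact Ideal.mul_bot _)
  have h𝔞 : 𝔞 ∣ 𝔮 := by
    rw [← hq, ← haq]
    exact Finset.prod_dvd_prod_of_dvd _ _ fun j _ => pow_dvd_pow _ (ha j)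
  have hprime : Prime 𝔯 := Ideal.prime_of_isPrime hr0 hr
  by_cases hi : ∃ i, κ i ≠ 0 ∧ a i = κ i ∧ 𝔯 = 𝔭 i
  · exact Or.inl hi
  right
  constructor
  · have h1 : 𝔯 * 𝔞 ∣ 𝔯 * 𝔤 := by
      rw [hg]
      have h2 : 𝔯 ∣ 𝔠 * 𝔮 := ⟨𝔤, hg.symm⟩
      rcases hprime.dvd_or_dvd h2 with h3 | h3
      · exact mul_dvd_mul h3 h𝔞
      · rw [← hq] at h3
        obtain ⟨i, hi1, hi2⟩ := prime_dvd_prod h hr h3
        have hi3 : a i ≠ κ i := fun h4 => hi ⟨i, hi1, h4, hi2⟩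
        have hi4 : a i + 1 ≤ κ i := by have := ha i; omega
        refine Dvd.dvd.mul_left ?_ 𝔠
        rw [hi2, ← hq, ← haq, ← Finset.mul_prod_erase _ _ (Finset.mem_univ i),
          ← Finset.mul_prod_erase _ (fun j => 𝔭 j ^ κ j) (Finset.mem_univ i), ← mul_assoc,
          ← pow_succ']
        exact mul_dvd_mul (pow_dvd_pow _ hi4)
          (Finset.prod_dvd_prod_of_dvd _ _ fun j _ => pow_dvd_pow _ (ha j))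
    exact Ideal.dvd_iff_le.1 ((mul_dvd_mul_iff_left hr0).1 h1)
  · refine hψ.prim 𝔤 (Dvd.intro_left 𝔯 hg) fun h1 => ?_
    have h2 : 𝔯 * 𝔤 = 1 * 𝔤 := by rw [hg, one_mul, h1]
    exact hr.ne_top (by rw [mul_right_cancel₀ hg0 h2, Ideal.one_eq_top])

end cases

/-- **existence of primitive characters** -/
theorem exists_omega (K : Type) [Field K] [NumberField K] : ∃ V₀ : ℝ, 1 ≤ V₀ ∧
    ∀ {ι : Type} [Fintype ι] [DecidableEq ι] {p : ℕ} {𝔭 : ι → Ideal (𝓞 K)} {κ : ι → ℕ},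
      Sup p 𝔭 κ → 3 ≤ p → ∀ {𝔮 : Ideal (𝓞 K)}, ∏ j, 𝔭 j ^ κ j = 𝔮 →
      ∃ (ν : InfinitePlace K → ℝ) (l : InfinitePlace K → ℤ) (ω : Ideal (𝓞 K) →*₀ ℂ),
        (∀ w, |ν w| ≤ V₀) ∧ (∀ w, |(l w : ℝ)| ≤ V₀) ∧ ∑ w, ν w = 0 ∧
        IsHA 𝔮 (fun x => ax ν x * ang l x) ω := by
  classical
  obtain ⟨V₀, hV₀, H⟩ := lowS K
  refine ⟨V₀, hV₀, ?_⟩
  intro ι _ _ p 𝔭 κ h hp3 𝔮 hq
  have h𝔮0 : 𝔮 ≠ ⊥ := by
    rw [← hq]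
    exact h.prod_ne_bot
  have htype : ∀ x : K, x ≠ 0 → ax (fun _ : InfinitePlace K => (0 : ℝ)) x *
      ang (fun _ : InfinitePlace K => (0 : ℤ)) x = 1 := by
    intro x _
    unfold Pool.Agent.Y767.ax ang
    simp
  obtain ⟨ξ, e1, e2⟩ := exists_xi (𝔞 := 𝔮) 1 (ν := fun _ => 0) (l := fun _ => 0) (fun u => by
    rw [MonoidHom.one_apply, Units.val_one, one_mul, htype _ (by simp)])
  have hcop : IsCoprime (⊤ : Ideal (𝓞 K)) 𝔮 := by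
    rw [← Ideal.one_eq_top]
    exact isCoprime_one_left
  have hbt : ((⊤ : Ideal (𝓞 K)) : Ideal (𝓞 K)) ≠ ⊥ := top_ne_bot
  obtain ⟨S, hS1, hS2⟩ := H (a := κ) h hp3 (fun i => le_rfl) hq hq hcop hbt (fun 𝔟 hb => hb)
    (ν := fun _ => 0) (l := fun _ => 0) (ψ := ξ) (by simp)
    (fun 𝔟 hb => by
      rw [Ideal.top_mul, e1]
      exact ⟨fun h => h.2, fun h => ⟨hb, h⟩⟩)
    (fun x hx hx1 _ => by
      rw [Ideal.top_mul] at hx1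
      have hcop' : IsCoprime (Ideal.span {x}) 𝔮 :=
        Pool.Agent.Y772.SG.coprime_iff.2 ⟨1, by rwa [mul_one]⟩
      have h1 := e2 ⟨x, hx, hcop'⟩
      rw [MonoidHom.one_apply, Units.val_one, one_mul] at h1
      exact h1)
    (fun 𝔯 𝔤 hr hg => by
      rw [Ideal.top_mul] at hg
      have h1 : 𝔯 ∣ ∏ j, 𝔭 j ^ κ j := by rw [hq, ← hg]; exact dvd_mul_right _ _
      obtain ⟨i, hi1, hi2⟩ := prime_dvd_prod h hr h1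
      exact Or.inl ⟨i, hi1, rfl, hi2⟩)
  have hfin : Finite (𝓞 K ⧸ 𝔮) := Ideal.finiteQuotientOfFreeOfNeBot _ h𝔮0
  have hcard : 0 < Nat.card (𝓞 K ⧸ 𝔮)ˣ := Nat.card_pos
  have hSne : S.Nonempty := by
    rw [← Finset.card_pos]
    by_contra h1
    have h2 : S.card = 0 := by omega
    rw [h2, zero_mul] at hS1
    omega
  obtain ⟨ω, hω⟩ := hSne
  obtain ⟨ν, l, a1, a2, a3, a4, -⟩ := hS2 ω hω
  rw [Ideal.top_mul] at a4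
  refine ⟨ν, l, ω, fun w => ?_, fun w => ?_, a3, a4⟩
  · simpa using a1 w
  · simpa using a2 w

end Pool.Agent.J4H31.W
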