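import Pool.Agent.J4H31.W.W2

/-!
The contribution of one type of shifts, with exponents depending on the coordinate.
-/

set_option autoImplicit false
set_option linter.unusedSectionVars false

open MeasureTheory Matrix Complex
open Pool.Agent.Y766.R3 (eu KL FF FH S_PHI S_KLO)
open Pool.Agent.Y766.R7
open Pool.Agent.H442R2
open Pool.Agent.J4H31.V hiding typ_bd
open scoped ENNReal

namespace Pool.Agent.J4H31.W

variable {ι : Type} [Fintype ι] [DecidableEq ι]

open Classical in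
/-- **one type** -/
theorem typ_bdW (hsq : S_SQ) (htd : S_TD) (hvar : S_VAR) (hinj : S_INJ) (hbr : S_BR)
    (hklo : S_KLO) (hPhi : S_PHI) {p k : ℕ} {ν a c ρ : ι → ℕ} (hp : p.Prime) (hp7 : 7 ≤ p)
    (hact : ∀ i, a i < c i → 30 ≤ ν i ∧ 19 * ν i ≤ 58 * a i ∧ 2 * c i ≤ ν i + 1)
    (hρ1 : ∀ i, ν i ≤ c i + ρ i) (hρ2 : ∀ i, ν i = 0 ∨ 1 ≤ ρ i) (hρ3 : ∀ i, ρ i ≤ c i)
    (hρ4 : ∀ i, c i ≤ ρ i + 1) (hcν : ∀ i, c i ≤ ν i) (hk : ∀ i, ν i ≤ k)
    {χ : (i : ι) → DirichletCharacter ℂ (p ^ ν i)}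
    (hχ0 : ∀ i, a i < c i → (χ i).IsPrimitive) {B : Matrix ι ι ℝ} (hB : B.det ≠ 0) {C0 L CN : ℝ} (hC0 : 0 ≤ C0)
    (hb : ∀ e : ι → ℕ, (∀ i, e i ≤ ν i) → Bal C0 (B * Dm (ew p e)))
    (hd : ∀ e : ι → ℕ, (∀ i, e i ≤ ν i) → Bal C0 (du B * Dm (ew p e)⁻¹))
    (hL1 : 1 ≤ L) (hL2 : C0 * 2 ^ (Fintype.card ι) ≤ L)
    (hL3 : (p : ℝ) ^ (4 * Fintype.card ι) ≤ L) (hL4 : ((k : ℝ) + 1) ^ (3 * Fintype.card ι) ≤ L)
    (hL5 : C0 ≤ L) (hCN : 0 ≤ CN) (hL6 : CN * (p : ℝ) ^ (15 * Fintype.card ι) ≤ L)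
    (hN : |B.det|⁻¹ ^ 2 ≤ CN ^ 2 * (p : ℝ) ^ (∑ i, ν i)) {m : ι → ℕ}
    (hm : ∀ i, a i ≤ m i ∧ m i ≤ c i) (hA : ∃ i, m i < c i) (cc : (ι → ℤ) → ι → ℝ) :
    ∑' y : ι → ℤ, ENNReal.ofReal (if (∀ i, m i < c i → ¬ (p : ℤ) ∣ y i) ∧ y ≠ 0 then
        gw (B * Dm (ew p m)) (1 / 2) 0 y else 0) *
      ‖ES B 2 (cc y) (fun x => ∏ i, FF (χ i) ((p : ℤ) ^ m i * y i) (x i))‖ₑ ≤
      ENNReal.ofReal (3 * L ^ 4 * |B.det|⁻¹) := by
  have hp0 : (0 : ℝ) < p := by exact_mod_cast hp.pos
  have hp1 : (1 : ℝ) ≤ p := by exact_mod_cast hp.one_le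
  set n := Fintype.card ι with hn
  set S : ι → Prop := fun i => m i < c i with hS
  set r : ι → ℕ := ac S (fun i => ν i - m i) with hr
  set ρI : ι → ℕ := fun i => if S i then 0 else ρ i with hρI
  set f : ι → ℤ → ℤ → ℂ := fun i l x =>
    if S i then FF (χ i) ((p : ℤ) ^ m i * l) x else 1 with hf
  obtain ⟨P, hP⟩ : ∃ P : ι → ℤ → Prop, P = fun i l => m i < c i → ¬ (p : ℤ) ∣ l := ⟨_, rfl⟩
  have hPi : ∀ i l, P i l ↔ (m i < c i → ¬ (p : ℤ) ∣ l) := fun i l => by rw [hP]
  set A : Finset ι := Finset.univ.filter S with hAd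
  obtain ⟨α, hα⟩ : ∃ α, α = A.card := ⟨_, rfl⟩
  obtain ⟨γ, hγ⟩ : ∃ γ, γ = (Finset.univ.filter fun i => ¬ S i).card := ⟨_, rfl⟩
  have hαγ : α + γ = n := by
    rw [hα, hγ, hn]
    exact Finset.card_filter_add_card_filter_not (s := Finset.univ) S
  obtain ⟨M, hM⟩ : ∃ M, M = ∑ i ∈ A, m i := ⟨_, rfl⟩
  obtain ⟨NA, hNA⟩ : ∃ NA, NA = ∑ i ∈ A, ν i := ⟨_, rfl⟩
  obtain ⟨CI, hCI⟩ : ∃ CI, CI = ∑ i ∈ Finset.univ.filter fun i => ¬ S i, c i := ⟨_, rfl⟩
  obtain ⟨RI, hRI⟩ : ∃ RI, RI = ∑ i ∈ Finset.univ.filter fun i => ¬ S i, ρ i := ⟨_, rfl⟩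
  obtain ⟨NI, hNI⟩ : ∃ NI, NI = ∑ i ∈ Finset.univ.filter fun i => ¬ S i, ν i := ⟨_, rfl⟩
  have hAne : A.Nonempty := by
    obtain ⟨i, hi⟩ := hA
    exact ⟨i, Finset.mem_filter.2 ⟨Finset.mem_univ _, hi⟩⟩
  have hα1 : 1 ≤ α := by
    rw [hα]
    exact Finset.card_pos.2 hAne
  have hSa : ∀ i, S i → 30 ≤ ν i ∧ 19 * ν i ≤ 58 * a i ∧ 2 * c i ≤ ν i + 1 := fun i hi => by
    have h1 : m i < c i := hi
    have h2 := (hm i).1
    exact hact i (by omega)
  have hSi : ∀ i, S i → 2 * m i < ν i := fun i hi => by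
    have h1 : m i < c i := hi
    have := (hSa i hi).2.2
    omega
  have hχ : ∀ i, S i → (χ i).IsPrimitive := fun i hi => by
    have h1 : m i < c i := hi
    have h2 := (hm i).1
    exact hχ0 i (by omega)
  have hnS : ∀ i, ¬ S i → m i = c i := fun i hi => by
    have h1 : ¬ m i < c i := hi
    have := (hm i).2
    omega
  have h19i : ∀ i, S i → 19 * ν i ≤ 58 * m i := fun i hi => by
    have := (hm i).1
    have := (hSa i hi).2.1
    omega
  have hν30 : ∀ i, S i → 30 ≤ ν i := fun i hi => (hSa i hi).1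
  have hMA : ∀ i ∈ A, S i := fun i hi => (Finset.mem_filter.1 hi).2
  have hNAp : 0 < NA := by
    obtain ⟨i, hi⟩ := hAne
    have h1 : ν i ≤ ∑ i ∈ A, ν i := Finset.single_le_sum (f := ν) (fun _ _ => Nat.zero_le _) hi
    have := hν30 i (hMA i hi)
    omega
  -- sums of exponents
  have hsumr : ∑ i, r i = NA - M := by
    rw [hr, sum_ac, hM, hNA, Finset.sum_tsub_distrib]
    intro i hi
    have := hSi i (hMA i hi)
    omega
  have hMle : 2 * M + α ≤ NA := by
    have h1 : ∑ i ∈ A, (2 * m i + 1) ≤ ∑ i ∈ A, ν i :=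
      Finset.sum_le_sum fun i hi => hSi i (hMA i hi)
    rw [Finset.sum_add_distrib, ← Finset.mul_sum, ← hM, Finset.sum_const,
      smul_eq_mul, ← hα, mul_one, ← hNA] at h1
    exact h1
  have h19 : 19 * NA ≤ 58 * M := by
    have h1 : ∑ i ∈ A, 19 * ν i ≤ ∑ i ∈ A, 58 * m i :=
      Finset.sum_le_sum fun i hi => h19i i (hMA i hi)
    rw [← Finset.mul_sum, ← Finset.mul_sum, ← hM, ← hNA] at h1
    exact h1
  have hsumm : ∑ i, m i = M + CI := by
    rw [← Finset.sum_filter_add_sum_filter_not Finset.univ S, ← hM]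
    congr 1
    rw [Finset.sum_congr rfl fun i hi => hnS i (Finset.mem_filter.1 hi).2, ← hCI]
  have hsumν : ∑ i, ν i = NA + NI := by
    rw [← Finset.sum_filter_add_sum_filter_not Finset.univ S, ← hNA, ← hNI]
  have hsumρ : ∑ i, ρI i = RI := by
    rw [← Finset.sum_filter_add_sum_filter_not Finset.univ S]
    have e1 : ∑ i ∈ Finset.univ.filter S, ρI i = 0 :=
      Finset.sum_eq_zero fun i hi => by
        have := (Finset.mem_filter.1 hi).2
        simp only [hρI]
        rw [if_pos this]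
    have e2 : ∑ i ∈ Finset.univ.filter (fun i => ¬ S i), ρI i = RI := by
      rw [hRI]
      refine Finset.sum_congr rfl fun i hi => ?_
      have := (Finset.mem_filter.1 hi).2
      simp only [hρI]
      rw [if_neg this]
    rw [e1, e2, zero_add]
  have f1 : NI ≤ 2 * RI + γ := by
    have h1 : NI ≤ ∑ i ∈ Finset.univ.filter fun i => ¬ S i, (2 * ρ i + 1) := by
      rw [hNI]
      refine Finset.sum_le_sum fun i _ => ?_
      have := hρ1 i
      have := hρ4 i
      omega
    rw [Finset.sum_add_distrib, ← Finset.mul_sum, ← hRI, Finset.sum_const, smul_eq_mul, ← hγ,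
      mul_one] at h1
    exact h1
  have f2 : CI ≤ RI + γ := by
    have h1 : CI ≤ ∑ i ∈ Finset.univ.filter fun i => ¬ S i, (ρ i + 1) := by
      rw [hCI]
      exact Finset.sum_le_sum fun i _ => hρ4 i
    rw [Finset.sum_add_distrib, ← hRI, Finset.sum_const, smul_eq_mul, ← hγ, mul_one] at h1
    exact h1
  have f3 : RI ≤ CI := by
    rw [hRI, hCI]
    exact Finset.sum_le_sum fun i _ => hρ3 i
  -- matrices
  set M1 := B * Dm (ew p m) with hM1
  set B' := B * Dm (ew p ρI) with hB'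
  set M2 := du B' * Dm (ew p r)⁻¹ with hM2
  have hM1d : M1.det ≠ 0 := det_mul_Dm_ne hB (ew_ne hp.pos _)
  have hB'd : B'.det ≠ 0 := det_mul_Dm_ne hB (ew_ne hp.pos _)
  have hM2d : M2.det ≠ 0 := det_mul_Dm_ne (det_du_ne hB'd) (ew_inv_ne hp.pos _)
  have hduB' : du B' = du B * Dm (ew p ρI)⁻¹ := du_mul_Dm B (ew_ne hp.pos _)
  set δ := |B.det| with hδ
  have hδ0 : 0 < δ := abs_pos.2 hB
  have hM1a : |M1.det| = δ * (p : ℝ) ^ ∑ i, m i := by
    rw [hM1, det_mul_Dm, prod_ew, abs_mul, abs_of_pos (by positivity : (0 : ℝ) < (p : ℝ) ^ ∑ i, m i)]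
  have hM2a : |M2.det| = δ⁻¹ * ((p : ℝ) ^ (∑ i, ρI i + ∑ i, r i))⁻¹ := by
    rw [hM2, hduB', det_mul_Dm, det_mul_Dm, det_du, prod_ew_inv, prod_ew_inv, abs_mul, abs_mul,
      abs_inv, abs_of_pos (inv_pos.2 (by positivity : (0 : ℝ) < (p : ℝ) ^ ∑ i, ρI i)),
      abs_of_pos (inv_pos.2 (by positivity : (0 : ℝ) < (p : ℝ) ^ ∑ i, r i)), pow_add, mul_inv,
      mul_assoc]
  have hM1i : |M1.det|⁻¹ = δ⁻¹ * ((p : ℝ) ^ ∑ i, m i)⁻¹ := by rw [hM1a, _root_.mul_inv]
  -- bounds for exponents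
  have hri : ∀ i, r i ≤ ν i - m i := fun i => by
    simp only [hr, ac]
    split_ifs <;> omega
  have hρr : ∀ i, ρI i + r i ≤ ν i := fun i => by
    have := hρ3 i
    have := hcν i
    simp only [hρI, hr, ac]
    split_ifs <;> omega
  -- balance
  have bal1 : Bal C0 M1 := hb m fun i => by have := (hm i).2; have := hcν i; omega
  have bal2 : ∀ e : ι → ℕ, e ≤ r → Bal C0 (M2 * Dm (ew p e)) := by
    intro e he
    have e1 : M2 * Dm (ew p e) = du B * Dm (ew p (ρI + r - e))⁻¹ := by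
      rw [hM2, hduB', mul_Dm_mul, mul_Dm_mul]
      congr 2
      have h1 := inv_mul_ew hp.pos (e := r) (f := 0) (g := e) (h := r - e) (by
        funext i
        have : e i ≤ r i := he i
        simp only [Pi.add_apply, Pi.zero_apply, Pi.sub_apply]
        omega)
      rw [h1, ew_zero, mul_one]
      have h2 : ρI + r - e = ρI + (r - e) := by
        funext i
        have : e i ≤ r i := he i
        simp only [Pi.add_apply, Pi.sub_apply]
        omega
      rw [h2, ew_add, _root_.mul_inv]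
    rw [e1]
    refine hd _ fun i => ?_
    have := hρr i
    simp only [Pi.sub_apply, Pi.add_apply]
    omega
  have bald1 : ∀ e : ι → ℕ, e ≤ r → Bal C0 (du M1 * Dm (ew p e)⁻¹) := by
    intro e he
    have e1 : du M1 * Dm (ew p e)⁻¹ = du B * Dm (ew p (m + e))⁻¹ := by
      rw [hM1, du_mul_Dm B (ew_ne hp.pos _), mul_Dm_mul, ew_add, _root_.mul_inv]
    rw [e1]
    refine hd _ fun i => ?_
    have h1 := hri i
    have h2 : e i ≤ r i := he i
    have h3 := (hm i).2
    have := hcν i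
    simp only [Pi.add_apply]
    omega
  have bald2 : ∀ e : ι → ℕ, e ≤ r → Bal C0 (du M2 * Dm (ew p e)⁻¹) := by
    intro e he
    have e1 : du M2 * Dm (ew p e)⁻¹ = B * Dm (ew p (ρI + (r - e))) := by
      rw [hM2, du_mul_Dm _ (ew_inv_ne hp.pos _), du_du hB'd, inv_inv, hB', mul_Dm_mul, mul_Dm_mul]
      congr 2
      have h1 := inv_mul_ew hp.pos (e := e) (f := r - e) (g := r) (h := 0) (by
        funext i
        have : e i ≤ r i := he i
        simp only [Pi.add_apply, Pi.zero_apply, Pi.sub_apply]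
        omega)
      rw [mul_comm (ew p r), h1, ew_zero, inv_one, one_mul, ew_add]
    rw [e1]
    refine hb _ fun i => ?_
    have := hρr i
    simp only [Pi.add_apply, Pi.sub_apply]
    omega
  -- reduction
  have hred : ∀ y : ι → ℤ, (∀ i, P i (y i)) →
      ‖ES B 2 (cc y) (fun x => ∏ i, FF (χ i) ((p : ℤ) ^ m i * y i) (x i))‖ₑ ≤
      ∑ x0 ∈ box (pw p ρI), ‖ES B' 2 (cc y - B *ᵥ rc x0) (fun x => ∏ i, f i (y i) (x i))‖ₑ := by
    intro y hy
    have h1 := redv (D := pw p ρI) (pw_pos hp.pos _) hB (lam := 2) two_pos (cc y)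
      (F := fun i x => FF (χ i) ((p : ℤ) ^ m i * y i) x) (g := fun i x => f i (y i) x)
      (fun i x => Pool.Agent.Y766.R3.FF_norm _ _ _) ?_
    · rw [cr_pw] at h1
      exact h1
    · intro i x0 hx0 hx1
      by_cases hi : S i
      · have e0 : pw p ρI i = 1 := by
          simp only [pw, hρI]
          rw [if_pos hi, pow_zero]
        rw [e0] at hx1 ⊢
        have e1 : x0 = 0 := by
          push_cast at hx1
          omega
        refine ⟨1, by simp, fun y' => ?_⟩
        simp only [hf]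
        rw [if_pos hi, e1, one_mul]
        congr 1
        push_cast
        ring
      · have e0 : pw p ρI i = p ^ ρ i := by
          simp only [pw, hρI]
          rw [if_neg hi]
        rw [e0]
        refine ⟨FF (χ i) ((p : ℤ) ^ m i * y i) x0, Pool.Agent.Y766.R3.FF_norm _ _ _, fun y' => ?_⟩
        simp only [hf]
        rw [if_neg hi, mul_one, hnS i hi]
        have h2 := FF_perW (c := c i) (ρ := ρ i) hp (ν := ν i) (hρ1 i) (hρ2 i) (χ i) (y i) x0 y'
        push_cast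
        exact h2
  -- data
  have hper : ∀ i l, P i l → ∀ x k : ℤ, f i l (x + (p ^ r i : ℕ) * k) = f i l x := by
    intro i l hl x k
    simp only [hf, hr, ac]
    by_cases hi : S i
    · rw [if_pos hi, if_pos hi, if_pos hi]
      exact (act_data hklo hPhi hp (by omega) (m := m i)
        (by have := h19i i hi; have := hν30 i hi; omega) (hSi i hi)
        (by have := h19i i hi; have := hν30 i hi; omega) (hχ i hi) ((hPi i _).1 hl hi)).1 x k
    · rw [if_neg hi, if_neg hi]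
  have hf1 : ∀ i l x, ‖f i l x‖ ≤ 1 := by
    intro i l x
    simp only [hf]
    split_ifs
    · exact Pool.Agent.Y766.R3.FF_norm _ _ _
    · simp
  have hrex : ∃ i, 0 < r i := by
    obtain ⟨i, hi⟩ := hA
    refine ⟨i, ?_⟩
    simp only [hr, ac]
    rw [if_pos (show S i from hi)]
    have := hSi i hi
    omega
  have hP0 : ∃ i, ¬ P i 0 := by
    obtain ⟨i, hi⟩ := hA
    exact ⟨i, fun h => (hPi i _).1 h hi (dvd_zero _)⟩
  -- the bound for one class
  have hL2n : (p : ℝ) ^ (2 * n) ≤ L := (pow_le_pow_right₀ hp1 (by omega)).trans hL3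
  have hrp : ((∏ i, (r i + 1) : ℕ) : ℝ) ^ 3 ≤ L := by
    refine le_trans ?_ hL4
    rw [mul_comm 3 n, pow_mul]
    refine pow_le_pow_left₀ (Nat.cast_nonneg _) ?_ 3
    have h1 : ∏ i, (r i + 1) ≤ ∏ _i : ι, (k + 1) :=
      Finset.prod_le_prod (fun _ _ => Nat.zero_le _) fun i _ => by
        have := hri i; have := hk i; omega
    rw [Finset.prod_const, Finset.card_univ] at h1
    exact_mod_cast h1
  have h2p : (2 * (p : ℝ) ^ 3) ^ n ≤ L := by
    refine le_trans ?_ hL3
    rw [pow_mul]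
    refine pow_le_pow_left₀ (by positivity) ?_ n
    have : (2 : ℝ) ≤ p := by exact_mod_cast hp.two_le
    nlinarith [pow_pos hp0 3]
  have hcls : ∀ dd : (ι → ℤ) → ι → ℝ, ((box (pw p ρI)).card : ℝ≥0∞) * ∑' z : ι → ℤ,
      ENNReal.ofReal (if ∀ i, P i (z i) then gw M1 (1 / 2) 0 z else 0) *
        ‖ES B' 2 (dd z) (fun x => ∏ i, f i (z i) (x i))‖ₑ ≤
      ENNReal.ofReal (3 * L ^ 4 * δ⁻¹) := by
    intro dd
    have hcard : ((box (pw p ρI)).card : ℝ≥0∞) = ENNReal.ofReal ((p : ℝ) ^ RI) := by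
      rw [card_box, prod_pw, hsumρ, ← ENNReal.ofReal_natCast]
      push_cast
      rfl
    rw [hcard]
    rcases Nat.lt_or_ge (3 * M) NA with hcase | hcase
    · -- small shifts
      obtain ⟨s, hs⟩ : ∃ s, s = NA - 3 * M := ⟨_, rfl⟩
      have hs1 : s + 3 * M = NA := by omega
      have hs19 : 19 * s ≤ M := by omega
      obtain ⟨x3, hx3⟩ : ∃ x3, x3 = M - s := ⟨_, rfl⟩
      have hx3' : x3 + s = M := by omega
      have g1 := fun i => ceil_exW ((M + 8 * s) * ν i) (Y := 3 * NA) (by omega)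
      have g2 := fun i => ceil_exW ((M + 5 * s) * ν i) (Y := 3 * NA) (by omega)
      have g3 := fun i => ceil_exW (x3 * ν i) (Y := 3 * NA) (by omega)
      choose β1 g1a g1b using g1
      choose β2 g2a g2b using g2
      choose β3 g3a g3b using g3
      have hnum : ∀ i, S i → 1 ≤ β3 i ∧ β3 i ≤ β2 i ∧ β3 i ≤ β1 i ∧ ν i - m i ≤ 7 * β3 i ∧
          ν i - 3 * m i ≤ β3 i ∧ β1 i + β2 i + β3 i ≤ ν i - m i := fun i hi =>
        numW hs1 (by omega) hx3' h19 (hν30 i hi) (g1a i) (g1b i) (g2a i) (g2b i) (g3a i) (g3b i)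
          (h19i i hi) (hSi i hi)
      obtain ⟨B1, hB1⟩ : ∃ B1, B1 = ∑ i ∈ A, β1 i := ⟨_, rfl⟩
      obtain ⟨B2, hB2⟩ : ∃ B2, B2 = ∑ i ∈ A, β2 i := ⟨_, rfl⟩
      obtain ⟨B3, hB3⟩ : ∃ B3, B3 = ∑ i ∈ A, β3 i := ⟨_, rfl⟩
      obtain ⟨k1, k1'⟩ := sumW hNA hNAp hAne (β := β1) fun i _ => ⟨g1a i, g1b i⟩
      obtain ⟨k2, k2'⟩ := sumW hNA hNAp hAne (β := β2) fun i _ => ⟨g2a i, g2b i⟩
      obtain ⟨k3, k3'⟩ := sumW hNA hNAp hAne (β := β3) fun i _ => ⟨g3a i, g3b i⟩
      rw [← hB1, ← hα] at k1'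
      rw [← hB1] at k1
      rw [← hB2, ← hα] at k2'
      rw [← hB2] at k2
      rw [← hB3, ← hα] at k3'
      rw [← hB3] at k3
      have hsum : ∀ β : ι → ℕ, ∑ i, ac S β i = ∑ i ∈ A, β i := fun β => by
        rw [sum_ac, ← hAd]
      have hsb : ∀ i, ac S β1 i + ac S β2 i + ac S β3 i ≤ r i := by
        intro i
        simp only [hr, ac]
        by_cases hi : S i
        · simp only [if_pos hi]
          exact (hnum i hi).2.2.2.2.2
        · simp only [if_neg hi]
          omega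
      have hCD : ∀ i, CD p (r i) (ac S β1 i) (ac S β2 i)
          (ac S β3 i) (fun l x => FH (p ^ r i) (f i l) x) (P i) := by
        intro i
        by_cases hi : S i
        · obtain ⟨q1, q2, q3, q4, q5, q6⟩ := hnum i hi
          have h1 := cd_act hsq htd hvar hinj hbr hklo hPhi hp hp7 (m := m i) (b1 := β1 i)
            (b2 := β2 i) (b3 := β3 i) (by have := h19i i hi; have := hν30 i hi; omega) (hSi i hi)
            (by have := h19i i hi; have := hν30 i hi; omega) q1 q2 q3 q4 q5 q6 (hχ i hi)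
          have e1 : r i = ν i - m i := by simp only [hr, ac]; rw [if_pos hi]
          have e2 : ∀ β : ι → ℕ, ac S β i = β i := fun β => by simp only [ac]; rw [if_pos hi]
          have e3 : P i = fun l => ¬ (p : ℤ) ∣ l := by
            funext l
            rw [eq_iff_iff, hPi]
            exact ⟨fun h => h hi, fun h _ => h⟩
          have e4 : f i = fun l x => FF (χ i) ((p : ℤ) ^ m i * l) x := by
            funext l x
            simp only [hf]
            rw [if_pos hi]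
          rw [e1, e2, e2, e2, e3, e4]
          exact h1
        · have h1 := cd_one hp.pos
          have e1 : r i = 0 := by simp only [hr, ac]; rw [if_neg hi]
          have e2 : ∀ β : ι → ℕ, ac S β i = 0 := fun β => by simp only [ac]; rw [if_neg hi]
          have e3 : P i = fun _ => True := by
            funext l
            rw [eq_iff_iff, hPi, iff_true]
            exact fun h => absurd h hi
          have e4 : f i = fun l x => 1 := by
            funext l x
            simp only [hf]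
            rw [if_neg hi]
          rw [e1, e2, e2, e2, e3, e4]
          have e5 : (fun (l x : ℤ) => FH (p ^ 0) (fun _ => 1) x) = fun _ _ => 1 := by
            funext l x
            rw [pow_zero]
            exact FH_one x
          rw [e5]
          exact h1
      have h1 := caseDv hp hsb hper hf1 hCD hrex hM1d hB'd hM2 hC0 bal1 bal2 bald1 bald2 hL1 hL2
        hL2n hrp hL5 (s := s) ?_ ?_ ?_ ?_ ?_ dd
      · refine (mul_le_mul_right h1 _).trans ?_
        rw [← ENNReal.ofReal_mul (by positivity)]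
        refine ENNReal.ofReal_le_ofReal ?_
        rw [hM1i]
        have hP' := P_bound hp.pos (N := δ⁻¹) (by positivity) (E := RI) (R := ∑ i, m i)
          (S := ∑ i, r i / 2) (s := s) (by
            have h2 : 2 * ∑ i, r i / 2 ≤ ∑ i, r i := by
              rw [Finset.mul_sum]
              exact Finset.sum_le_sum fun i _ => by omega
            rw [hsumr] at h2
            rw [hsumm]
            omega)
        calc (p : ℝ) ^ RI * ((2 * (p : ℝ) ^ 3) ^ n * (3 * L ^ 3 * (δ⁻¹ * ((p : ℝ) ^ ∑ i, m i)⁻¹) *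
              ((p : ℝ) ^ (∑ i, r i / 2) / Real.sqrt ((p : ℝ) ^ s)))) =
            (2 * (p : ℝ) ^ 3) ^ n * (3 * L ^ 3) * ((p : ℝ) ^ RI *
              (δ⁻¹ * ((p : ℝ) ^ ∑ i, m i)⁻¹ *
                ((p : ℝ) ^ (∑ i, r i / 2) / Real.sqrt ((p : ℝ) ^ s)))) := by ring
          _ ≤ L * (3 * L ^ 3) * δ⁻¹ := by gcongr
          _ = _ := by ring
      · rw [hM2a, hsum]
        refine H_bound hp.pos hCN (K := ∑ i, ν i) (t := 15 * n) hN ?_ hL6
        rw [hsumρ, hsumr, hsumν]
        omega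
      · rw [hM2a, hsum]
        refine H_bound hp.pos hCN (K := ∑ i, ν i) (t := 15 * n) hN ?_ hL6
        rw [hsumρ, hsumr, hsumν]
        omega
      · rw [hM2a, hsum]
        refine H_bound hp.pos hCN (K := ∑ i, ν i) (t := 15 * n) hN ?_ hL6
        rw [hsumρ, hsumr, hsumν]
        omega
      · have e1 : ∑ i, (r i - (ac S β1 i + ac S β2 i + ac S β3 i)) =
            (NA - M) - (B1 + B2 + B3) := by
          have q1 : ∑ i, ac S β1 i = B1 := by rw [hsum, hB1]
          have q2 : ∑ i, ac S β2 i = B2 := by rw [hsum, hB2]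
          have q3 : ∑ i, ac S β3 i = B3 := by rw [hsum, hB3]
          rw [Finset.sum_tsub_distrib _ fun i _ => hsb i, Finset.sum_add_distrib,
            Finset.sum_add_distrib, q1, q2, q3, hsumr]
        rw [e1, hM1a, hM2a]
        have e2 : δ * (p : ℝ) ^ (∑ i, m i) * (δ⁻¹ * ((p : ℝ) ^ (∑ i, ρI i + ∑ i, r i))⁻¹) =
            (p : ℝ) ^ (∑ i, m i) * ((p : ℝ) ^ (∑ i, ρI i + ∑ i, r i))⁻¹ := by
          field_simp
        rw [e2, ← mul_assoc, ← pow_add, ← div_eq_mul_inv, div_le_iff₀ (by positivity)]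
        calc _ ≤ (p : ℝ) ^ (4 * n + (∑ i, ρI i + ∑ i, r i)) := by
              refine pow_le_pow_right₀ hp1 ?_
              rw [hsumm, hsumρ, hsumr]
              omega
          _ = (p : ℝ) ^ (4 * n) * (p : ℝ) ^ (∑ i, ρI i + ∑ i, r i) := pow_add _ _ _
          _ ≤ _ := by gcongr
      · rw [Finset.sum_add_distrib, Finset.sum_add_distrib, hsum, hsum, hsum, ← hB1, ← hB2, ← hB3]
        calc _ ≤ (p : ℝ) ^ (4 * n + ∑ i, r i) := by
              refine pow_le_pow_right₀ hp1 ?_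
              rw [hsumr]
              omega
          _ = (p : ℝ) ^ (4 * n) * (p : ℝ) ^ (∑ i, r i) := pow_add _ _ _
          _ ≤ _ := by gcongr
    · -- middle shifts
      have h1 := caseCv hp hper hf1 (fun i l hl x => ?_) (fun i l hl hri0 => ?_) hrex hP0 hM1d hB'd
        hM2 hC0 bal1 (by
          have := bal2 0 (fun i => Nat.zero_le _)
          rwa [ew_zero, Dm_one, Matrix.mul_one] at this) hL1 hL2 dd
      · refine (mul_le_mul_right h1 _).trans ?_
        rw [← ENNReal.ofReal_mul (by positivity)]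
        refine ENNReal.ofReal_le_ofReal ?_
        rw [hM1i]
        have h3 : (p : ℝ) ^ RI * ((δ⁻¹ * ((p : ℝ) ^ ∑ i, m i)⁻¹) *
            (p : ℝ) ^ (∑ i, (r i + 1) / 2)) ≤ δ⁻¹ * (p : ℝ) ^ n := by
          have h4 : (p : ℝ) ^ RI * (p : ℝ) ^ (∑ i, (r i + 1) / 2) ≤
              (p : ℝ) ^ n * (p : ℝ) ^ ∑ i, m i := by
            rw [← pow_add, ← pow_add]
            refine pow_le_pow_right₀ hp1 ?_
            have h5 : 2 * ∑ i, (r i + 1) / 2 ≤ (NA - M) + α := by
              have e5 : ∀ i, (r i + 1) / 2 = ac S (fun i => (ν i - m i + 1) / 2) i := by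
                intro i
                simp only [hr, ac]
                split_ifs <;> rfl
              simp_rw [e5]
              rw [sum_ac, Finset.mul_sum, ← hsumr, hr, sum_ac, ← hAd]
              have e6 : α = ∑ i ∈ A, 1 := by rw [hα, Finset.card_eq_sum_ones]
              rw [e6, ← Finset.sum_add_distrib]
              exact Finset.sum_le_sum fun i _ => by omega
            rw [hsumm]
            omega
          calc _ = δ⁻¹ * ((p : ℝ) ^ RI * (p : ℝ) ^ (∑ i, (r i + 1) / 2)) *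
                ((p : ℝ) ^ ∑ i, m i)⁻¹ := by ring
            _ ≤ δ⁻¹ * ((p : ℝ) ^ n * (p : ℝ) ^ ∑ i, m i) * ((p : ℝ) ^ ∑ i, m i)⁻¹ := by gcongr
            _ = _ := by
                have : (0 : ℝ) < (p : ℝ) ^ ∑ i, m i := by positivity
                field_simp
        have h2n : (2 : ℝ) ^ n * (p : ℝ) ^ n ≤ L := by
          refine le_trans ?_ hL2n
          rw [← mul_pow, pow_mul]
          refine pow_le_pow_left₀ (by positivity) ?_ n
          have : (2 : ℝ) ≤ p := by exact_mod_cast hp.two_le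
          nlinarith
        calc (p : ℝ) ^ RI * (2 ^ n * L ^ 2 * (δ⁻¹ * ((p : ℝ) ^ ∑ i, m i)⁻¹) *
              (p : ℝ) ^ (∑ i, (r i + 1) / 2)) =
            2 ^ n * L ^ 2 * ((p : ℝ) ^ RI * ((δ⁻¹ * ((p : ℝ) ^ ∑ i, m i)⁻¹) *
            (p : ℝ) ^ (∑ i, (r i + 1) / 2))) := by ring
          _ ≤ 2 ^ n * L ^ 2 * (δ⁻¹ * (p : ℝ) ^ n) := by gcongr
          _ = (2 ^ n * (p : ℝ) ^ n) * L ^ 2 * δ⁻¹ := by ring
          _ ≤ L * L ^ 2 * δ⁻¹ := by gcongr
          _ ≤ 3 * L ^ 4 * δ⁻¹ := by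
              have h6 : L * L ^ 2 ≤ 3 * L ^ 4 := by
                have : L ^ 3 ≤ L ^ 4 := pow_le_pow_right₀ hL1 (by norm_num)
                have h7 : 0 < L ^ 4 := by positivity
                nlinarith
              gcongr
      · simp only [hf, hr, ac]
        by_cases hi : S i
        · simp only [if_pos hi]
          exact (act_data hklo hPhi hp (by omega) (m := m i)
            (by have := h19i i hi; have := hν30 i hi; omega) (hSi i hi)
            (by have := h19i i hi; have := hν30 i hi; omega) (hχ i hi) ((hPi i _).1 hl hi)).2.1 x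
        · simp only [if_neg hi]
          rw [pow_zero, FH_one]
          simp
      · simp only [hf, hr, ac] at hri0 ⊢
        by_cases hi : S i
        · simp only [if_pos hi]
          exact (act_data hklo hPhi hp (by omega) (m := m i)
            (by have := h19i i hi; have := hν30 i hi; omega) (hSi i hi)
            (by have := h19i i hi; have := hν30 i hi; omega) (hχ i hi) ((hPi i _).1 hl hi)).2.2
        · rw [if_neg hi] at hri0
          exact absurd hri0 (lt_irrefl _)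
  -- conclusion
  set G : (ι → ℤ) → ℝ≥0∞ := fun x0 => ∑' z : ι → ℤ,
      ENNReal.ofReal (if ∀ i, P i (z i) then gw M1 (1 / 2) 0 z else 0) *
        ‖ES B' 2 (cc z - B *ᵥ rc x0) (fun x => ∏ i, f i (z i) (x i))‖ₑ with hG
  calc _ ≤ ∑' y : ι → ℤ, ∑ x0 ∈ box (pw p ρI),
        ENNReal.ofReal (if ∀ i, P i (y i) then gw M1 (1 / 2) 0 y else 0) *
        ‖ES B' 2 (cc y - B *ᵥ rc x0) (fun x => ∏ i, f i (y i) (x i))‖ₑ := by
        refine ENNReal.tsum_le_tsum fun y => ?_
        rw [← Finset.mul_sum]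
        by_cases hy : ∀ i, P i (y i)
        · rw [if_pos hy]
          refine mul_le_mul' (ENNReal.ofReal_le_ofReal ?_) (hred y hy)
          split_ifs
          · exact le_rfl
          · exact (gw_pos _ _ _ _).le
        · rw [if_neg hy, if_neg (fun h => hy fun i => (hPi i _).2 (h.1 i)), ENNReal.ofReal_zero,
            zero_mul, zero_mul]
    _ = ∑ x0 ∈ box (pw p ρI), G x0 := Summable.tsum_finsetSum fun _ _ => ENNReal.summable
    _ ≤ ENNReal.ofReal (3 * L ^ 4 * δ⁻¹) := by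
        have hne : (box (pw p ρI)).Nonempty := by
          refine ⟨0, mem_box.2 fun i => ⟨le_rfl, ?_⟩⟩
          have := pw_pos hp.pos ρI i
          simpa using this
        obtain ⟨x1, hx1, hmax⟩ := Finset.exists_max_image (box (pw p ρI)) G hne
        calc _ ≤ ∑ x0 ∈ box (pw p ρI), G x1 := Finset.sum_le_sum hmax
          _ = ((box (pw p ρI)).card : ℝ≥0∞) * G x1 := by rw [Finset.sum_const, nsmul_eq_mul]
          _ ≤ _ := hcls fun z => cc z - B *ᵥ rc x1

end Pool.Agent.J4H31.W
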