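import Pool.Agent.J4H31.W.W3

/-!
The mean square of products of characters summed over the lattice with gaussian weight.
-/

set_option autoImplicit false
set_option linter.unusedSectionVars false

open MeasureTheory Matrix Complex
open Pool.Agent.Y766.R3 (eu KL FF FH S_PHI S_KLO)
open Pool.Agent.Y766.R7
open Pool.Agent.H442R2
open Pool.Agent.J4H31.V
open scoped ENNReal

namespace Pool.Agent.J4H31.W

variable {ι : Type} [Fintype ι] [DecidableEq ι]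

/-- **the mean square over the lattice** -/
theorem keyW0 (hsq : S_SQ) (htd : S_TD) (hvar : S_VAR) (hinj : S_INJ) (hbr : S_BR)
    (hklo : S_KLO) (hPhi : S_PHI) {p k : ℕ} {ν a c ρ : ι → ℕ} (hp : p.Prime) (hp7 : 7 ≤ p)
    (hac : ∀ i, a i ≤ c i)
    (hact : ∀ i, a i < c i → 30 ≤ ν i ∧ 19 * ν i ≤ 58 * a i ∧ 2 * c i ≤ ν i + 1)
    (hρ1 : ∀ i, ν i ≤ c i + ρ i) (hρ2 : ∀ i, ν i = 0 ∨ 1 ≤ ρ i) (hρ3 : ∀ i, ρ i ≤ c i)
    (hρ4 : ∀ i, c i ≤ ρ i + 1) (hcν : ∀ i, c i ≤ ν i) (hk : ∀ i, ν i ≤ k)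
    {χ : (i : ι) → DirichletCharacter ℂ (p ^ ν i)}
    (hχ0 : ∀ i, a i < c i → (χ i).IsPrimitive) {B : Matrix ι ι ℝ} (hB : B.det ≠ 0)
    {C0 L CN : ℝ} (hC0 : 0 ≤ C0)
    (hb : ∀ e : ι → ℕ, (∀ i, e i ≤ ν i) → Bal C0 (B * Dm (ew p e)))
    (hd : ∀ e : ι → ℕ, (∀ i, e i ≤ ν i) → Bal C0 (du B * Dm (ew p e)⁻¹))
    (hL1 : 1 ≤ L) (hL2 : C0 * 2 ^ (Fintype.card ι) ≤ L)
    (hL3 : (p : ℝ) ^ (4 * Fintype.card ι) ≤ L) (hL4 : ((k : ℝ) + 1) ^ (3 * Fintype.card ι) ≤ L)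
    (hL5 : C0 ≤ L) (hCN : 0 ≤ CN) (hL6 : CN * (p : ℝ) ^ (15 * Fintype.card ι) ≤ L)
    (hN : |B.det|⁻¹ ^ 2 ≤ CN ^ 2 * (p : ℝ) ^ (∑ i, ν i)) (hN1 : 1 ≤ |B.det|⁻¹)
    (v : ι → ℝ) :
    ∑ τ : (i : ι) → DirichletCharacter ℂ (p ^ a i),
      ‖ES B 1 v (fun x => tch τ x * ∏ i, χ i ((x i : ℤ) : ZMod (p ^ ν i)))‖ ^ 2 ≤
      5 * L ^ 5 * (p : ℝ) ^ (∑ i, a i) * |B.det|⁻¹ := by
  classical
  have hp0 : (0 : ℝ) < p := by exact_mod_cast hp.pos
  have hp1 : (1 : ℝ) ≤ p := by exact_mod_cast hp.one_le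
  set n := Fintype.card ι with hn
  set N := |B.det|⁻¹ with hNd
  have hN0 : 0 < N := by linarith
  have hL0 : 0 < L := by linarith
  set u : (ι → ℤ) → ℂ := fun x => ∏ i, χ i ((x i : ℤ) : ZMod (p ^ ν i)) with hu
  have hu1 : ∀ x, ‖u x‖ ≤ 1 := fun x => by
    simp only [hu]
    rw [norm_prod]
    exact Finset.prod_le_one (fun _ _ => norm_nonneg _) fun i _ => (χ i).norm_le_one _
  have hb0 : Bal C0 B := by
    have := hb 0 fun i => Nat.zero_le _
    rwa [ew_zero, Dm_one, Matrix.mul_one] at this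
  have hth : ∀ lam : ℝ, 1 / 4 ≤ lam → th0 B lam ≤ 2 * L * N := by
    intro lam hlam
    rw [th0_eq hB (by linarith)]
    have h2 := th1_le hB hC0 hb0 hL2 (lam := lam) hlam
    rw [div_eq_mul_inv, ← hNd] at h2
    have : 1 ≤ L * N := by nlinarith
    linarith
  set W : (ι → ℤ) → ℝ≥0∞ := fun y =>
    ‖ES B (2 * 1) (v - (1 / 2 : ℝ) • (B *ᵥ rc y)) (Df y u)‖ₑ with hW
  have hW' : ∀ (m : ι → ℕ) (y : ι → ℤ), W (cz (pw p m) * y) =
      ‖ES B 2 (v - (1 / 2 : ℝ) • (B *ᵥ rc (cz (pw p m) * y)))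
        (fun x => ∏ i, FF (χ i) ((p : ℤ) ^ m i * y i) (x i))‖ₑ := by
    intro m y
    simp only [hW]
    rw [mul_one]
    congr 2
    funext x
    unfold Df
    simp only [hu]
    rw [map_prod, ← Finset.prod_mul_distrib]
    refine Finset.prod_congr rfl fun i _ => ?_
    unfold FF
    rw [Pi.add_apply, Pi.mul_apply, cz_pw_apply]
  have h1 := es_onems (D := pw p a) (pw_pos hp.pos _) hB one_pos v hu1
    (ξ := fun τ : (i : ι) → DirichletCharacter ℂ (p ^ a i) => tch τ) (fun τ x => tch_norm τ x)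
    (fun τ x z => tch_per τ x z) (bessel hp.pos a)
  have hty := typesW (p := p) hac B (1 / 2) W
  have hbd : ∀ m ∈ Fintype.piFinset (fun i : ι => Finset.Icc (a i) (c i)), (∑' y : ι → ℤ,
        ENNReal.ofReal (if (∀ i, m i < c i → ¬ (p : ℤ) ∣ y i) ∧ y ≠ 0 then
          gw (B * Dm (ew p m)) (1 / 2) 0 y else 0) * W (cz (pw p m) * y)) ≤
      ENNReal.ofReal (3 * L ^ 4 * N) := by
    intro m hm
    rw [Fintype.mem_piFinset] at hm
    simp only [Finset.mem_Icc] at hm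
    simp_rw [hW']
    by_cases hA : ∃ i, m i < c i
    · exact typ_bdW hsq htd hvar hinj hbr hklo hPhi hp hp7 hact hρ1 hρ2 hρ3 hρ4 hcν hk hχ0 hB hC0
        hb hd hL1 hL2 hL3 hL4 hL5 hCN hL6 hN hm hA _
    · push Not at hA
      have hmc : m = c := by
        funext i
        exact le_antisymm (hm i).2 (hA i)
      have hM1 : (B * Dm (ew p m)).det ≠ 0 := det_mul_Dm_ne hB (ew_ne hp.pos _)
      have h2 := typ_triv hB hM1 hC0 hb0
        (hb m fun i => by have := (hm i).2; have := hcν i; omega) hL2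
        (fun y => ∀ i, m i < c i → ¬ (p : ℤ) ∣ y i)
        (fun y => v - (1 / 2 : ℝ) • (B *ᵥ rc (cz (pw p m) * y)))
        (u := fun y x => ∏ i, FF (χ i) ((p : ℤ) ^ m i * y i) (x i)) (fun y x => by
          rw [norm_prod]
          exact Finset.prod_le_one (fun _ _ => norm_nonneg _)
            fun i _ => Pool.Agent.Y766.R3.FF_norm _ _ _)
      refine le_trans (le_of_eq ?_) (h2.trans (ENNReal.ofReal_le_ofReal ?_))
      · refine tsum_congr fun y => ?_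
        congr 2
        congr
      · rw [det_mul_Dm, prod_ew, abs_mul, abs_of_pos (by positivity : (0 : ℝ) < (p : ℝ) ^ ∑ i, m i),
          _root_.mul_inv, ← hNd, hmc]
        have h5 : N ≤ CN * (p : ℝ) ^ (∑ i, c i) := by
          refine le_of_sq_le_sq ?_ (by positivity)
          calc N ^ 2 ≤ CN ^ 2 * (p : ℝ) ^ (∑ i, ν i) := hN
            _ ≤ CN ^ 2 * (p : ℝ) ^ ((∑ i, c i) * 2) := by
                have h6 : ∑ i, ν i ≤ (∑ i, c i) * 2 := by
                  rw [Finset.sum_mul]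
                  refine Finset.sum_le_sum fun i _ => ?_
                  have := hρ1 i
                  have := hρ3 i
                  omega
                have := pow_le_pow_right₀ hp1 h6
                gcongr
            _ = _ := by rw [pow_mul (p : ℝ) (∑ i, c i) 2]; ring
        have h6 : N * ((p : ℝ) ^ (∑ i, c i))⁻¹ ≤ L := by
          rw [← div_eq_mul_inv, div_le_iff₀ (by positivity)]
          refine h5.trans ?_
          have : CN ≤ L := le_trans (le_mul_of_one_le_right hCN (one_le_pow₀ hp1)) hL6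
          gcongr
        calc L * (N * ((p : ℝ) ^ (∑ i, c i))⁻¹) * (1 + L * N) ≤ L * L * (L * N + L * N) := by
              have : 1 ≤ L * N := by nlinarith
              gcongr
          _ = 2 * L ^ 3 * N := by ring
          _ ≤ 3 * L ^ 4 * N := by
              have : L ^ 3 ≤ L ^ 4 := pow_le_pow_right₀ hL1 (by norm_num)
              gcongr
              norm_num
  have hcard : ((Fintype.piFinset (fun i : ι => Finset.Icc (a i) (c i))).card : ℝ) ≤ L := by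
    rw [Fintype.card_piFinset]
    refine le_trans ?_ hL4
    push_cast
    calc ∏ i, ((Finset.Icc (a i) (c i)).card : ℝ) ≤ ∏ _i : ι, ((k : ℝ) + 1) := by
          refine Finset.prod_le_prod (fun _ _ => Nat.cast_nonneg _) fun i _ => ?_
          rw [Nat.card_Icc]
          have h7 := hcν i
          have h8 := hk i
          have : c i + 1 - a i ≤ k + 1 := by omega
          exact_mod_cast this
      _ = ((k : ℝ) + 1) ^ n := by rw [Finset.prod_const, Finset.card_univ]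
      _ ≤ ((k : ℝ) + 1) ^ (3 * n) := by
          refine pow_le_pow_right₀ ?_ (by omega)
          have : (0 : ℝ) ≤ k := Nat.cast_nonneg _
          linarith
  have hsum : ∑' z : ι → ℤ, wv B (1 / 2) (pw p a) z *
      W (cz (pw p a) * z) ≤ ENNReal.ofReal (3 * L ^ 5 * N) := by
    refine hty.trans ((Finset.sum_le_sum hbd).trans ?_)
    rw [Finset.sum_const, nsmul_eq_mul, ← ENNReal.ofReal_natCast,
      ← ENNReal.ofReal_mul (Nat.cast_nonneg _)]
    refine ENNReal.ofReal_le_ofReal ?_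
    calc _ ≤ L * (3 * L ^ 4 * N) := by gcongr
      _ = _ := by ring
  have hprod : ((∏ i : ι, (pw p a) i : ℕ) : ℝ≥0∞) = ENNReal.ofReal ((p : ℝ) ^ (∑ i, a i)) := by
    rw [prod_pw, ← ENNReal.ofReal_natCast]
    push_cast
    rfl
  have h2 : ENNReal.ofReal (∑ τ : (i : ι) → DirichletCharacter ℂ (p ^ a i),
      ‖ES B 1 v (fun x => tch τ x * u x)‖ ^ 2) ≤
      ENNReal.ofReal ((p : ℝ) ^ (∑ i, a i) * (2 * L * N + 3 * L ^ 5 * N)) := by
    refine h1.trans ?_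
    rw [ENNReal.ofReal_mul (by positivity), ENNReal.ofReal_add (by positivity) (by positivity),
      hprod]
    refine mul_le_mul' le_rfl (add_le_add (ENNReal.ofReal_le_ofReal ?_) hsum)
    rw [mul_one]
    exact hth 2 (by norm_num)
  have h3 := (ENNReal.ofReal_le_ofReal_iff (by positivity)).1 h2
  refine h3.trans ?_
  have hLp : L ≤ L ^ 5 := le_self_pow₀ hL1 (by norm_num)
  calc (p : ℝ) ^ (∑ i, a i) * (2 * L * N + 3 * L ^ 5 * N) ≤
      (p : ℝ) ^ (∑ i, a i) * (2 * L ^ 5 * N + 3 * L ^ 5 * N) := by gcongr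
    _ = _ := by ring

/-- the mean square without hypotheses: at every coordinate either `a ≥ ν / 2`, or `ν` is at least `30`
and `a / ν ≥ 19 / 58` -/
theorem keyW {p k : ℕ} {ν a : ι → ℕ} (hp : p.Prime) (hp7 : 7 ≤ p)
    (ha : ∀ i, a i ≤ ν i ∧ (ν i ≤ 2 * a i ∨ 30 ≤ ν i ∧ 19 * ν i ≤ 58 * a i))
    (hk : ∀ i, ν i ≤ k) {χ : (i : ι) → DirichletCharacter ℂ (p ^ ν i)}
    (hχ0 : ∀ i, 30 ≤ ν i → (χ i).IsPrimitive) {B : Matrix ι ι ℝ} (hB : B.det ≠ 0)
    {C0 L CN : ℝ} (hC0 : 0 ≤ C0)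
    (hb : ∀ e : ι → ℕ, (∀ i, e i ≤ ν i) → Bal C0 (B * Dm (ew p e)))
    (hd : ∀ e : ι → ℕ, (∀ i, e i ≤ ν i) → Bal C0 (du B * Dm (ew p e)⁻¹))
    (hL1 : 1 ≤ L) (hL2 : C0 * 2 ^ (Fintype.card ι) ≤ L)
    (hL3 : (p : ℝ) ^ (4 * Fintype.card ι) ≤ L) (hL4 : ((k : ℝ) + 1) ^ (3 * Fintype.card ι) ≤ L)
    (hL5 : C0 ≤ L) (hCN : 0 ≤ CN) (hL6 : CN * (p : ℝ) ^ (15 * Fintype.card ι) ≤ L)
    (hN : |B.det|⁻¹ ^ 2 ≤ CN ^ 2 * (p : ℝ) ^ (∑ i, ν i)) (hN1 : 1 ≤ |B.det|⁻¹)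
    (v : ι → ℝ) :
    ∑ τ : (i : ι) → DirichletCharacter ℂ (p ^ a i),
      ‖ES B 1 v (fun x => tch τ x * ∏ i, χ i ((x i : ℤ) : ZMod (p ^ ν i)))‖ ^ 2 ≤
      5 * L ^ 5 * (p : ℝ) ^ (∑ i, a i) * |B.det|⁻¹ := by
  have hsq := Pool.Agent.Y155.R7.sq_main
  set c : ι → ℕ := fun i => if ν i ≤ 2 * a i then a i else (ν i + 1) / 2 with hc
  set ρ : ι → ℕ := fun i => if ν i ≤ 2 * a i then a i else ν i - (ν i + 1) / 2 with hρ
  refine keyW0 (c := c) (ρ := ρ) hsq (Pool.Agent.Y948.R7.td hsq) (Pool.Agent.Y948.R7.var hsq)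
    (Pool.Agent.Y924.R7.Inj.inj hsq) (Pool.Agent.Y924.R7.Br.br hsq) Pool.Agent.Y779.R3.klo
    Pool.Agent.Y870.R3.phi hp hp7 ?_ ?_ ?_ ?_ ?_ ?_ ?_ hk ?_ hB hC0 hb hd hL1 hL2 hL3 hL4 hL5 hCN
    hL6 hN hN1 v
  all_goals
    intro i
    have hi := ha i
    simp only [hc, hρ]
    by_cases h : ν i ≤ 2 * a i
    · simp only [if_pos h]
      omega
    · simp only [if_neg h]
      obtain ⟨h1, hi⟩ := hi
      rcases hi with hi | ⟨h30, h19⟩
      · exact absurd hi h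
      · first
          | omega
          | exact fun _ => hχ0 i h30

end Pool.Agent.J4H31.W
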