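import Pool.Agent.J4H31.W.W4
import Pool.Agent.J4H31.U.U17

/-!
Ideals supported on primes of degree one above `p`: adapted bases, balance.
-/

set_option autoImplicit false
set_option linter.unusedSectionVars false

open NumberField Matrix
open Pool.Agent.Y773.G (mk_cj rr rr_add card_emb)
open Pool.Agent.J4H31.V hiding typ_bd adaptedN val_clsN th_leN th_boundN
open Pool.Agent.J4H31.U

namespace Pool.Agent.J4H31.W

section basis

variable {K : Type} [Field K] [NumberField K]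
variable {ι : Type} [Fintype ι] [DecidableEq ι]

/-- the `𝔭 i` with `κ i ≠ 0` are different unramified primes of degree one above `p` -/
structure Sup (p : ℕ) (𝔭 : ι → Ideal (𝓞 K)) (κ : ι → ℕ) : Prop where
  hp : p.Prime
  deg1 : ∀ i, κ i ≠ 0 → Deg1 p (𝔭 i)
  inj : ∀ i j, κ i ≠ 0 → κ j ≠ 0 → 𝔭 i = 𝔭 j → i = j
  card : Fintype.card ι = Module.finrank ℚ K

namespace Sup

variable {p : ℕ} {𝔭 : ι → Ideal (𝓞 K)} {κ : ι → ℕ}

lemma cop (h : Sup p 𝔭 κ) {i j : ι} (hij : i ≠ j) {a b : ℕ} (ha : a ≤ κ i) (hb : b ≤ κ j) :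
    IsCoprime (𝔭 i ^ a) (𝔭 j ^ b) := by
  rcases Nat.eq_zero_or_pos a with rfl | ha0
  · rw [pow_zero]; exact isCoprime_one_left
  rcases Nat.eq_zero_or_pos b with rfl | hb0
  · rw [pow_zero]; exact isCoprime_one_right
  have h1 := h.deg1 i (by omega)
  have h2 := h.deg1 j (by omega)
  have := h1.isMaximal
  have := h2.isMaximal
  refine (Ideal.isCoprime_of_isMaximal fun h3 => hij ?_).pow
  exact h.inj i j (by omega) (by omega) h3

lemma p_mem (h : Sup p 𝔭 κ) (i : ι) {a : ℕ} (ha : a ≤ κ i) : (p : 𝓞 K) ^ a ∈ 𝔭 i ^ a := by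
  rcases Nat.eq_zero_or_pos a with rfl | ha0
  · rw [pow_zero, pow_zero, Ideal.one_eq_top]; exact Submodule.mem_top
  exact Ideal.pow_mem_pow (h.deg1 i (by omega)).mem _

lemma norm_pow (h : Sup p 𝔭 κ) {i : ι} {a : ℕ} (ha : a ≤ κ i) :
    Ideal.absNorm (𝔭 i ^ a) = p ^ a := by
  rcases Nat.eq_zero_or_pos a with rfl | ha0
  · rw [pow_zero, pow_zero, map_one]
  exact (h.deg1 i (by omega)).norm_pow a

lemma pow_ne_bot (h : Sup p 𝔭 κ) {i : ι} {a : ℕ} (ha : a ≤ κ i) : 𝔭 i ^ a ≠ ⊥ := by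
  intro h0
  have := h.norm_pow ha
  rw [h0, Ideal.absNorm_bot] at this
  exact (pow_ne_zero _ h.hp.ne_zero) this.symm

lemma prod_ne_bot (h : Sup p 𝔭 κ) : ∏ i, 𝔭 i ^ κ i ≠ ⊥ :=
  Finset.prod_ne_zero_iff.2 fun _ _ => h.pow_ne_bot le_rfl

end Sup

/-- membership in products of powers -/
lemma mem_prodW {p : ℕ} {𝔭 : ι → Ideal (𝓞 K)} {κ : ι → ℕ} (h : Sup p 𝔭 κ) {𝔟 : Ideal (𝓞 K)}
    (h𝔟 : 𝔟 ≠ ⊥) (S : Finset ι) {e : ι → ℕ} (he : ∀ i, e i ≤ κ i) {z : 𝓞 K} (hb : z ∈ 𝔟)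
    (hz : ∀ i ∈ S, z ∈ 𝔟 * 𝔭 i ^ e i) : z ∈ 𝔟 * ∏ i ∈ S, 𝔭 i ^ e i := by
  obtain ⟨𝔞, h𝔞⟩ := Ideal.dvd_span_singleton.2 hb
  rw [← Ideal.dvd_span_singleton, h𝔞]
  refine mul_dvd_mul_left _ ?_
  refine Finset.prod_dvd_of_coprime (fun i _ j _ hij => h.cop hij (he i) (he j)) fun i hi => ?_
  have h1 := hz i hi
  rw [← Ideal.dvd_span_singleton, h𝔞] at h1
  exact (mul_dvd_mul_iff_left h𝔟).1 h1

/-- **bases adapted to several primes above `p`** -/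
theorem adaptedW {p : ℕ} {𝔭 : ι → Ideal (𝓞 K)} {k : ℕ} (hk : 1 ≤ k)
    {𝔟 : Ideal (𝓞 K)} (h𝔟 : 𝔟 ≠ ⊥) (b : Module.Basis ι ℤ (𝓞 K)) (J : Finset ι)
    (hdeg : ∀ i ∈ J, Deg1 p (𝔭 i)) (hinj : ∀ i ∈ J, ∀ j ∈ J, 𝔭 i = 𝔭 j → i = j) :
    ∃ ω : Module.Basis ι ℤ 𝔟, ∀ i ∈ J, (ω i : 𝓞 K) ∉ 𝔟 * 𝔭 i ∧
      ∀ j, j ≠ i → (ω j : 𝓞 K) ∈ 𝔟 * 𝔭 i ^ k := by
  classical
  induction J using Finset.induction_on with
  | empty => exact ⟨𝔟.selfBasis b h𝔟, fun i hi => absurd hi (Finset.notMem_empty i)⟩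
  | insert i' J hi' ih =>
    obtain ⟨ω, hω⟩ := ih (fun i hi => hdeg i (Finset.mem_insert_of_mem hi))
      (fun i hi j hj => hinj i (Finset.mem_insert_of_mem hi) j (Finset.mem_insert_of_mem hj))
    have hd' : Deg1 p (𝔭 i') := hdeg i' (Finset.mem_insert_self _ _)
    have hdJ : ∀ i ∈ J, Deg1 p (𝔭 i) := fun i hi => hdeg i (Finset.mem_insert_of_mem hi)
    have hcop : ∀ j ∈ J, IsCoprime (𝔭 i') (𝔭 j) := by
      intro j hj
      have := hd'.isMaximal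
      have := (hdJ j hj).isMaximal
      refine Ideal.isCoprime_of_isMaximal fun h1 => hi' ?_
      rw [hinj i' (Finset.mem_insert_self _ _) j (Finset.mem_insert_of_mem hj) h1]
      exact hj
    -- the pivot
    obtain ⟨j0, hj0, hj0'⟩ : ∃ j0, j0 ∉ J ∧ (ω j0 : 𝓞 K) ∉ 𝔟 * 𝔭 i' := by
      by_contra hc
      push Not at hc
      have hle : ¬ 𝔟 * ∏ i ∈ J, 𝔭 i ^ k ≤ 𝔟 * 𝔭 i' := by
        intro hle
        have h1 : 𝔭 i' ∣ ∏ i ∈ J, 𝔭 i ^ k :=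
          (mul_dvd_mul_iff_left h𝔟).1 (Ideal.dvd_iff_le.2 hle)
        have h2 : IsCoprime (𝔭 i') (∏ i ∈ J, 𝔭 i ^ k) :=
          IsCoprime.prod_right fun j hj => (hcop j hj).pow_right
        have h3 := h2.isUnit_of_dvd' dvd_rfl h1
        rw [Ideal.isUnit_iff] at h3
        exact hd'.isPrime.ne_top h3
      obtain ⟨x, hx1, hx2⟩ := SetLike.not_le_iff_exists.1 hle
      apply hx2
      have hx𝔟 : x ∈ 𝔟 := Ideal.mul_le_left hx1
      obtain ⟨cf, hcf⟩ : ∃ cf : ι → ℤ, ∑ i, (cf i : 𝓞 K) * (ω i : 𝓞 K) = x :=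
        ⟨fun i => ω.repr ⟨x, hx𝔟⟩ i, sum_repr' ω hx𝔟⟩
      rw [← hcf]
      refine Ideal.sum_mem _ fun i _ => ?_
      by_cases hi : i ∈ J
      · have h4 : (cf i : 𝓞 K) * (ω i : 𝓞 K) ∈ 𝔟 * 𝔭 i ^ k := by
          have h5 := hcf
          rw [← Finset.add_sum_erase _ _ (Finset.mem_univ i)] at h5
          have h6 : (cf i : 𝓞 K) * (ω i : 𝓞 K) = x -
              ∑ j ∈ Finset.univ.erase i, (cf j : 𝓞 K) * (ω j : 𝓞 K) := by
            rw [← h5]; ring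
          rw [h6]
          refine Ideal.sub_mem _ ?_ (Ideal.sum_mem _ fun j hj => ?_)
          · have h9 : 𝔭 i ^ k ∣ ∏ i ∈ J, 𝔭 i ^ k := Finset.dvd_prod_of_mem (fun i => 𝔭 i ^ k) hi
            have h10 : 𝔟 * ∏ i ∈ J, 𝔭 i ^ k ≤ 𝔟 * 𝔭 i ^ k :=
              Ideal.mul_mono le_rfl (Ideal.dvd_iff_le.1 h9)
            exact h10 hx1
          · exact Ideal.mul_mem_left _ _ ((hω i hi).2 j (Finset.ne_of_mem_erase hj))
        have h7 := mul_gen (hdJ i hi) h𝔟 (ω i).2 (hω i hi).1 h4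
        obtain ⟨c, hc'⟩ := (dvd_pow_self (p : ℤ) (by omega : k ≠ 0)).trans h7
        have h8 : (cf i : 𝓞 K) * (ω i : 𝓞 K) = ((ω i : 𝓞 K) * (p : 𝓞 K)) * (c : 𝓞 K) := by
          rw [hc']
          push_cast
          ring
        rw [h8]
        refine Ideal.mul_mem_right _ _ ?_
        exact Ideal.mul_mem_mul (ω i).2 hd'.mem
      · exact Ideal.mul_mem_left _ _ (hc i hi)
    -- the reindexed basis
    set ω1 : Module.Basis ι ℤ 𝔟 := ω.reindex (Equiv.swap i' j0) with hω1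
    have hω1a : ∀ j, ω1 j = ω (Equiv.swap i' j0 j) := fun j => by
      rw [hω1, Module.Basis.reindex_apply, Equiv.symm_swap]
    have hω1i : (ω1 i' : 𝓞 K) ∉ 𝔟 * 𝔭 i' := by
      rw [hω1a, Equiv.swap_apply_left]
      exact hj0'
    have hω1J : ∀ i ∈ J, (ω1 i : 𝓞 K) ∉ 𝔟 * 𝔭 i ∧ ∀ j, j ≠ i → (ω1 j : 𝓞 K) ∈ 𝔟 * 𝔭 i ^ k := by
      intro i hi
      have n1 : i ≠ i' := fun he => hi' (he ▸ hi)
      have n2 : i ≠ j0 := fun he => hj0 (he ▸ hi)
      have e1 : Equiv.swap i' j0 i = i := Equiv.swap_apply_of_ne_of_ne n1 n2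
      refine ⟨?_, fun j hj => ?_⟩
      · rw [hω1a, e1]
        exact (hω i hi).1
      · rw [hω1a]
        refine (hω i hi).2 _ fun he => hj ?_
        have := (Equiv.swap i' j0).injective (he.trans e1.symm)
        exact this
    -- the transvection
    have hex : ∀ j, ∃ c : ℤ, (ω1 j : 𝓞 K) - c * (ω1 i' : 𝓞 K) ∈ 𝔟 * 𝔭 i' ^ k := fun j =>
      pivot hd' k (ω1 i').2 hω1i (ω1 j).2
    choose c hc using hex
    set f : Module.Dual ℤ 𝔟 := ∑ j, (if j = i' then 0 else -c j) • ω1.coord j with hf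
    have hfb : ∀ i, f (ω1 i) = if i = i' then 0 else -c i := by
      intro i
      rw [hf, LinearMap.sum_apply]
      simp only [LinearMap.smul_apply, Module.Basis.coord_apply, Module.Basis.repr_self, smul_eq_mul]
      rw [Finset.sum_eq_single i]
      · simp
      · intro j _ hj
        rw [Finsupp.single_apply, if_neg (Ne.symm hj), mul_zero]
      · intro hi
        exact absurd (Finset.mem_univ i) hi
    have hf0 : f (ω1 i') = 0 := by rw [hfb, if_pos rfl]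
    set ω2 := ω1.map (LinearEquiv.transvection hf0) with hω2
    have hω2i : ω2 i' = ω1 i' := by
      rw [hω2, Module.Basis.map_apply, LinearEquiv.transvection.apply, hf0, zero_smul, add_zero]
    have hω2j : ∀ j, j ≠ i' → (ω2 j : 𝓞 K) = (ω1 j : 𝓞 K) - c j * (ω1 i' : 𝓞 K) := by
      intro j hj
      rw [hω2, Module.Basis.map_apply, LinearEquiv.transvection.apply, hfb, if_neg hj]
      push_cast
      rw [neg_smul, zsmul_eq_mul]
      ring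
    refine ⟨ω2, fun i hi => ?_⟩
    rcases Finset.mem_insert.1 hi with rfl | hi
    · refine ⟨by rw [hω2i]; exact hω1i, fun j hj => ?_⟩
      rw [hω2j j hj]
      exact hc j
    · have n1 : i ≠ i' := fun he => hi' (he ▸ hi)
      obtain ⟨g1, g2⟩ := hω1J i hi
      have g3 : (ω1 i' : 𝓞 K) ∈ 𝔟 * 𝔭 i ^ k := g2 i' n1.symm
      refine ⟨fun hmem => g1 ?_, fun j hj => ?_⟩
      · rw [hω2j i n1] at hmem
        have h8 : (ω1 i : 𝓞 K) = ((ω1 i : 𝓞 K) - c i * (ω1 i' : 𝓞 K)) + c i * (ω1 i' : 𝓞 K) := by ring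
        rw [h8]
        refine Ideal.add_mem _ hmem (Ideal.mul_mem_left _ _ ?_)
        exact Ideal.mul_mono le_rfl (Ideal.pow_le_self (by omega)) g3
      · by_cases hji : j = i'
        · rw [hji, hω2i]
          exact g3
        · rw [hω2j j hji]
          exact Ideal.sub_mem _ (g2 j hj) (Ideal.mul_mem_left _ _ g3)

end basis

section bal

variable {K : Type} [Field K] [NumberField K] [DecidableEq (K →+* ℂ)]

/-- **the lattices are balanced** -/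
theorem bal_bmW {p : ℕ} {𝔭 : (K →+* ℂ) → Ideal (𝓞 K)} {κ : (K →+* ℂ) → ℕ} (h : Sup p 𝔭 κ)
    {e : (K →+* ℂ) → ℕ} (he : ∀ i, e i ≤ κ i) {𝔟 : Ideal (𝓞 K)}
    {ω : Module.Basis (K →+* ℂ) ℤ 𝔟}
    (hω : ∀ i j, j ≠ i → (ω j : 𝓞 K) ∈ 𝔟 * 𝔭 i ^ κ i)
    (h𝔟 : 𝔟 ≠ ⊥) (y : InfinitePlace K → ℝ) :
    Bal (CBX K) (bmX (fun i => (ω i : 𝓞 K)) y * Dm (ew p e)) := by
  have hp0 : (0 : ℝ) < p := by exact_mod_cast h.hp.pos
  set v : (K →+* ℂ) → 𝓞 K := fun i => (ω i : 𝓞 K) with hv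
  set B := bmX v y with hB
  have hN0 : (0 : ℝ) < Ideal.absNorm 𝔟 := by
    have : Ideal.absNorm 𝔟 ≠ 0 := fun h1 => h𝔟 (Ideal.absNorm_eq_zero_iff.1 h1)
    exact_mod_cast Nat.pos_of_ne_zero this
  have hdK := dKX_pos (K := K)
  have hdet : |B.det| = Real.exp ((∑ w : InfinitePlace K, (w.mult : ℝ) * y w) / 2) * dKX K *
      (Ideal.absNorm 𝔟 : ℝ) := abs_det_bmX ω y
  have hBd : B.det ≠ 0 := by
    rw [← abs_pos, hdet]; positivity
  unfold CBX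
  refine bal_of_norm (inv_pos.2 hdK) (det_mul_Dm_ne hBd (ew_ne h.hp.pos e)) fun x hx => ?_
  set z : 𝓞 K := ∑ i, (cz (pw p e) * x) i • v i with hz
  have e1 : ∀ φ, ((B * Dm (ew p e)) *ᵥ rc x) φ =
      Real.exp (y (InfinitePlace.mk φ) / 2) * rr φ (z : K) := by
    intro φ
    rw [← Matrix.mulVec_mulVec]
    have e2 : Dm (ew p e) *ᵥ rc x = rc (cz (pw p e) * x) := by
      rw [lp_dv, rc_cz, cr_pw]
    rw [e2, hB, bmX_mulVec]
  have hz0 : z ≠ 0 := by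
    refine sum_basis_ne ω (fun h0 => hx ?_)
    exact (dv_eq_zero (cz_ne (pw_pos h.hp.pos e))).1 h0
  have hzb : z ∈ 𝔟 := sum_mem_ideal ω _
  have hzm : z ∈ 𝔟 * ∏ i, 𝔭 i ^ e i := by
    refine mem_prodW h h𝔟 Finset.univ he hzb fun i _ => ?_
    rw [hz]
    refine Ideal.sum_mem _ fun j _ => ?_
    rw [zsmul_eq_mul]
    by_cases hji : j = i
    · subst hji
      have e3 : (((cz (pw p e) * x) j : ℤ) : 𝓞 K) * v j = v j * ((p : 𝓞 K) ^ e j) * (x j : 𝓞 K) := by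
        rw [Pi.mul_apply, cz_pw_apply]
        push_cast
        ring
      rw [e3]
      refine Ideal.mul_mem_right _ _ (Ideal.mul_mem_mul (ω j).2 ?_)
      exact h.p_mem j (he j)
    · refine Ideal.mul_mem_left _ _ ?_
      exact Ideal.mul_mono le_rfl (Ideal.pow_le_pow_right (he i)) (hω i j hji)
  have h1 := norm_geX hzm hz0
  have e4 : Ideal.absNorm (∏ i, 𝔭 i ^ e i) = p ^ ∑ i, e i := by
    rw [map_prod, ← Finset.prod_pow_eq_pow_sum]
    exact Finset.prod_congr rfl fun i _ => h.norm_pow (he i)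
  rw [map_mul, e4] at h1
  push_cast at h1
  rw [det_mul_Dm, prod_ew, abs_mul, abs_of_pos (by positivity : (0 : ℝ) < (p : ℝ) ^ ∑ i, e i), hdet]
  have h2 := prod_le_norm y (z : K) ((B * Dm (ew p e)) *ᵥ rc x) e1
  refine le_trans ?_ h2
  calc (dKX K)⁻¹ * (Real.exp ((∑ w : InfinitePlace K, (w.mult : ℝ) * y w) / 2) * dKX K *
        (Ideal.absNorm 𝔟 : ℝ) * (p : ℝ) ^ ∑ i, e i) =
        Real.exp ((∑ w : InfinitePlace K, (w.mult : ℝ) * y w) / 2) *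
          ((Ideal.absNorm 𝔟 : ℝ) * (p : ℝ) ^ ∑ i, e i) := by
        field_simp
    _ ≤ _ := mul_le_mul_of_nonneg_left h1 (Real.exp_pos _).le

end bal

end Pool.Agent.J4H31.W
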