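import Pool.Agent.J4H31.W.W5

/-!
The Dirichlet characters attached to a Hecke character of conductor `𝔠 ∏ 𝔭_j ^ κ_j`, and the
characters of a coset.
-/

set_option autoImplicit false
set_option linter.unusedSectionVars false

open NumberField Matrix
open Pool.Agent.J4H31.U (Kap Pk IsModK PrimK Pk_of_eq Pk_zero)

namespace Pool.Agent.J4H31.W

variable {K : Type} [Field K] [NumberField K]

section one

variable {p k : ℕ} {𝔭 𝔠 : Ideal (𝓞 K)} {α : K → ℂ} {η : Ideal (𝓞 K) →*₀ ℂ} {u v : 𝓞 K}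

lemma Fc_zero_exp (hM : IsModK (𝔠 * 𝔭 ^ 0) α η) (hs : Spl p 𝔭 𝔠 0 u v) (n : ℤ) :
    U.Fc η α u v n = 1 := by
  have ht : (⊤ : Ideal (𝓞 K)) ≠ ⊥ := top_ne_bot
  unfold U.Fc
  have h1 : Pk η α ⊤ ((n : 𝓞 K) * u + v) = Pk η α ⊤ 1 := by
    refine U.Fc_congr hM ?_
    rw [pow_zero, mul_one]
    have e1 : (n : 𝓞 K) * u + v - 1 = ((n : 𝓞 K) - 1) * u := by
      linear_combination hs.huv
    rw [e1]
    exact Ideal.mul_mem_left _ _ hs.hu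
  rw [h1, Pk_of_eq ht (Ideal.mul_top _)]
  exact hM.sig 1 one_ne_zero (by rw [sub_self]; exact Ideal.zero_mem _)

/-- **the Dirichlet character**, exponent zero allowed -/
theorem exists_char0 (hd : k ≠ 0 → Deg1 p 𝔭) (hM : IsModK (𝔠 * 𝔭 ^ k) α η)
    (hs : Spl p 𝔭 𝔠 k u v) : ∃ χ : DirichletCharacter ℂ (p ^ k), ∀ n : ℤ,
      χ (n : ZMod (p ^ k)) = U.Fc η α u v n := by
  rcases Nat.eq_zero_or_pos k with rfl | hk
  · refine ⟨1, fun n => ?_⟩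
    rw [Fc_zero_exp hM hs]
    have h1 : (n : ZMod (p ^ 0)) = 1 := by
      have : Subsingleton (ZMod (p ^ 0)) := by
        rw [pow_zero]; infer_instance
      exact Subsingleton.elim _ _
    rw [h1, map_one]
  · exact U.exists_char (hd (by omega)) hk hM hs

/-- two characters which agree at the `x ≡ 1` modulo `𝔠 𝔭 ^ a` -/
theorem exists_tau {a : ℕ} (hp : p.Prime) (hd : k ≠ 0 → Deg1 p 𝔭) (hak : a ≤ k) {α' : K → ℂ}
    {η' : Ideal (𝓞 K) →*₀ ℂ} (hM : IsModK (𝔠 * 𝔭 ^ k) α η) (hM' : IsModK (𝔠 * 𝔭 ^ k) α' η')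
    (hs : Spl p 𝔭 𝔠 k u v)
    (hcos : ∀ x : 𝓞 K, x - 1 ∈ 𝔠 * 𝔭 ^ a → Pk η' α' ⊤ x = Pk η α ⊤ x) :
    ∃ τ : DirichletCharacter ℂ (p ^ a), ∀ n : ℤ,
      U.Fc η' α' u v n = τ (n : ZMod (p ^ a)) * U.Fc η α u v n := by
  rcases Nat.eq_zero_or_pos k with rfl | hk
  · obtain rfl : a = 0 := by omega
    refine ⟨1, fun n => ?_⟩
    rw [Fc_zero_exp hM hs, Fc_zero_exp hM' hs]
    have h1 : (n : ZMod (p ^ 0)) = 1 := by
      have : Subsingleton (ZMod (p ^ 0)) := by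
        rw [pow_zero]; infer_instance
      exact Subsingleton.elim _ _
    rw [h1, map_one, one_mul]
  have hd1 := hd (by omega)
  have hne : NeZero (p ^ k) := ⟨pow_ne_zero _ hp.ne_zero⟩
  have hne' : NeZero (p ^ a) := ⟨pow_ne_zero _ hp.ne_zero⟩
  obtain ⟨χ, hχ⟩ := U.exists_char hd1 hk hM hs
  obtain ⟨χ', hχ'⟩ := U.exists_char hd1 hk hM' hs
  have hdvd : p ^ a ∣ p ^ k := pow_dvd_pow _ hak
  have hft : (χ' * χ⁻¹).FactorsThrough (p ^ a) := by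
    rw [DirichletCharacter.factorsThrough_iff_ker_unitsMap hdvd]
    intro x hx
    rw [MonoidHom.mem_ker] at hx ⊢
    set n : ℤ := ((x : ZMod (p ^ k)).val : ℤ) with hn
    have hnx : ((n : ℤ) : ZMod (p ^ k)) = (x : ZMod (p ^ k)) := by
      rw [hn]
      push_cast
      rw [ZMod.natCast_zmod_val]
    have hn1 : (p : ℤ) ^ a ∣ n - 1 := by
      have h1 := congrArg Units.val hx
      rw [ZMod.unitsMap_val, Units.val_one, ← hnx] at h1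
      have h2 : ((((n : ℤ) : ZMod (p ^ k)).cast : ZMod (p ^ a))) = (n : ZMod (p ^ a)) :=
        ZMod.cast_intCast hdvd n (R := ZMod (p ^ a))
      rw [h2] at h1
      have h3 : ((n - 1 : ℤ) : ZMod (p ^ a)) = 0 := by
        push_cast
        rw [h1, sub_self]
      rw [ZMod.intCast_zmod_eq_zero_iff_dvd] at h3
      exact_mod_cast h3
    have hy : (n : 𝓞 K) * u + v - 1 ∈ 𝔠 * 𝔭 ^ a := by
      have e1 : (n : 𝓞 K) * u + v - 1 = u * ((n - 1 : ℤ) : 𝓞 K) := by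
        push_cast
        linear_combination hs.huv
      rw [e1]
      refine Ideal.mul_mem_mul hs.hu ?_
      obtain ⟨m, hm⟩ := hn1
      rw [hm]
      push_cast
      exact Ideal.mul_mem_right _ _ (Ideal.pow_mem_pow hd1.mem a)
    have h4 : χ' (x : ZMod (p ^ k)) = χ (x : ZMod (p ^ k)) := by
      rw [← hnx, hχ, hχ']
      exact hcos _ hy
    apply Units.ext
    rw [MulChar.coe_toUnitHom, MulChar.mul_apply, Units.val_one, h4, MulChar.inv_apply_eq_inv']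
    refine mul_inv_cancel₀ ?_
    have h5 : IsUnit (χ (x : ZMod (p ^ k))) := x.isUnit.map χ
    exact h5.ne_zero
  obtain ⟨_, τ, hτ⟩ := hft
  refine ⟨τ, fun n => ?_⟩
  by_cases hn : (p : ℤ) ∣ n
  · rw [U.Fc_nonunit hd1 hk hM' hs hn, U.Fc_nonunit hd1 hk hM hs hn, mul_zero]
  · have hnu : IsUnit (n : ZMod (p ^ k)) := Pool.Agent.Y779.R3.unit_int (r := k) hp hn
    have h1 : (χ' * χ⁻¹) (n : ZMod (p ^ k)) = τ (n : ZMod (p ^ a)) := by
      have h2 := DirichletCharacter.changeLevel_eq_cast_of_dvd τ hdvd hnu.unit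
      rw [IsUnit.unit_spec] at h2
      rw [hτ, h2, ZMod.cast_intCast hdvd n]
    rw [← h1, MulChar.mul_apply, MulChar.inv_apply_eq_inv', hχ, hχ', mul_assoc, inv_mul_cancel₀,
      mul_one]
    rw [← hχ]
    exact (hnu.map χ).ne_zero

end one

variable {ι : Type} [Fintype ι] [DecidableEq ι]

/-- the complementary ideals -/
noncomputable def ciW (𝔭 : ι → Ideal (𝓞 K)) (𝔠 : Ideal (𝓞 K)) (κ : ι → ℕ) (i : ι) :
    Ideal (𝓞 K) := 𝔠 * ∏ j ∈ Finset.univ.erase i, 𝔭 j ^ κ j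

lemma ciW_mul (𝔭 : ι → Ideal (𝓞 K)) (𝔠 : Ideal (𝓞 K)) (κ : ι → ℕ) (i : ι) :
    ciW 𝔭 𝔠 κ i * 𝔭 i ^ κ i = 𝔠 * ∏ j, 𝔭 j ^ κ j := by
  unfold ciW
  rw [← Finset.mul_prod_erase _ _ (Finset.mem_univ i)]
  ring

lemma ciW_cop {p : ℕ} {𝔭 : ι → Ideal (𝓞 K)} {κ : ι → ℕ} (h : Sup p 𝔭 κ) {𝔠 : Ideal (𝓞 K)}
    (hc : IsCoprime 𝔠 (∏ j, 𝔭 j ^ κ j)) (i : ι) : IsCoprime (ciW 𝔭 𝔠 κ i) (𝔭 i ^ κ i) := by
  unfold ciW
  refine IsCoprime.mul_left ?_ (IsCoprime.prod_left fun j hj => ?_)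
  · rw [IsCoprime.prod_right_iff] at hc
    exact hc i (Finset.mem_univ i)
  · exact h.cop (Finset.ne_of_mem_erase hj) le_rfl le_rfl

/-- the splittings of one -/
structure SplW (p : ℕ) (𝔭 : ι → Ideal (𝓞 K)) (𝔠 : Ideal (𝓞 K)) (κ : ι → ℕ) (u v : ι → 𝓞 K) :
    Prop where
  spl : ∀ i, Spl p (𝔭 i) (ciW 𝔭 𝔠 κ i) (κ i) (u i) (v i)

lemma exists_splW {p : ℕ} {𝔭 : ι → Ideal (𝓞 K)} {κ : ι → ℕ} (h : Sup p 𝔭 κ) {𝔠 : Ideal (𝓞 K)}
    (hc : IsCoprime 𝔠 (∏ j, 𝔭 j ^ κ j)) : ∃ u v : ι → 𝓞 K, SplW p 𝔭 𝔠 κ u v := by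
  have hex := fun i => Ideal.isCoprime_iff_exists.1 (ciW_cop h hc i)
  choose u hu v hv huv using hex
  exact ⟨u, v, ⟨fun i => ⟨hu i, hv i, huv i⟩⟩⟩

/-- the values on a class -/
lemma val_clsW {p : ℕ} {𝔭 : ι → Ideal (𝓞 K)} {κ : ι → ℕ} {𝔠 : Ideal (𝓞 K)} {α : K → ℂ}
    {η : Ideal (𝓞 K) →*₀ ℂ} {u v : ι → 𝓞 K} (h : Sup p 𝔭 κ)
    (hM : IsModK (𝔠 * ∏ j, 𝔭 j ^ κ j) α η) (hs : SplW p 𝔭 𝔠 κ u v) {𝔟 : Ideal (𝓞 K)}
    (h𝔟 : 𝔟 ≠ ⊥) (h𝔠 : 𝔠 ≠ ⊥) {ρ : 𝓞 K} (hρ : ∀ i, ρ ∈ 𝔟 * 𝔭 i ^ κ i)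
    {ω : Module.Basis ι ℤ (𝔟 * 𝔠 : Ideal (𝓞 K))}
    (hω : ∀ i j, j ≠ i → (ω j : 𝓞 K) ∈ (𝔟 * 𝔠) * 𝔭 i ^ κ i) (x : ι → ℤ) :
    Pk η α 𝔟 (ρ + ∑ i, x i • (ω i : 𝓞 K)) =
      (∏ i, U.Fc η α (u i) (v i) (x i)) * Pk η α 𝔟 (ρ + ∑ i, (ω i : 𝓞 K)) := by
  classical
  have key : ∀ S : Finset ι, Pk η α 𝔟 (ρ + ∑ i, x i • (ω i : 𝓞 K)) =
      (∏ i ∈ S, U.Fc η α (u i) (v i) (x i)) *
        Pk η α 𝔟 (ρ + ∑ i, (if i ∈ S then 1 else x i) • (ω i : 𝓞 K)) := by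
    intro S
    induction S using Finset.induction_on with
    | empty => simp
    | insert i S hi ih =>
      rw [ih, Finset.prod_insert hi, mul_comm (U.Fc η α (u i) (v i) (x i)), mul_assoc]
      congr 1
      set Y : 𝓞 K := ρ + ∑ j ∈ Finset.univ.erase i, (if j ∈ S then 1 else x j) • (ω j : 𝓞 K) with hY
      have e1 : ρ + ∑ j, (if j ∈ S then 1 else x j) • (ω j : 𝓞 K) = Y + x i * (ω i : 𝓞 K) := by
        rw [hY, ← Finset.add_sum_erase _ _ (Finset.mem_univ i), if_neg hi, zsmul_eq_mul]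
        ring
      have e2 : ρ + ∑ j, (if j ∈ insert i S then 1 else x j) • (ω j : 𝓞 K) = Y + (ω i : 𝓞 K) := by
        rw [hY, ← Finset.add_sum_erase _ _ (Finset.mem_univ i), if_pos (Finset.mem_insert_self i S),
          one_smul]
        have e3 : ∑ j ∈ Finset.univ.erase i, (if j ∈ insert i S then (1 : ℤ) else x j) •
            (ω j : 𝓞 K) = ∑ j ∈ Finset.univ.erase i, (if j ∈ S then (1 : ℤ) else x j) • (ω j : 𝓞 K) := by
          refine Finset.sum_congr rfl fun j hj => ?_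
          have hji := Finset.ne_of_mem_erase hj
          by_cases hjS : j ∈ S
          · rw [if_pos hjS, if_pos (Finset.mem_insert_of_mem hjS)]
          · rw [if_neg hjS, if_neg]
            rw [Finset.mem_insert]
            push Not
            exact ⟨hji, hjS⟩
        rw [e3]
        ring
      rw [e1, e2]
      have hM' : IsModK (ciW 𝔭 𝔠 κ i * 𝔭 i ^ κ i) α η := by rw [ciW_mul]; exact hM
      refine U.val_one hM' (hs.spl i) h𝔟 ?_ ?_ (x i)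
      · rw [hY]
        refine Ideal.add_mem _ (hρ i) (Ideal.sum_mem _ fun j hj => ?_)
        rw [zsmul_eq_mul]
        refine Ideal.mul_mem_left _ _ ?_
        exact Ideal.mul_mono Ideal.mul_le_left le_rfl (hω i j (Finset.ne_of_mem_erase hj))
      · unfold ciW
        rw [← mul_assoc]
        refine mem_prodW h (mul_ne_zero h𝔟 h𝔠) _ (fun i => le_rfl) (ω i).2 fun j hj => ?_
        exact hω j i (Finset.ne_of_mem_erase hj).symm
  have h1 := key Finset.univ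
  simp only [Finset.mem_univ, if_true, one_smul] at h1
  exact h1

end Pool.Agent.J4H31.W
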