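import Pool.Agent.J4H31.W.W6
import Pool.Agent.J4H31.U.U14

/-!
Mean squares of the theta series of a family of Hecke characters.
-/

set_option autoImplicit false
set_option linter.unusedSectionVars false

open NumberField Matrix MeasureTheory Complex
open Pool.Agent.Y773.G (mk_cj rr rr_add card_emb)
open Pool.Agent.J4H31.U (Kap Pk IsModK PrimK Pk_of_eq Pk_zero Pk_of_notMem norm_Pk_le bmX bmX_mulVec
  abs_det_bmX dKX dKX_pos Sel Ex tt ls orth_ls CH CH_nonneg CW CW_nonneg WL Orth WL_sum_le norm_WL_le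
  GX summable_tt)

namespace Pool.Agent.J4H31.W

section ms

variable {ι : Type} [Fintype ι] [DecidableEq ι]

lemma summable_WL (l : List (ι → ℂ)) {B : Matrix ι ι ℝ} (hB : B.det ≠ 0)
    {c : (ι → ℤ) → ℂ} (hc : ∀ x, ‖c x‖ ≤ 1) (v : ι → ℝ) :
    Summable fun x : ι → ℤ => c x * WL l (v + B *ᵥ rc x) := by
  refine Summable.of_norm_bounded
    ((summable_gw hB (lam := 2 / Real.pi) (by have := Real.pi_pos; positivity) (-v)).mul_left
      (CW l)) fun x => ?_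
  rw [norm_mul]
  calc _ ≤ 1 * (CW l * Real.exp (-2 * nsq (v + B *ᵥ rc x))) :=
        mul_le_mul (hc x) (norm_WL_le l _) (norm_nonneg _) zero_le_one
    _ = _ := by
        rw [one_mul]
        unfold gw gz
        have e1 : B *ᵥ rc x - -v = v + B *ᵥ rc x := by rw [sub_neg_eq_add, add_comm]
        have e2 : Real.pi * (2 / Real.pi) = 2 := by field_simp
        rw [e1, e2, neg_mul]

/-- Cauchy's inequality for a finite family of complex numbers -/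
lemma norm_sum_mul_sq_le {J : Type} [Fintype J] (a b : J → ℂ) :
    ‖∑ j, a j * b j‖ ^ 2 ≤ (∑ j, ‖a j‖ ^ 2) * ∑ j, ‖b j‖ ^ 2 := by
  have h1 : ‖∑ j, a j * b j‖ ≤ ∑ j, ‖a j‖ * ‖b j‖ := by
    refine (norm_sum_le _ _).trans (le_of_eq ?_)
    exact Finset.sum_congr rfl fun j _ => norm_mul _ _
  calc _ ≤ (∑ j, ‖a j‖ * ‖b j‖) ^ 2 := pow_le_pow_left₀ (norm_nonneg _) h1 2
    _ ≤ _ := Finset.sum_mul_sq_le_sq_mul_sq _ _ _

/-- **mean squares with weights `WL`** -/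
theorem WL_sum_ms {J : Type} [Fintype J] {l : List (ι → ℂ)} (hl : Orth l) {B : Matrix ι ι ℝ}
    (hB : B.det ≠ 0) {c : J → (ι → ℤ) → ℂ} (hc : ∀ j x, ‖c j x‖ ≤ 1) {X : ℝ} (hX0 : 0 ≤ X)
    (hX : ∀ u, ∑ j, ‖ES B 2 u (c j)‖ ^ 2 ≤ X ^ 2) (v : ι → ℝ) :
    ∑ j, ‖∑' x : ι → ℤ, c j x * WL l (v + B *ᵥ rc x)‖ ^ 2 ≤ (CH l * X) ^ 2 := by
  set Y : J → ℂ := fun j => ∑' x : ι → ℤ, c j x * WL l (v + B *ᵥ rc x) with hY
  set D : ℝ := ∑ j, ‖Y j‖ ^ 2 with hD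
  have hD0 : 0 ≤ D := Finset.sum_nonneg fun _ _ => sq_nonneg _
  set A : ℝ := ∑ j, ‖Y j‖ + 1 with hA
  have hA0 : 0 < A := by
    have : 0 ≤ ∑ j, ‖Y j‖ := Finset.sum_nonneg fun _ _ => norm_nonneg _
    linarith
  have hAc : (A : ℂ) ≠ 0 := by exact_mod_cast hA0.ne'
  set c' : (ι → ℤ) → ℂ := fun x => (A : ℂ)⁻¹ * ∑ j, (starRingEnd ℂ) (Y j) * c j x with hc'
  have hc1 : ∀ x, ‖c' x‖ ≤ 1 := by
    intro x
    simp only [hc']
    rw [norm_mul, norm_inv, Complex.norm_real, Real.norm_of_nonneg hA0.le, inv_mul_le_iff₀ hA0,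
      mul_one]
    refine (norm_sum_le _ _).trans ?_
    have : ∑ j, ‖(starRingEnd ℂ) (Y j) * c j x‖ ≤ ∑ j, ‖Y j‖ := by
      refine Finset.sum_le_sum fun j _ => ?_
      rw [norm_mul, Complex.norm_conj]
      exact mul_le_of_le_one_right (norm_nonneg _) (hc j x)
    linarith
  have hES : ∀ u, ES B 2 u c' = (A : ℂ)⁻¹ * ∑ j, (starRingEnd ℂ) (Y j) * ES B 2 u (c j) := by
    intro u
    have hs : ∀ j, Summable fun x : ι → ℤ => c j x * ((gw B 2 u x : ℝ) : ℂ) := by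
      intro j
      refine Summable.of_norm_bounded (summable_gw hB two_pos u) fun x => ?_
      rw [norm_mul, Complex.norm_real, Real.norm_of_nonneg (gw_pos _ _ _ _).le]
      exact mul_le_of_le_one_left (gw_pos _ _ _ _).le (hc j x)
    unfold ES
    simp_rw [← tsum_mul_left]
    rw [← Summable.tsum_finsetSum fun j _ => (hs j).mul_left _, ← tsum_mul_left]
    refine tsum_congr fun x => ?_
    simp only [hc']
    rw [Finset.mul_sum, Finset.mul_sum, Finset.sum_mul]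
    exact Finset.sum_congr rfl fun j _ => by ring
  have hX' : ∀ u, ‖ES B 2 u c'‖ ≤ A⁻¹ * (Real.sqrt D * X) := by
    intro u
    rw [hES, norm_mul, norm_inv, Complex.norm_real, Real.norm_of_nonneg hA0.le]
    refine mul_le_mul_of_nonneg_left ?_ (inv_nonneg.2 hA0.le)
    refine le_of_sq_le_sq ?_ (by positivity)
    refine (norm_sum_mul_sq_le _ _).trans ?_
    rw [mul_pow, Real.sq_sqrt hD0]
    simp_rw [Complex.norm_conj]
    exact mul_le_mul_of_nonneg_left (hX u) hD0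
  have h1 := WL_sum_le hl hB hc1 hX' v
  have h2 : ∑' x : ι → ℤ, c' x * WL l (v + B *ᵥ rc x) = (A : ℂ)⁻¹ * ((D : ℝ) : ℂ) := by
    have e1 : ((D : ℝ) : ℂ) = ∑ j, (starRingEnd ℂ) (Y j) * Y j := by
      rw [hD]
      push_cast
      refine Finset.sum_congr rfl fun j _ => ?_
      rw [Complex.conj_mul']
    have e2 : ∀ j, (starRingEnd ℂ) (Y j) * Y j =
        ∑' x : ι → ℤ, (starRingEnd ℂ) (Y j) * (c j x * WL l (v + B *ᵥ rc x)) := fun j => by
      rw [tsum_mul_left]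
    rw [e1, Finset.sum_congr rfl fun j _ => e2 j,
      ← Summable.tsum_finsetSum fun j _ => (summable_WL l hB (hc j) v).mul_left _,
      ← tsum_mul_left]
    refine tsum_congr fun x => ?_
    simp only [hc']
    rw [Finset.mul_sum, Finset.mul_sum, Finset.sum_mul]
    exact Finset.sum_congr rfl fun j _ => by ring
  rw [h2, norm_mul, norm_inv, Complex.norm_real, Real.norm_of_nonneg hA0.le, Complex.norm_real,
    Real.norm_of_nonneg hD0] at h1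
  have h3 : D ≤ CH l * X * Real.sqrt D := by
    have h4 : A⁻¹ * D ≤ A⁻¹ * (CH l * X * Real.sqrt D) := by
      refine h1.trans (le_of_eq ?_)
      ring
    exact le_of_mul_le_mul_left h4 (inv_pos.2 hA0)
  rcases hD0.eq_or_lt with h0 | h0
  · rw [← h0]
    positivity
  · have hs0 : 0 < Real.sqrt D := Real.sqrt_pos.2 h0
    have h5 : Real.sqrt D ≤ CH l * X := by
      refine le_of_mul_le_mul_right ?_ hs0
      rw [Real.mul_self_sqrt hD0]
      exact h3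
    calc D = Real.sqrt D ^ 2 := (Real.sq_sqrt hD0).symm
      _ ≤ _ := pow_le_pow_left₀ hs0.le h5 2

end ms

section cls

variable {K : Type} [Field K] [NumberField K]
variable {ι : Type} [Fintype ι] [DecidableEq ι]

lemma prod_sub_one_mem {y : ι → 𝓞 K} (I : Ideal (𝓞 K)) (S : Finset ι)
    (hS : ∀ i ∈ S, y i - 1 ∈ I) : ∏ i ∈ S, y i - 1 ∈ I := by
  induction S using Finset.induction_on with
  | empty => rw [Finset.prod_empty, sub_self]; exact I.zero_mem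
  | insert i S hi ih =>
    rw [Finset.prod_insert hi]
    have e1 : y i * ∏ j ∈ S, y j - 1 = (∏ j ∈ S, y j) * (y i - 1) + (∏ j ∈ S, y j - 1) := by ring
    rw [e1]
    exact I.add_mem (I.mul_mem_left _ (hS i (Finset.mem_insert_self i S)))
      (ih fun j hj => hS j (Finset.mem_insert_of_mem hj))

lemma Pk_prod {α : K → ℂ} (hα : Kap α) (η : Ideal (𝓞 K) →*₀ ℂ) (y : ι → 𝓞 K) (z : 𝓞 K)
    (S : Finset ι) : Pk η α ⊤ (z * ∏ i ∈ S, y i) = Pk η α ⊤ z * ∏ i ∈ S, Pk η α ⊤ (y i) := by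
  have ht : (⊤ : Ideal (𝓞 K)) ≠ ⊥ := top_ne_bot
  induction S using Finset.induction_on with
  | empty => rw [Finset.prod_empty, Finset.prod_empty, mul_one, mul_one]
  | insert i S hi ih =>
    rw [Finset.prod_insert hi, Finset.prod_insert hi]
    have e1 : z * (y i * ∏ j ∈ S, y j) = y i * (z * ∏ j ∈ S, y j) := by ring
    rw [e1, U.Pk_top_mul hα ht _ Submodule.mem_top, ih]
    ring

/-- decomposition of a residue class -/
lemma crtW {p : ℕ} {𝔭 : ι → Ideal (𝓞 K)} {κ : ι → ℕ} (h : Sup p 𝔭 κ) {𝔠 : Ideal (𝓞 K)}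
    (hc : IsCoprime 𝔠 (∏ j, 𝔭 j ^ κ j)) {u v : ι → 𝓞 K} (hs : SplW p 𝔭 𝔠 κ u v) (x : 𝓞 K) :
    ∃ (x0 : 𝓞 K) (n : ι → ℤ), x0 - 1 ∈ ∏ j, 𝔭 j ^ κ j ∧
      x0 * ∏ i, ((n i : 𝓞 K) * u i + v i) - x ∈ 𝔠 * ∏ j, 𝔭 j ^ κ j := by
  have hn : ∀ i, ∃ n : ℤ, x - n ∈ 𝔭 i ^ κ i := by
    intro i
    by_cases hi : κ i = 0
    · exact ⟨0, by rw [hi, pow_zero, Ideal.one_eq_top]; trivial⟩
    · exact (h.deg1 i hi).res_pow (κ i) x
  choose n hn using hn
  obtain ⟨a, ha, b, hb, hab⟩ := Ideal.isCoprime_iff_exists.1 hc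
  have hx01 : (x * b + a) - 1 ∈ ∏ j, 𝔭 j ^ κ j := by
    have : (x * b + a) - 1 = (x - 1) * b := by linear_combination hab
    rw [this]
    exact Ideal.mul_mem_left _ _ hb
  have hx0c : (x * b + a) - x ∈ 𝔠 := by
    have : (x * b + a) - x = (1 - x) * a := by linear_combination x * hab
    rw [this]
    exact Ideal.mul_mem_left _ _ ha
  refine ⟨x * b + a, n, hx01, ?_⟩
  generalize x * b + a = x0 at hx01 hx0c
  have hy1 : ∀ i, (n i : 𝓞 K) * u i + v i - 1 ∈ ciW 𝔭 𝔠 κ i := by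
    intro i
    have : (n i : 𝓞 K) * u i + v i - 1 = ((n i : 𝓞 K) - 1) * u i := by
      linear_combination (hs.spl i).huv
    rw [this]
    exact Ideal.mul_mem_left _ _ (hs.spl i).hu
  have hyx : ∀ i, (n i : 𝓞 K) * u i + v i - x ∈ 𝔭 i ^ κ i := by
    intro i
    have : (n i : 𝓞 K) * u i + v i - x = -(x - (n i : 𝓞 K)) + (1 - (n i : 𝓞 K)) * v i := by
      linear_combination (n i : 𝓞 K) * (hs.spl i).huv
    rw [this]
    exact Ideal.add_mem _ (neg_mem (hn i)) (Ideal.mul_mem_left _ _ (hs.spl i).hv)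
  generalize hy : (fun i => (n i : 𝓞 K) * u i + v i) = y
  have hyi : ∀ i, (n i : 𝓞 K) * u i + v i = y i := fun i => congrFun hy i
  simp_rw [hyi] at hy1 hyx ⊢
  have hci : ∀ i, ciW 𝔭 𝔠 κ i ≤ 𝔠 := fun i => Ideal.mul_le_left
  have hcj : ∀ i j, j ≠ i → ciW 𝔭 𝔠 κ i ≤ 𝔭 j ^ κ j := fun i j hj => by
    unfold ciW
    refine Ideal.mul_le_right.trans ?_
    exact Ideal.dvd_iff_le.1 (Finset.dvd_prod_of_mem (fun j => 𝔭 j ^ κ j)
      (Finset.mem_erase.2 ⟨hj, Finset.mem_univ j⟩))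
  have hP : ∀ i, ∏ j, 𝔭 j ^ κ j ≤ 𝔭 i ^ κ i := fun i =>
    Ideal.dvd_iff_le.1 (Finset.dvd_prod_of_mem (fun j => 𝔭 j ^ κ j) (Finset.mem_univ i))
  rw [Ideal.mul_eq_inf_of_isCoprime hc]
  refine ⟨?_, ?_⟩
  · have e1 : x0 * ∏ i, y i - x = x0 * (∏ i, y i - 1) + (x0 - x) := by ring
    rw [e1]
    exact Ideal.add_mem _ (Ideal.mul_mem_left _ _
      (prod_sub_one_mem 𝔠 Finset.univ fun i _ => hci i (hy1 i))) hx0c
  · have h3 : x0 * ∏ i, y i - x ∈ (⊤ : Ideal (𝓞 K)) * ∏ j, 𝔭 j ^ κ j := by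
      refine mem_prodW h top_ne_bot Finset.univ (fun i => le_rfl) Submodule.mem_top fun i _ => ?_
      rw [Ideal.top_mul, ← Finset.mul_prod_erase _ _ (Finset.mem_univ i)]
      have h4 : ∏ j ∈ Finset.univ.erase i, y j - 1 ∈ 𝔭 i ^ κ i :=
        prod_sub_one_mem _ _ fun j hj => hcj j i (Finset.ne_of_mem_erase hj).symm (hy1 j)
      have e1 : x0 * (y i * ∏ j ∈ Finset.univ.erase i, y j) - x =
          x0 * y i * (∏ j ∈ Finset.univ.erase i, y j - 1) + (x0 - 1) * y i + (y i - x) := by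
        ring
      rw [e1]
      exact Ideal.add_mem _ (Ideal.add_mem _ (Ideal.mul_mem_left _ _ h4)
        (Ideal.mul_mem_right _ _ (hP i hx01))) (hyx i)
    rwa [Ideal.top_mul] at h3

/-- the finite parts of two characters agree -/
theorem fin_eqW {p : ℕ} {𝔭 : ι → Ideal (𝓞 K)} {κ : ι → ℕ} (h : Sup p 𝔭 κ) {𝔠 : Ideal (𝓞 K)}
    (hc : IsCoprime 𝔠 (∏ j, 𝔭 j ^ κ j)) {α α' : K → ℂ} {η η' : Ideal (𝓞 K) →*₀ ℂ}
    {u v : ι → 𝓞 K} (hM : IsModK (𝔠 * ∏ j, 𝔭 j ^ κ j) α η)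
    (hM' : IsModK (𝔠 * ∏ j, 𝔭 j ^ κ j) α' η') (hs : SplW p 𝔭 𝔠 κ u v)
    (h1 : ∀ i, ∀ n : ℤ, U.Fc η' α' (u i) (v i) n = U.Fc η α (u i) (v i) n)
    (h2 : ∀ x : 𝓞 K, x - 1 ∈ ∏ j, 𝔭 j ^ κ j → Pk η' α' ⊤ x = Pk η α ⊤ x) (x : 𝓞 K) :
    Pk η' α' ⊤ x = Pk η α ⊤ x := by
  obtain ⟨x0, n, h3, h4⟩ := crtW h hc hs x
  rw [← Ideal.top_mul (𝔠 * ∏ j, 𝔭 j ^ κ j)] at h4
  rw [← hM.per top_ne_bot h4, ← hM'.per top_ne_bot h4, Pk_prod hM.kap, Pk_prod hM'.kap, h2 x0 h3]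
  congr 1
  exact Finset.prod_congr rfl fun i _ => h1 i (n i)

end cls

end Pool.Agent.J4H31.W
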