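import Pool.Agent.J4H31.W.W7

/-!
Mean squares of the theta series of a family of Hecke characters.
-/

set_option autoImplicit false
set_option linter.unusedSectionVars false

open NumberField Matrix MeasureTheory Complex
open Pool.Agent.Y773.G (mk_cj rr rr_add card_emb)
open Pool.Agent.J4H31.V (Dm ew du_mul_Dm det_mul_Dm_ne ew_ne)
open Pool.Agent.J4H31.U (Kap Pk IsModK PrimK Pk_of_eq Pk_zero Pk_of_notMem norm_Pk_le bmX bmX_mulVec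
  abs_det_bmX dKX dKX_pos Sel Ex tt ls orth_ls CH CH_nonneg CW CW_nonneg WL Orth WL_sum_le norm_WL_le
  GX summable_tt WL_sum_triv CBX CBX_nonneg bKX bmX_shift sum_mult)

namespace Pool.Agent.J4H31.W

variable {K : Type} [Field K] [NumberField K] [DecidableEq (K →+* ℂ)]

/-- the theta series in terms of the sums over the lattice -/
theorem tt_repW {p : ℕ} {𝔭 : (K →+* ℂ) → Ideal (𝓞 K)} {κ : (K →+* ℂ) → ℕ} (h : Sup p 𝔭 κ)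
    {𝔠 : Ideal (𝓞 K)} (hcop : IsCoprime 𝔠 (∏ j, 𝔭 j ^ κ j)) {u v : (K →+* ℂ) → 𝓞 K}
    (hs : SplW p 𝔭 𝔠 κ u v) {𝔟 : Ideal (𝓞 K)} (h𝔟 : 𝔟 ≠ ⊥) (h𝔠 : 𝔠 ≠ ⊥)
    {ω : Module.Basis (K →+* ℂ) ℤ (𝔟 * 𝔠 : Ideal (𝓞 K))}
    (hω : ∀ i j, j ≠ i → (ω j : 𝓞 K) ∈ (𝔟 * 𝔠) * 𝔭 i ^ κ i) (y : InfinitePlace K → ℝ) :
    ∃ (Q : Type) (_ : Fintype Q) (ρ : Q → 𝓞 K) (z : Q → (K →+* ℂ) → ℝ),
      Fintype.card Q = Ideal.absNorm 𝔠 ∧ ∀ (α : K → ℂ) (η : Ideal (𝓞 K) →*₀ ℂ),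
        IsModK (𝔠 * ∏ j, 𝔭 j ^ κ j) α η → ∀ (σ : InfinitePlace K → (K →+* ℂ))
        (e : InfinitePlace K → ℕ), tt σ e (Pk η α 𝔟) y =
          ∑ q, Pk η α 𝔟 (ρ q + ∑ i, (ω i : 𝓞 K)) * ∑' x : (K →+* ℂ) → ℤ,
            (∏ i, U.Fc η α (u i) (v i) (x i)) *
              WL (ls σ e) (z q + bmX (fun i => (ω i : 𝓞 K)) y *ᵥ rc x) := by
  obtain ⟨u', hu', v', hv', huv'⟩ := Ideal.isCoprime_iff_exists.1 hcop
  have hs' : Spl p (∏ j, 𝔭 j ^ κ j) 𝔠 1 u' v' := ⟨hu', by rw [pow_one]; exact hv', huv'⟩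
  obtain ⟨Q, hQ, ρ, h1, h2, h3, h4⟩ := reps h𝔠 h𝔟 hs'
  rw [pow_one] at h1
  have h1' : ∀ q i, ρ q ∈ 𝔟 * 𝔭 i ^ κ i := by
    intro q i
    have h5 : 𝔭 i ^ κ i ∣ ∏ j, 𝔭 j ^ κ j :=
      Finset.dvd_prod_of_mem (fun j => 𝔭 j ^ κ j) (Finset.mem_univ i)
    have h6 : 𝔟 * (∏ j, 𝔭 j ^ κ j) ≤ 𝔟 * 𝔭 i ^ κ i := Ideal.mul_mono le_rfl (Ideal.dvd_iff_le.1 h5)
    exact h6 (h1 q)
  refine ⟨Q, hQ, ρ, fun q φ => Real.exp (y (InfinitePlace.mk φ) / 2) * rr φ (ρ q : K), h4, ?_⟩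
  intro α η hM σ e
  have hPk1 : ∀ x, ‖Pk η α 𝔟 x‖ ≤ 1 := norm_Pk_le hM.kap hM.norm_le_one 𝔟
  set B := bmX (fun i => (ω i : 𝓞 K)) y with hB
  set Φ : Q × ((K →+* ℂ) → ℤ) → 𝓞 K := fun z => ρ z.1 + ∑ i, z.2 i • (ω i : 𝓞 K) with hΦ
  have hinj : Function.Injective Φ := by
    rintro ⟨q, x⟩ ⟨q', x'⟩ h
    simp only [hΦ] at h
    have hq : q = q' := by
      refine h3 q q' ?_
      have e1 : ρ q - ρ q' = ∑ i, x' i • (ω i : 𝓞 K) - ∑ i, x i • (ω i : 𝓞 K) := by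
        linear_combination h
      rw [e1]
      exact Ideal.sub_mem _ (sum_mem_ideal ω x') (sum_mem_ideal ω x)
    subst hq
    have := basis_inj ω (add_left_cancel h)
    rw [this]
  set g : 𝓞 K → ℂ := fun x => Pk η α 𝔟 x *
    GX σ e (fun w => Real.exp (y w / 2)) (x : K) with hg
  have hsum : Summable g := summable_tt σ e hPk1 (a := fun w => Real.exp (y w / 2))
    fun w => Real.exp_pos _
  have hsupp : Function.support g ⊆ Set.range Φ := by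
    intro x hx
    have hx𝔟 : x ∈ 𝔟 := by
      by_contra hc
      apply hx
      simp only [hg]
      rw [Pk_of_notMem hc, zero_mul]
    obtain ⟨q, hq⟩ := h2 x hx𝔟
    obtain ⟨z, hz⟩ := mem_basis ω hq
    refine ⟨(q, z), ?_⟩
    simp only [hΦ]
    rw [hz]; ring
  have e0 : tt σ e (Pk η α 𝔟) y = ∑ q : Q, ∑' x : (K →+* ℂ) → ℤ, g (Φ (q, x)) := by
    have e1 : tt σ e (Pk η α 𝔟) y = ∑' x, g x := rfl
    have hs2 : Summable fun z => g (Φ z) := hsum.comp_injective hinj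
    rw [e1, ← hinj.tsum_eq hsupp, hs2.tsum_prod, tsum_fintype]
  have hval : ∀ q x, g (Φ (q, x)) = Pk η α 𝔟 (ρ q + ∑ i, (ω i : 𝓞 K)) *
      ((∏ i, U.Fc η α (u i) (v i) (x i)) *
        (WL (ls σ e) ((fun φ => Real.exp (y (InfinitePlace.mk φ) / 2) * rr φ (ρ q : K)) +
          B *ᵥ rc x))) := by
    intro q x
    simp only [hg, hΦ]
    rw [val_clsW h hM hs h𝔟 h𝔠 (h1' q) hω x]
    unfold Pool.Agent.J4H31.U.GX
    have e2 : (fun φ : K →+* ℂ => (fun w => Real.exp (y w / 2)) (InfinitePlace.mk φ) *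
        rr φ ((ρ q + ∑ i, x i • (ω i : 𝓞 K) : 𝓞 K) : K)) =
        (fun φ => Real.exp (y (InfinitePlace.mk φ) / 2) * rr φ (ρ q : K)) + B *ᵥ rc x := by
      funext φ
      rw [Pi.add_apply, hB, bmX_mulVec]
      have e3 : ((ρ q + ∑ i, x i • (ω i : 𝓞 K) : 𝓞 K) : K) =
          (ρ q : K) + ((∑ i, x i • (ω i : 𝓞 K) : 𝓞 K) : K) := map_add (algebraMap (𝓞 K) K) _ _
      rw [e3, rr_add]
      ring
    rw [e2]
    ring
  rw [e0]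
  simp_rw [hval, tsum_mul_left]

/-- sums over fibres -/
lemma sum_fib_le {J T : Type} [Fintype J] [Fintype T] [DecidableEq T] (t : J → T) {m : ℕ}
    (hm : ∀ τ, (Finset.univ.filter fun j => t j = τ).card ≤ m) {f : T → ℝ} (hf : ∀ τ, 0 ≤ f τ) :
    ∑ j, f (t j) ≤ m * ∑ τ, f τ := by
  rw [← Finset.sum_fiberwise (Finset.univ : Finset J) t, Finset.mul_sum]
  refine Finset.sum_le_sum fun τ _ => ?_
  have e1 : ∑ j ∈ Finset.univ.filter (fun j => t j = τ), f (t j) =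
      ∑ _j ∈ Finset.univ.filter (fun j => t j = τ), f τ := by
    refine Finset.sum_congr rfl fun j hj => ?_
    rw [(Finset.mem_filter.1 hj).2]
  rw [e1, Finset.sum_const, nsmul_eq_mul]
  have h1 : ((Finset.univ.filter fun j => t j = τ).card : ℝ) ≤ m := by exact_mod_cast hm τ
  exact mul_le_mul_of_nonneg_right h1 (hf τ)

/-- **the mean square of the theta series in terms of sums over the lattice** -/
theorem tt_msW {p : ℕ} {𝔭 : (K →+* ℂ) → Ideal (𝓞 K)} {κ : (K →+* ℂ) → ℕ} (h : Sup p 𝔭 κ)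
    {𝔠 : Ideal (𝓞 K)} (hcop : IsCoprime 𝔠 (∏ j, 𝔭 j ^ κ j)) {u v : (K →+* ℂ) → 𝓞 K}
    (hs : SplW p 𝔭 𝔠 κ u v) {𝔟 : Ideal (𝓞 K)} (h𝔟 : 𝔟 ≠ ⊥) (h𝔠 : 𝔠 ≠ ⊥)
    {ω : Module.Basis (K →+* ℂ) ℤ (𝔟 * 𝔠 : Ideal (𝓞 K))}
    (hω : ∀ i j, j ≠ i → (ω j : 𝓞 K) ∈ (𝔟 * 𝔠) * 𝔭 i ^ κ i)
    {J : Type} [Fintype J] {α : J → K → ℂ} {η : J → Ideal (𝓞 K) →*₀ ℂ}
    (hM : ∀ j, IsModK (𝔠 * ∏ j, 𝔭 j ^ κ j) (α j) (η j))
    {a : (K →+* ℂ) → ℕ} {χ : (i : K →+* ℂ) → DirichletCharacter ℂ (p ^ κ i)}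
    {t : J → (i : K →+* ℂ) → DirichletCharacter ℂ (p ^ a i)}
    (ht : ∀ j i, ∀ n : ℤ, U.Fc (η j) (α j) (u i) (v i) n =
      t j i (n : ZMod (p ^ a i)) * χ i (n : ZMod (p ^ κ i))) {m : ℕ}
    (hm : ∀ τ, ∀ J' : Finset J, (∀ j ∈ J', t j = τ) → J'.card ≤ m)
    {σ : InfinitePlace K → (K →+* ℂ)} (hσ : Sel σ) {e : InfinitePlace K → ℕ}
    (he : Ex e) (y : InfinitePlace K → ℝ) {X : ℝ} (hX0 : 0 ≤ X)
    (hX : ∀ c, ∑ τ : (i : K →+* ℂ) → DirichletCharacter ℂ (p ^ a i),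
      ‖ES (bmX (fun i => (ω i : 𝓞 K)) y) 2 c
        (fun x => tch τ x * ∏ i, χ i ((x i : ℤ) : ZMod (p ^ κ i)))‖ ^ 2 ≤ X ^ 2) :
    ∑ j, ‖tt σ e (Pk (η j) (α j) 𝔟) y‖ ^ 2 ≤
      m * (Ideal.absNorm 𝔠 : ℝ) ^ 2 * (CH (ls σ e) * X) ^ 2 := by
  classical
  obtain ⟨Q, _, ρ, z, hcard, hrep⟩ := tt_repW h hcop hs h𝔟 h𝔠 hω y
  have hNc0 : (0 : ℝ) < Ideal.absNorm (𝔟 * 𝔠) := by
    have : Ideal.absNorm (𝔟 * 𝔠) ≠ 0 := fun h => mul_ne_zero h𝔟 h𝔠 (Ideal.absNorm_eq_zero_iff.1 h)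
    exact_mod_cast Nat.pos_of_ne_zero this
  have hdK := dKX_pos (K := K)
  have hBd : (bmX (fun i => (ω i : 𝓞 K)) y).det ≠ 0 := by
    rw [← abs_pos, abs_det_bmX]; positivity
  set B := bmX (fun i => (ω i : 𝓞 K)) y with hB
  set Y : Q → ((i : K →+* ℂ) → DirichletCharacter ℂ (p ^ a i)) → ℂ := fun q τ =>
    ∑' x : (K →+* ℂ) → ℤ, (tch τ x * ∏ i, χ i ((x i : ℤ) : ZMod (p ^ κ i))) *
      WL (ls σ e) (z q + B *ᵥ rc x) with hY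
  have hYsum : ∀ q, ∑ τ, ‖Y q τ‖ ^ 2 ≤ (CH (ls σ e) * X) ^ 2 := by
    intro q
    refine WL_sum_ms (orth_ls hσ he) hBd (fun τ x => ?_) hX0 hX (z q)
    rw [norm_mul]
    refine mul_le_one₀ (tch_norm τ x) (norm_nonneg _) ?_
    rw [norm_prod]
    exact Finset.prod_le_one (fun _ _ => norm_nonneg _) fun i _ => (χ i).norm_le_one _
  have h1 : ∀ j, ‖tt σ e (Pk (η j) (α j) 𝔟) y‖ ^ 2 ≤
      (Ideal.absNorm 𝔠 : ℝ) * ∑ q, ‖Y q (t j)‖ ^ 2 := by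
    intro j
    have hPk1 : ∀ x, ‖Pk (η j) (α j) 𝔟 x‖ ≤ 1 := norm_Pk_le (hM j).kap (hM j).norm_le_one 𝔟
    have e1 : tt σ e (Pk (η j) (α j) 𝔟) y =
        ∑ q, Pk (η j) (α j) 𝔟 (ρ q + ∑ i, (ω i : 𝓞 K)) * Y q (t j) := by
      rw [hrep _ _ (hM j)]
      refine Finset.sum_congr rfl fun q _ => ?_
      simp only [hY]
      congr 1
      refine tsum_congr fun x => ?_
      congr 1
      unfold tch
      rw [← Finset.prod_mul_distrib]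
      exact Finset.prod_congr rfl fun i _ => ht j i (x i)
    rw [e1]
    refine (norm_sum_mul_sq_le _ _).trans ?_
    refine mul_le_mul_of_nonneg_right ?_ (Finset.sum_nonneg fun _ _ => sq_nonneg _)
    rw [← hcard]
    calc _ ≤ ∑ _q : Q, (1 : ℝ) := by
          refine Finset.sum_le_sum fun q _ => ?_
          exact pow_le_one₀ (norm_nonneg _) (hPk1 _)
      _ = _ := by rw [Finset.sum_const, Finset.card_univ, nsmul_eq_mul, mul_one]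
  have hmm : ∀ τ, (Finset.univ.filter fun j => t j = τ).card ≤ m := fun τ =>
    hm τ _ fun j hj => (Finset.mem_filter.1 hj).2
  calc _ ≤ ∑ j, (Ideal.absNorm 𝔠 : ℝ) * ∑ q, ‖Y q (t j)‖ ^ 2 :=
        Finset.sum_le_sum fun j _ => h1 j
    _ = (Ideal.absNorm 𝔠 : ℝ) * ∑ q, ∑ j, ‖Y q (t j)‖ ^ 2 := by
        rw [← Finset.mul_sum, Finset.sum_comm]
    _ ≤ (Ideal.absNorm 𝔠 : ℝ) * ∑ _q : Q, (m * (CH (ls σ e) * X) ^ 2) := by
        refine mul_le_mul_of_nonneg_left ?_ (Nat.cast_nonneg _)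
        refine Finset.sum_le_sum fun q _ => ?_
        refine (sum_fib_le t hmm (f := fun τ => ‖Y q τ‖ ^ 2) fun τ => sq_nonneg _).trans ?_
        exact mul_le_mul_of_nonneg_left (hYsum q) (Nat.cast_nonneg _)
    _ = _ := by
        rw [Finset.sum_const, Finset.card_univ, nsmul_eq_mul, hcard]
        ring

/-- the trivial bound -/
theorem tt_trivW (hcard : Fintype.card (K →+* ℂ) = Module.finrank ℚ K) {𝔪 : Ideal (𝓞 K)}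
    {α : K → ℂ} {η : Ideal (𝓞 K) →*₀ ℂ} (hM : IsModK 𝔪 α η) {𝔟 : Ideal (𝓞 K)}
    (h𝔟 : 𝔟 ≠ ⊥) (σ : InfinitePlace K → (K →+* ℂ)) (e : InfinitePlace K → ℕ)
    (y : InfinitePlace K → ℝ) :
    ‖tt σ e (Pk η α 𝔟) y‖ ≤ CW (ls σ e) * (CBX K * 2 ^ (Fintype.card (K →+* ℂ)) /
      (Real.exp ((∑ w : InfinitePlace K, (w.mult : ℝ) * y w) / 2) * dKX K *
        (Ideal.absNorm 𝔟 : ℝ))) := by
  have hd : Sup 2 (fun _ : K →+* ℂ => (⊤ : Ideal (𝓞 K))) (fun _ => 0) :=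
    ⟨Nat.prime_two, fun i hi => absurd rfl hi, fun i j hi => absurd rfl hi, hcard⟩
  obtain ⟨ω, -⟩ := adaptedW (p := 2) (𝔭 := fun _ : K →+* ℂ => (⊤ : Ideal (𝓞 K))) le_rfl h𝔟 (bKX K) ∅
    (fun i hi => absurd hi (Finset.notMem_empty i)) (fun i hi => absurd hi (Finset.notMem_empty i))
  have hPk1 : ∀ x, ‖Pk η α 𝔟 x‖ ≤ 1 := norm_Pk_le hM.kap hM.norm_le_one 𝔟
  have hNc0 : (0 : ℝ) < Ideal.absNorm 𝔟 := by
    have : Ideal.absNorm 𝔟 ≠ 0 := fun h => h𝔟 (Ideal.absNorm_eq_zero_iff.1 h)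
    exact_mod_cast Nat.pos_of_ne_zero this
  have hdK := dKX_pos (K := K)
  have hdet := abs_det_bmX ω y
  have hBd : (bmX (fun i => (ω i : 𝓞 K)) y).det ≠ 0 := by
    rw [← abs_pos, hdet]; positivity
  have hω0 : ∀ i j, j ≠ i → (ω j : 𝓞 K) ∈ 𝔟 * (⊤ : Ideal (𝓞 K)) ^ 0 := fun i j _ => by
    rw [pow_zero, mul_one]
    exact (ω j).2
  have hbal := bal_bmW hd (e := 0) (fun i => le_refl 0) hω0 h𝔟 y
  rw [Pool.Agent.J4H31.V.ew_zero, Pool.Agent.J4H31.V.Dm_one, Matrix.mul_one] at hbal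
  set B := bmX (fun i => (ω i : 𝓞 K)) y with hB
  set Φ : ((K →+* ℂ) → ℤ) → 𝓞 K := fun z => ∑ i, z i • (ω i : 𝓞 K) with hΦ
  have hinj : Function.Injective Φ := fun x x' h => basis_inj ω h
  set g : 𝓞 K → ℂ := fun x => Pk η α 𝔟 x *
    GX σ e (fun w => Real.exp (y w / 2)) (x : K) with hg
  have hsupp : Function.support g ⊆ Set.range Φ := by
    intro x hx
    have hx𝔟 : x ∈ 𝔟 := by
      by_contra hc
      apply hx
      simp only [hg]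
      rw [Pk_of_notMem hc, zero_mul]
    exact mem_basis ω hx𝔟
  have e1 : tt σ e (Pk η α 𝔟) y = ∑' x : (K →+* ℂ) → ℤ, Pk η α 𝔟 (Φ x) *
      WL (ls σ e) (B *ᵥ rc x) := by
    have e2 : tt σ e (Pk η α 𝔟) y = ∑' x, g x := rfl
    rw [e2, ← hinj.tsum_eq hsupp]
    refine tsum_congr fun x => ?_
    simp only [hg]
    unfold Pool.Agent.J4H31.U.GX
    congr 2
    funext w
    rw [hB, bmX_mulVec]
  rw [e1]
  refine (WL_sum_triv (ls σ e) hBd (fun x => hPk1 _) ?_).trans ?_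
  · simp only [hΦ, Pi.zero_apply, zero_smul, Finset.sum_const_zero]
    exact Pk_zero h𝔟
  · have h1 := th1_le hBd CBX_nonneg hbal le_rfl (lam := 1 / 2) (by norm_num)
    rw [hdet] at h1
    exact mul_le_mul_of_nonneg_left h1 (CW_nonneg _)

end Pool.Agent.J4H31.W
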