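import Pool.Agent.J4H31.W.W8

/-!
The bound for the mean square of the theta series over a coset of Hecke characters.
-/

set_option autoImplicit false
set_option linter.unusedSectionVars false

open NumberField Matrix MeasureTheory Complex
open Pool.Agent.J4H31.V (Dm ew du_mul_Dm det_mul_Dm_ne ew_ne)
open Pool.Agent.J4H31.U (Kap Pk IsModK PrimK Pk_of_eq Pk_zero Pk_of_notMem norm_Pk_le bmX bmX_mulVec
  abs_det_bmX dKX dKX_pos Sel Ex tt ls orth_ls CH CH_nonneg CW CW_nonneg WL Orth WL_sum_le norm_WL_le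
  GX summable_tt WL_sum_triv CBX CBX_nonneg bKX bmX_shift sum_mult)

namespace Pool.Agent.J4H31.W

/-- a family of primitive characters of conductor `𝔣` which agree at the `x ≡ 1` modulo `𝔞` -/
structure Cos {K : Type} [Field K] [NumberField K] (𝔣 𝔞 : Ideal (𝓞 K)) {J : Type}
    (α : J → K → ℂ) (η : J → Ideal (𝓞 K) →*₀ ℂ) : Prop where
  mod : ∀ j, IsModK 𝔣 (α j) (η j)
  prim : ∀ j, PrimK 𝔣 (α j) (η j)
  cos : ∀ j j', ∀ x : 𝓞 K, x - 1 ∈ 𝔞 → Pk (η j') (α j') ⊤ x = Pk (η j) (α j) ⊤ x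

/-- characters with the same finite part: at most `m` -/
def Mult {K : Type} [Field K] [NumberField K] {J : Type} (α : J → K → ℂ)
    (η : J → Ideal (𝓞 K) →*₀ ℂ) (m : ℕ) : Prop :=
  ∀ J' : Finset J, (∀ j ∈ J', ∀ j' ∈ J', ∀ x : 𝓞 K, Pk (η j') (α j') ⊤ x = Pk (η j) (α j) ⊤ x) →
    J'.card ≤ m

section idx

variable {K : Type} [Field K] [NumberField K]
variable {ι : Type} [Fintype ι] [DecidableEq ι]

/-- **the Dirichlet characters of the members of a coset** -/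
theorem cos_tau {p : ℕ} {𝔭 : ι → Ideal (𝓞 K)} {κ : ι → ℕ} (h : Sup p 𝔭 κ) {𝔠 : Ideal (𝓞 K)}
    (hcop : IsCoprime 𝔠 (∏ j, 𝔭 j ^ κ j)) {a : ι → ℕ} (ha : ∀ i, a i ≤ κ i)
    {u v : ι → 𝓞 K} (hs : SplW p 𝔭 𝔠 κ u v)
    {J : Type} {α : J → K → ℂ} {η : J → Ideal (𝓞 K) →*₀ ℂ}
    (hC : Cos (𝔠 * ∏ j, 𝔭 j ^ κ j) (∏ j, 𝔭 j ^ a j) α η) (j0 : J) :
    ∃ (χ : (i : ι) → DirichletCharacter ℂ (p ^ κ i))
      (t : J → (i : ι) → DirichletCharacter ℂ (p ^ a i)),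
      (∀ i, κ i ≠ 0 → (χ i).IsPrimitive) ∧ (∀ j i, ∀ n : ℤ, U.Fc (η j) (α j) (u i) (v i) n =
        t j i (n : ZMod (p ^ a i)) * χ i (n : ZMod (p ^ κ i))) ∧
      ∀ j j', t j = t j' → ∀ x : 𝓞 K, Pk (η j') (α j') ⊤ x = Pk (η j) (α j) ⊤ x := by
  have hM' : ∀ j i, IsModK (ciW 𝔭 𝔠 κ i * 𝔭 i ^ κ i) (α j) (η j) := fun j i => by
    rw [ciW_mul]; exact hC.mod j
  have hP' : ∀ j i, PrimK (ciW 𝔭 𝔠 κ i * 𝔭 i ^ κ i) (α j) (η j) := fun j i => by
    rw [ciW_mul]; exact hC.prim j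
  have hle : ∀ i, ciW 𝔭 𝔠 κ i * 𝔭 i ^ a i ≤ ∏ j, 𝔭 j ^ a j := by
    intro i
    rw [← Finset.prod_erase_mul _ _ (Finset.mem_univ i)]
    refine Ideal.mul_mono ?_ le_rfl
    unfold ciW
    refine Ideal.mul_le_right.trans ?_
    refine Ideal.dvd_iff_le.1 (Finset.prod_dvd_prod_of_dvd _ _ fun j _ => ?_)
    exact pow_dvd_pow _ (ha j)
  have hex := fun i => exists_char0 (fun hi => h.deg1 i hi) (hM' j0 i) (hs.spl i)
  choose χ hχ using hex
  have hex2 := fun j i => exists_tau (a := a i) h.hp (fun hi => h.deg1 i hi) (ha i) (hM' j0 i)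
    (hM' j i) (hs.spl i) fun x hx => hC.cos j0 j x (hle i hx)
  choose t ht using hex2
  refine ⟨χ, t, fun i hi => U.char_prim (h.deg1 i hi) (Nat.one_le_iff_ne_zero.2 hi) (hM' j0 i)
    (hP' j0 i) (hs.spl i) (hχ i), fun j i n => by rw [ht j i n, hχ], fun j j' hjj x => ?_⟩
  refine fin_eqW h hcop (hC.mod j) (hC.mod j') hs (fun i n => ?_) (fun x hx => ?_) x
  · rw [ht j', ht j, hjj]
  · refine hC.cos j j' x ?_
    refine (Ideal.dvd_iff_le.1 (Finset.prod_dvd_prod_of_dvd _ _ fun j _ => ?_)) hx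
    exact pow_dvd_pow _ (ha j)

end idx

lemma card_char_le {n : ℕ} (hn : 0 < n) : Fintype.card (DirichletCharacter ℂ n) ≤ n := by
  have : NeZero n := ⟨hn.ne'⟩
  rw [← Nat.card_eq_fintype_card, DirichletCharacter.card_eq_totient_of_hasEnoughRootsOfUnity]
  exact Nat.totient_le _

/-- **the mean square of the theta series** -/
theorem tt_msbound (K : Type) [Field K] [NumberField K] {Δ H : ℝ} (hΔ : 1 ≤ Δ) (hH : 1 ≤ H) :
    ∃ C : ℝ, 1 ≤ C ∧ ∀ (p : ℕ) (𝔭 : (K →+* ℂ) → Ideal (𝓞 K)) (κ : (K →+* ℂ) → ℕ),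
      Sup p 𝔭 κ → 7 ≤ p → ∀ (𝔠 : Ideal (𝓞 K)), 𝔠 ≠ ⊥ → IsCoprime 𝔠 (∏ j, 𝔭 j ^ κ j) →
      ∀ k : ℕ, 1 ≤ k → (∀ i, κ i ≤ k) → ∀ a : (K →+* ℂ) → ℕ,
      (∀ i, a i ≤ κ i ∧ (κ i ≤ 2 * a i ∨ 30 ≤ κ i ∧ 19 * κ i ≤ 58 * a i)) →
      ∀ (J : Type) [Fintype J] (α : J → K → ℂ) (η : J → Ideal (𝓞 K) →*₀ ℂ) (m : ℕ),
      Cos (𝔠 * ∏ j, 𝔭 j ^ κ j) (∏ j, 𝔭 j ^ a j) α η → Mult α η m →
      ∀ 𝔟 : Ideal (𝓞 K), 𝔟 ≠ ⊥ → ∀ (σ : InfinitePlace K → (K →+* ℂ)), Sel σ →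
      ∀ (e : InfinitePlace K → ℕ), Ex e → CH (ls σ e) ≤ H → CW (ls σ e) ≤ H →
      ∀ (y : InfinitePlace K → ℝ) (t : ℝ),
      t = Real.exp ((∑ w : InfinitePlace K, (w.mult : ℝ) * y w) / 2) * Ideal.absNorm 𝔟 →
      1 ≤ Δ * Ideal.absNorm 𝔠 * (p : ℝ) ^ (∑ i, κ i) * t ^ 2 →
      ∑ j, ‖tt σ e (Pk (η j) (α j) 𝔟) y‖ ^ 2 ≤ C * m * (Ideal.absNorm 𝔠 : ℝ) ^ 2 *
        ((p : ℝ) * k) ^ (75 * Fintype.card (K →+* ℂ)) * (p : ℝ) ^ (∑ i, a i) / t := by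
  classical
  set n := Fintype.card (K →+* ℂ) with hn
  have hn1 : 1 ≤ n := Fintype.card_pos
  have hdK := dKX_pos (K := K)
  set C1 : ℝ := CBX K + Cdu n (CBX K) with hC1
  have hCB := CBX_nonneg (K := K)
  have hCdu := Cdu_pos n hCB
  have hC10 : 0 ≤ C1 := by positivity
  set CN : ℝ := Real.sqrt Δ / dKX K with hCN
  have hCN0 : 0 ≤ CN := by positivity
  set C3 : ℝ := 1 + C1 * 2 ^ n + C1 + CN with hC3
  have hC31 : 1 ≤ C3 := by
    have : 0 ≤ C1 * 2 ^ n + C1 + CN := by positivity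
    rw [hC3]; linarith
  set c2 : ℝ := Real.exp (n * Real.log 2 / 2) with hc2
  have hc21 : 1 ≤ c2 := Real.one_le_exp (by have := Real.log_pos (one_lt_two); positivity)
  set Ca : ℝ := H ^ 2 * (5 * C3 ^ 5) / dKX K with hCa
  set Cb : ℝ := (H * (CBX K * 2 ^ n)) ^ 2 * c2 / dKX K with hCb
  refine ⟨1 + Ca + Cb, ?_, ?_⟩
  · have h1 : 0 ≤ Ca := by positivity
    have h2 : 0 ≤ Cb := by positivity
    linarith
  intro p 𝔭 κ hd hp7 𝔠 h𝔠 hcop k hk hκk a ha J _ α η m hC hmult 𝔟 h𝔟 σ hσ e he hCH hCW y t ht hR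
  have hp0 : (0 : ℝ) < p := by exact_mod_cast hd.hp.pos
  have hp1 : (1 : ℝ) ≤ p := by exact_mod_cast hd.hp.one_le
  have hk1 : (1 : ℝ) ≤ k := by exact_mod_cast hk
  have hN𝔟 : (0 : ℝ) < Ideal.absNorm 𝔟 := by
    have : Ideal.absNorm 𝔟 ≠ 0 := fun h => h𝔟 (Ideal.absNorm_eq_zero_iff.1 h)
    exact_mod_cast Nat.pos_of_ne_zero this
  have hN𝔠' : 1 ≤ Ideal.absNorm 𝔠 := Nat.one_le_iff_ne_zero.2
    fun h => h𝔠 (Ideal.absNorm_eq_zero_iff.1 h)
  have hN𝔠 : (1 : ℝ) ≤ Ideal.absNorm 𝔠 := by exact_mod_cast hN𝔠'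
  have ht0 : 0 < t := by rw [ht]; positivity
  have hm0 : (0 : ℝ) ≤ m := Nat.cast_nonneg _
  rcases isEmpty_or_nonempty J with hJ | ⟨⟨j0⟩⟩
  · rw [Finset.univ_eq_empty, Finset.sum_empty]
    have h1 : 0 ≤ Ca := by positivity
    have h2 : 0 ≤ Cb := by positivity
    positivity
  set Nc : ℝ := (Ideal.absNorm 𝔠 : ℝ) with hNc
  have hNc0 : 0 < Nc := by linarith
  have hpk1 : (1 : ℝ) ≤ (p : ℝ) * k := by nlinarith
  have hppk : (p : ℝ) ≤ (p : ℝ) * k := le_mul_of_one_le_right hp0.le hk1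
  have hpa1 : (1 : ℝ) ≤ (p : ℝ) ^ (∑ i, a i) := one_le_pow₀ hp1
  -- the lattice
  have h𝔟𝔠 : 𝔟 * 𝔠 ≠ ⊥ := mul_ne_zero h𝔟 h𝔠
  obtain ⟨ω, hω0⟩ := adaptedW (p := p) (𝔭 := 𝔭) hk h𝔟𝔠 (bKX K)
    (Finset.univ.filter fun i => κ i ≠ 0) (fun i hi => hd.deg1 i (Finset.mem_filter.1 hi).2)
    (fun i hi j hj hij => hd.inj i j (Finset.mem_filter.1 hi).2 (Finset.mem_filter.1 hj).2 hij)
  have hω : ∀ i j, j ≠ i → (ω j : 𝓞 K) ∈ (𝔟 * 𝔠) * 𝔭 i ^ κ i := by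
    intro i j hj
    by_cases hi : κ i = 0
    · rw [hi, pow_zero, mul_one]
      exact (ω j).2
    · have h1 := (hω0 i (Finset.mem_filter.2 ⟨Finset.mem_univ i, hi⟩)).2 j hj
      exact (Ideal.mul_mono le_rfl (Ideal.pow_le_pow_right (hκk i))) h1
  obtain ⟨u, v, hs⟩ := exists_splW hd hcop
  obtain ⟨χ, T, hχp, hT, hTf⟩ := cos_tau hd hcop (fun i => (ha i).1) hs hC j0
  have hmT : ∀ τ, ∀ J' : Finset J, (∀ j ∈ J', T j = τ) → J'.card ≤ m := by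
    intro τ J' hJ'
    refine hmult J' fun j hj j' hj' x => hTf j j' ?_ x
    rw [hJ' j hj, hJ' j' hj']
  set y' : InfinitePlace K → ℝ := fun w => y w + Real.log 2 with hy'
  set B := bmX (fun i => (ω i : 𝓞 K)) y' with hBdef
  have hdet : |B.det| = t * c2 * dKX K * Nc := by
    rw [hBdef, abs_det_bmX, map_mul]
    have e1 : (∑ w : InfinitePlace K, (w.mult : ℝ) * y' w) / 2 =
        (∑ w : InfinitePlace K, (w.mult : ℝ) * y w) / 2 + n * Real.log 2 / 2 := by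
      simp only [hy', mul_add]
      rw [Finset.sum_add_distrib, ← Finset.sum_mul, sum_mult]
      ring
    rw [e1, Real.exp_add, ht]
    push_cast
    ring
  have hdet0 : 0 < |B.det| := by rw [hdet]; positivity
  have hB : B.det ≠ 0 := abs_pos.1 hdet0
  have hC1a : CBX K ≤ C1 := by rw [hC1]; linarith
  have hC1b : Cdu n (CBX K) ≤ C1 := by rw [hC1]; linarith
  have hbal : ∀ f : (K →+* ℂ) → ℕ, (∀ i, f i ≤ κ i) → Bal (CBX K) (B * Dm (ew p f)) :=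
    fun f hf => bal_bmW hd hf hω h𝔟𝔠 y'
  have hb : ∀ f : (K →+* ℂ) → ℕ, (∀ i, f i ≤ κ i) → Bal C1 (B * Dm (ew p f)) :=
    fun f hf => (hbal f hf).mono hC1a
  have hd' : ∀ f : (K →+* ℂ) → ℕ, (∀ i, f i ≤ κ i) → Bal C1 (du B * Dm (ew p f)⁻¹) := by
    intro f hf
    have hne := ew_ne hd.hp.pos f
    rw [← du_mul_Dm B hne]
    exact (bal_du hCB (det_mul_Dm_ne hB hne) (hbal f hf)).mono hC1b
  set L : ℝ := C3 * ((p : ℝ) * k) ^ (15 * n) with hL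
  have hpk15 : (1 : ℝ) ≤ ((p : ℝ) * k) ^ (15 * n) := one_le_pow₀ hpk1
  have hCL : ∀ x : ℝ, x ≤ C3 → x ≤ L := fun x hx =>
    hx.trans (le_mul_of_one_le_right (by linarith) hpk15)
  have hCN2 : CN ^ 2 = Δ / dKX K ^ 2 := by
    rw [hCN, div_pow, Real.sq_sqrt (by linarith)]
  have hNsq : |B.det|⁻¹ ^ 2 ≤ CN ^ 2 * (p : ℝ) ^ (∑ i, κ i) := by
    rw [hdet, hCN2, inv_pow, div_mul_eq_mul_div, le_div_iff₀ (by positivity), inv_mul_eq_div,
      div_le_iff₀ (by positivity)]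
    calc dKX K ^ 2 = dKX K ^ 2 * 1 := (mul_one _).symm
      _ ≤ dKX K ^ 2 * (Δ * Nc * (p : ℝ) ^ (∑ i, κ i) * t ^ 2) := by gcongr
      _ ≤ dKX K ^ 2 * (Δ * (Nc * Nc * (c2 * c2)) * (p : ℝ) ^ (∑ i, κ i) * t ^ 2) := by
          have h1 : Nc * 1 * (1 * 1) ≤ Nc * Nc * (c2 * c2) := by gcongr
          rw [mul_one, mul_one, mul_one] at h1
          gcongr
      _ = _ := by ring
  rcases le_or_gt 1 |B.det|⁻¹ with hN1 | hN1
  · -- the main case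
    have hkey := fun c => keyW hd.hp hp7 ha hκk (χ := χ) (fun i hi => hχp i (by omega)) hB hC10 hb hd'
      (L := L) (CN := CN) (hCL 1 hC31)
      (hCL _ (by rw [hC3]; linarith)) (by
        rw [hL]
        calc (p : ℝ) ^ (4 * n) ≤ (p : ℝ) ^ (15 * n) := pow_le_pow_right₀ hp1 (by omega)
          _ ≤ ((p : ℝ) * k) ^ (15 * n) := pow_le_pow_left₀ hp0.le hppk _
          _ = 1 * ((p : ℝ) * k) ^ (15 * n) := (one_mul _).symm
          _ ≤ C3 * ((p : ℝ) * k) ^ (15 * n) := by gcongr) (by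
        rw [hL]
        calc ((k : ℝ) + 1) ^ (3 * n) ≤ ((p : ℝ) * k) ^ (3 * n) := by
              refine pow_le_pow_left₀ (by positivity) ?_ _
              have : (2 : ℝ) ≤ p := by exact_mod_cast hd.hp.two_le
              nlinarith
          _ ≤ ((p : ℝ) * k) ^ (15 * n) := pow_le_pow_right₀ hpk1 (by omega)
          _ = 1 * ((p : ℝ) * k) ^ (15 * n) := (one_mul _).symm
          _ ≤ C3 * ((p : ℝ) * k) ^ (15 * n) := by gcongr) (hCL _ (by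
            have : 0 ≤ C1 * 2 ^ n := by positivity
            rw [hC3]; linarith)) hCN0 (by
        rw [hL]
        have h1 : CN ≤ C3 := by
          have : 0 ≤ C1 * 2 ^ n := by positivity
          rw [hC3]; linarith
        gcongr) hNsq hN1 c
    set Y : ℝ := 5 * L ^ 5 * (p : ℝ) ^ (∑ i, a i) * |B.det|⁻¹ with hY
    have hL0 : 0 ≤ L := le_trans zero_le_one (hCL 1 hC31)
    have hY0 : 0 ≤ Y := by positivity
    have hX : ∀ c, ∑ τ : (i : K →+* ℂ) → DirichletCharacter ℂ (p ^ a i),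
        ‖ES (bmX (fun i => (ω i : 𝓞 K)) y) 2 c
        (fun x => tch τ x * ∏ i, χ i ((x i : ℤ) : ZMod (p ^ κ i)))‖ ^ 2 ≤ Real.sqrt Y ^ 2 := by
      intro c
      rw [Real.sq_sqrt hY0]
      refine le_trans (le_of_eq ?_) (hkey (Real.sqrt 2 • c))
      refine Finset.sum_congr rfl fun τ _ => ?_
      rw [← ES_scale, bmX_shift]
    have h1 := tt_msW hd hcop hs h𝔟 h𝔠 hω hC.mod hT hmT hσ he y (Real.sqrt_nonneg Y) hX
    refine h1.trans ?_
    rw [mul_pow, Real.sq_sqrt hY0]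
    have h3 : |B.det|⁻¹ ≤ (t * dKX K)⁻¹ := by
      rw [hdet]
      refine inv_anti₀ (by positivity) ?_
      calc t * dKX K = t * 1 * dKX K * 1 := by ring
        _ ≤ t * c2 * dKX K * Nc := by gcongr
    have e5 : L ^ 5 = C3 ^ 5 * ((p : ℝ) * k) ^ (75 * n) := by
      rw [hL, mul_pow, ← pow_mul]
      congr 2
      ring
    have hCH0 := CH_nonneg (ls σ e)
    calc m * Nc ^ 2 * (CH (ls σ e) ^ 2 * Y) ≤ m * Nc ^ 2 * (H ^ 2 *
          (5 * L ^ 5 * (p : ℝ) ^ (∑ i, a i) * (t * dKX K)⁻¹)) := by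
          rw [hY]
          gcongr
      _ = Ca * m * Nc ^ 2 * ((p : ℝ) * k) ^ (75 * n) * (p : ℝ) ^ (∑ i, a i) / t := by
          rw [hCa, e5]
          field_simp
      _ ≤ _ := by
          have hCb0 : 0 ≤ Cb := by positivity
          have : Ca ≤ 1 + Ca + Cb := by linarith
          gcongr
  · -- the trivial bound
    have hone : ∀ j, ‖tt σ e (Pk (η j) (α j) 𝔟) y‖ ^ 2 ≤ Cb * Nc / t := by
      intro j
      have h1 := tt_trivW hd.card (hC.mod j) h𝔟 σ e y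
      have e1 : Real.exp ((∑ w : InfinitePlace K, (w.mult : ℝ) * y w) / 2) * dKX K *
          (Ideal.absNorm 𝔟 : ℝ) = t * dKX K := by
        rw [ht]; ring
      rw [e1, ← hn] at h1
      have h2 : ‖tt σ e (Pk (η j) (α j) 𝔟) y‖ ^ 2 ≤ (H * (CBX K * 2 ^ n) / (t * dKX K)) ^ 2 := by
        refine pow_le_pow_left₀ (norm_nonneg _) (h1.trans ?_) 2
        have h9 : 0 ≤ CBX K * 2 ^ n / (t * dKX K) := by positivity
        calc _ ≤ H * (CBX K * 2 ^ n / (t * dKX K)) := mul_le_mul_of_nonneg_right hCW h9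
          _ = _ := (mul_div_assoc _ _ _).symm
      refine h2.trans ?_
      have h3 : 1 ≤ t * c2 * dKX K * Nc := by
        rw [← hdet]
        have h4 := inv_lt_one_iff₀.1 hN1
        rcases h4 with h4 | h4
        · linarith
        · exact h4.le
      calc (H * (CBX K * 2 ^ n) / (t * dKX K)) ^ 2 =
            (H * (CBX K * 2 ^ n)) ^ 2 / (t * dKX K) ^ 2 * 1 := by
            rw [div_pow, mul_one]
        _ ≤ (H * (CBX K * 2 ^ n)) ^ 2 / (t * dKX K) ^ 2 * (t * c2 * dKX K * Nc) := by gcongr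
        _ = Cb * Nc / t := by
            rw [hCb]
            field_simp
    have hne : ∀ i, NeZero (p ^ a i) := fun i => ⟨pow_ne_zero _ hd.hp.ne_zero⟩
    have hcJ : (Fintype.card J : ℝ) ≤ m * (p : ℝ) ^ (∑ i, a i) := by
      have h1 := sum_fib_le T (m := m) (fun τ => hmT τ _ fun j hj => (Finset.mem_filter.1 hj).2)
        (f := fun _ => (1 : ℝ)) fun _ => zero_le_one
      rw [Finset.sum_const, Finset.card_univ, nsmul_eq_mul, mul_one, Finset.sum_const,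
        Finset.card_univ, nsmul_eq_mul, mul_one] at h1
      refine h1.trans ?_
      refine mul_le_mul_of_nonneg_left ?_ hm0
      rw [Fintype.card_pi]
      push_cast
      rw [← Finset.prod_pow_eq_pow_sum]
      refine Finset.prod_le_prod (fun _ _ => Nat.cast_nonneg _) fun i _ => ?_
      exact_mod_cast card_char_le (pow_pos hd.hp.pos (a i))
    have hCb0 : 0 ≤ Cb := by positivity
    calc _ ≤ ∑ _j : J, Cb * Nc / t := Finset.sum_le_sum fun j _ => hone j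
      _ = (Fintype.card J : ℝ) * (Cb * Nc / t) := by
          rw [Finset.sum_const, Finset.card_univ, nsmul_eq_mul]
      _ ≤ (m * (p : ℝ) ^ (∑ i, a i)) * (Cb * Nc / t) := by gcongr
      _ = Cb * m * Nc * 1 * (p : ℝ) ^ (∑ i, a i) / t := by ring
      _ ≤ Cb * m * Nc ^ 2 * ((p : ℝ) * k) ^ (75 * n) * (p : ℝ) ^ (∑ i, a i) / t := by
          have h5 : Nc ≤ Nc ^ 2 := le_self_pow₀ hN𝔠 (by norm_num)
          have h6 : (1 : ℝ) ≤ ((p : ℝ) * k) ^ (75 * n) := one_le_pow₀ hpk1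
          gcongr
      _ ≤ _ := by
          have hCa0 : 0 ≤ Ca := by positivity
          have : Cb ≤ 1 + Ca + Cb := by linarith
          gcongr

end Pool.Agent.J4H31.W
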